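import Pool.Agent.MP_4f4d9f_gt.Defs

open scoped Pointwise

namespace Pool.Agent.MP_4f4d9f_gt

/-! ### Order complexes -/

section Order

variable {α : Type} [PartialOrder α]

/-- `σ` is a simplex with `p` vertices of the order complex of `P`: a chain of `p` elements
of `P`. -/
def IsFlag (P : Set α) (p : ℕ) (σ : Finset α) : Prop :=
  (σ : Set α) ⊆ P ∧ IsChain (· ≤ ·) (σ : Set α) ∧ σ.card = p

open Classical in
/-- The augmented simplicial boundary `[v₀ < ⋯ < v_k] ↦ ∑ i, (-1)^i [v₀ < ⋯ v̂ᵢ ⋯ < v_k]`. -/
noncomputable def obd : (Finset α →₀ ℤ) →ₗ[ℤ] (Finset α →₀ ℤ) :=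
  Finsupp.linearCombination ℤ fun σ =>
    ∑ v ∈ σ, Finsupp.single (σ.erase v) ((-1) ^ (σ.filter (· < v)).card)

/-- The order complex of `P` is acyclic: its augmented integral chain complex is exact. -/
def OrderAcyclic (P : Set α) : Prop :=
  ∀ (p : ℕ) (z : Finset α →₀ ℤ), (∀ σ ∈ z.support, IsFlag P p σ) → obd z = 0 →
    ∃ w : Finset α →₀ ℤ, (∀ σ ∈ w.support, IsFlag P (p + 1) σ) ∧ obd w = z

end Order

/-! ### Artin groups and Deligne complexes -/

section Artin

variable {S : Type} (M : CoxeterMatrix S)

/-- The Artin group of a Coxeter matrix: generators `S` and, for all `s, t`, the braid relation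
`⋯ s t = ⋯ t s` with `M s t` letters on each side (`M s t = 0` stands for `∞`: no relation). -/
abbrev Artin : Type :=
  PresentedGroup {r : FreeGroup S | ∃ s t,
    r = ((CoxeterSystem.braidWord M s t).map FreeGroup.of).prod *
      (((CoxeterSystem.braidWord M t s).map FreeGroup.of).prod)⁻¹}

/-- The standard parabolic subgroup `A_T`, generated by the generators in `T`. -/
def parab (T : Set S) : Subgroup (Artin M) :=
  Subgroup.closure (PresentedGroup.of '' T)

/-- `T` is spherical: the subgroup `W_T` of the Coxeter group generated by `T` is finite. -/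
def Spherical (T : Set S) : Prop :=
  Finite (Subgroup.closure (M.simple '' T))

/-- The Deligne poset of `A_T`: the cosets `g A_U` with `g ∈ A_T` and `U ⊆ T` spherical,
ordered by inclusion. -/
def Deligne (T : Set S) : Set (Set (Artin M)) :=
  {c | ∃ U ⊆ T, Spherical M U ∧ ∃ g ∈ parab M T, c = g • (parab M U : Set (Artin M))}

end Artin

end Pool.Agent.MP_4f4d9f_gt
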