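import Mathlib

open scoped TensorProduct ENNReal InnerProductSpace

namespace Pool.Agent.MP_4f4d9f_gt

/-! ### Right-angled Artin groups -/

/-- The right-angled Artin group of a simple graph: one generator for each vertex, and the
generators of adjacent vertices commute. -/
abbrev RAAG {V : Type} (Γ : SimpleGraph V) : Type :=
  PresentedGroup {w : FreeGroup V | ∃ u v, Γ.Adj u v ∧
    w = FreeGroup.of u * FreeGroup.of v * (FreeGroup.of u)⁻¹ * (FreeGroup.of v)⁻¹}

/-! ### Singular chains -/

/-- Singular `k`-simplices of `X`. -/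
abbrev Sing (X : Type) [TopologicalSpace X] (k : ℕ) : Type :=
  ContinuousMap (stdSimplex ℝ (Fin (k + 1))) X

/-- The `i`-th face of a singular simplex. -/
noncomputable def face {X : Type} [TopologicalSpace X] {k : ℕ} (i : Fin (k + 2))
    (σ : Sing X (k + 1)) : Sing X k :=
  σ.comp ⟨stdSimplex.map i.succAbove, stdSimplex.continuous_map _⟩

/-! ### The tensor product over the group ring -/

/-- The action of `G` on the free abelian group on a `G`-set `B`. -/
noncomputable def permRep (G B : Type) [Group G] [MulAction G B] :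
    Representation ℤ G (B →₀ ℤ) where
  toFun g := Finsupp.lmapDomain ℤ ℤ (g • ·)
  map_one' := by ext; simp
  map_mul' g h := by ext; simp [mul_smul]

section Tens

variable {G N : Type} [Group G] [Ring N] (ι : G →* N)
  {C D : Type} [AddCommGroup C] [AddCommGroup D]

/-- The relations `a ι(g) ⊗ c = a ⊗ g c`. -/
def tensRel (ρ : Representation ℤ G C) : Submodule N (N ⊗[ℤ] C) :=
  Submodule.span N {x | ∃ (a : N) (g : G) (c : C), x = (a * ι g) ⊗ₜ c - a ⊗ₜ ρ g c}

/-- The left `N`-module `N ⊗_{ℤG} C`, where `ℤG` acts on `N` from the right through `ι`. -/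
abbrev Tens (ρ : Representation ℤ G C) : Type := (N ⊗[ℤ] C) ⧸ tensRel ι ρ

/-- The map `N ⊗_{ℤG} f` induced by a `G`-equivariant additive map `f`. -/
noncomputable def tensMap {ρ : Representation ℤ G C} {ρ' : Representation ℤ G D}
    (f : C →ₗ[ℤ] D) (hf : ∀ g c, f (ρ g c) = ρ' g (f c)) : Tens ι ρ →ₗ[N] Tens ι ρ' :=
  Submodule.mapQ _ _ (f.baseChange N) (by
    refine Submodule.span_le.2 ?_
    rintro _ ⟨a, g, c, rfl⟩
    exact Submodule.subset_span ⟨a, g, f c, by simp [hf]⟩)

end Tens

/-! ### Dimension with respect to a trace -/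

/-- The extended dimension of an `N`-module `M` with respect to a trace `tr`: the supremum of
`∑ i, tr (A i i)` over idempotent matrices `A` such that some submodule of `M`, generated by
`v`, is presented by `A`, hence isomorphic to the finitely generated projective module `N^r A`. -/
noncomputable def trDim {N : Type} [Ring N] (tr : N → ℂ) (M : Type) [AddCommGroup M]
    [Module N M] : ℝ≥0∞ :=
  ⨆ (r : ℕ) (A : Matrix (Fin r) (Fin r) N) (_ : A * A = A) (v : Fin r → M)
    (_ : ∀ x : Fin r → N, ∑ i, x i • v i = 0 ↔ Matrix.vecMul x A = 0),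
    ENNReal.ofReal (∑ i, tr (A i i)).re

/-- The dimension of the homology `ker g / im f`. -/
noncomputable def homDim {N : Type} [Ring N] (tr : N → ℂ) {A B C : Type} [AddCommGroup A]
    [AddCommGroup B] [AddCommGroup C] [Module N A] [Module N B] [Module N C]
    (f : A →ₗ[N] B) (g : B →ₗ[N] C) : ℝ≥0∞ :=
  trDim tr (LinearMap.ker g ⧸ (LinearMap.range f).comap (LinearMap.ker g).subtype)

/-- The alternating sum of the maps induced by `f 0, f 1, …` on free abelian groups. -/
noncomputable def altSum {A B : Type} {m : ℕ} (f : Fin m → A → B) : (A →₀ ℤ) →ₗ[ℤ] (B →₀ ℤ) :=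
  ∑ i : Fin m, (-1 : ℤ) ^ (i : ℕ) • Finsupp.lmapDomain ℤ ℤ (f i)

lemma altSum_smul {G A B : Type} [Group G] [MulAction G A] [MulAction G B] {m : ℕ}
    {f : Fin m → A → B} (hf : ∀ i (g : G) a, f i (g • a) = g • f i a) (g : G) (c : A →₀ ℤ) :
    altSum f (permRep G A g c) = permRep G B g (altSum f c) := by
  simp only [altSum, LinearMap.sum_apply, LinearMap.smul_apply, map_sum, map_zsmul, permRep,
    MonoidHom.coe_mk, OneHom.coe_mk, Finsupp.lmapDomain_apply, ← Finsupp.mapDomain_comp,
    Function.comp_def, hf]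

/-- The dimension of the homology of `N ⊗ ℤ[A] → N ⊗ ℤ[B] → N ⊗ ℤ[C]` (tensor products over
`ℤG`), the maps being alternating sums of equivariant face maps. -/
noncomputable def faceDim {G N : Type} [Group G] [Ring N] (ι : G →* N) (tr : N → ℂ)
    {A B C : Type} [MulAction G A] [MulAction G B] [MulAction G C] {l m : ℕ}
    (e : Fin l → A → B) (f : Fin m → B → C) (he : ∀ i (g : G) a, e i (g • a) = g • e i a)
    (hf : ∀ i (g : G) a, f i (g • a) = g • f i a) : ℝ≥0∞ :=
  homDim tr (tensMap ι (altSum e) (altSum_smul he)) (tensMap ι (altSum f) (altSum_smul hf))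

/-- The dimension of `H_{k+1}(N ⊗_{ℤG} C_*(X))`, for the singular chain complex `C_*(X)`. -/
noncomputable def singDim {G N : Type} [Group G] [Ring N] (ι : G →* N) (tr : N → ℂ)
    (X : Type) [TopologicalSpace X] [MulAction G X] [ContinuousConstSMul G X] (k : ℕ) : ℝ≥0∞ :=
  faceDim ι tr (face (X := X) (k := k + 1)) (face (X := X) (k := k)) (fun _ _ _ => rfl)
    (fun _ _ _ => rfl)

/-! ### The group von Neumann algebra -/

/-- The group von Neumann algebra `N(G)` on a Hilbert space with Hilbert basis `b` indexed by `G`: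
the bounded operators that commute with the right translations `b h ↦ b (h g)`. -/
def vnAlg {G E : Type} [Group G] [NormedAddCommGroup E] [InnerProductSpace ℂ E]
    (b : HilbertBasis G ℂ E) : Subring (E →L[ℂ] E) :=
  Subring.centralizer {S | ∃ g : G, ∀ h, S (b h) = b (h * g)}

/-- The `L²`-Betti number of degree `k + 1` of the `G`-space `X`; `ι` is the left regular
representation and the trace is `a ↦ ⟨b 1, a (b 1)⟩`. -/
noncomputable def bettiSucc {G E : Type} [Group G] [NormedAddCommGroup E] [InnerProductSpace ℂ E]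
    (b : HilbertBasis G ℂ E) (ι : G →* vnAlg b)
    (X : Type) [TopologicalSpace X] [MulAction G X] [ContinuousConstSMul G X] (k : ℕ) : ℝ≥0∞ :=
  singDim ι (fun a => ⟪b 1, a.1 (b 1)⟫_ℂ) X k

end Pool.Agent.MP_4f4d9f_gt
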