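import Pool.Agent.MP_4f4d9f_gt.SingCone

/-! Contractible spaces and star-shaped sets are acyclic. -/

namespace Pool.Agent.MP_4f4d9f_gt

variable (R : Type) [Ring R] {X : Type} [TopologicalSpace X]

variable (X) in
/-- A contractible space is acyclic. -/
theorem acyclic_of_contractible [ContractibleSpace X] : Acyclic R X := by
  obtain ⟨x₀, ⟨H⟩⟩ := id_nullhomotopic X
  refine ⟨⟨x₀⟩, fun c hc => ⟨cone R H 0 c, ?_⟩, fun k c hc => ⟨cone R H (k + 1) c, ?_⟩⟩
  · rw [bd_cone_zero, hc, push_id]; simp
  · rw [bd_cone_succ, hc, push_id]; simp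

theorem sacyc_of_contractible (A : Set X) [ContractibleSpace A] : SAcyc R A :=
  (acyclic_of_contractible R A).sacyc

section Star

variable {E : Type} [AddCommGroup E] [Module ℝ E] [TopologicalSpace E] [ContinuousAdd E]
  [ContinuousSMul ℝ E]

theorem sacyc_of_starConvex {A : Set E} {a : E} (h : StarConvex ℝ a A) (hA : A.Nonempty) :
    SAcyc R A :=
  have := h.contractibleSpace hA
  sacyc_of_contractible R A

theorem sacyc_of_convex {A : Set E} (h : Convex ℝ A) (hA : A.Nonempty) : SAcyc R A :=
  have := h.contractibleSpace hA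
  sacyc_of_contractible R A

end Star

end Pool.Agent.MP_4f4d9f_gt
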