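import Pool.Agent.MP_4f4d9f_gt.P3Iface
import Pool.Agent.MP_4f4d9f_gt.Cone

/-! Comparison of rational resolutions with singular chains; directed unions. -/

open scoped TensorProduct

namespace Pool.Agent.MP_4f4d9f_gt

namespace CompQ

section Gen

variable {H : Type} [Group H] {C D : ℕ → Type} [∀ k, AddCommGroup (C k)] [∀ k, AddCommGroup (D k)]
  {ρ : ∀ k, Representation ℤ H (C k)} {d : ∀ k, C (k + 1) →ₗ[ℤ] C k}
  {ρ' : ∀ k, Representation ℤ H (D k)} {d' : ∀ k, D (k + 1) →ₗ[ℤ] D k}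

theorem exists_map (hd : ∀ k, Eqv (ρ (k + 1)) (ρ k) (d k)) (dd : ∀ k c, d k (d (k + 1) c) = 0)
    (ex : ∀ k c, d' k c = 0 → ∃ b, d' (k + 1) b = c)
    (lift : ∀ k (φ : C (k + 1) →ₗ[ℤ] D k), Eqv (ρ (k + 1)) (ρ' k) φ → (∀ c, ∃ x, d' k x = φ c) →
      ∃ ψ : C (k + 1) →ₗ[ℤ] D (k + 1), Eqv (ρ (k + 1)) (ρ' (k + 1)) ψ ∧ ∀ c, d' k (ψ c) = φ c)
    (f0 : C 0 →ₗ[ℤ] D 0) (hf0 : Eqv (ρ 0) (ρ' 0) f0) (hf0' : ∀ c, ∃ x, d' 0 x = f0 (d 0 c)) :
    ∃ f : ∀ k, C k →ₗ[ℤ] D k, (∀ k, Eqv (ρ k) (ρ' k) (f k)) ∧ f 0 = f0 ∧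
      ∀ k c, d' k (f (k + 1) c) = f k (d k c) := by
  let T (k : ℕ) : Type := {f : C k →ₗ[ℤ] D k // Eqv (ρ k) (ρ' k) f ∧
    ∀ c, ∃ x, d' k x = f (d k c)}
  have step : ∀ k (f : T k), ∃ f' : T (k + 1), ∀ c, d' k (f'.1 c) = f.1 (d k c) := by
    intro k f
    obtain ⟨ψ, h1, h2⟩ := lift k (f.1 ∘ₗ d k) (f.2.1.comp (hd k)) f.2.2
    refine ⟨⟨ψ, h1, fun c => ex k _ ?_⟩, h2⟩
    rw [h2, LinearMap.comp_apply, dd, map_zero]
  choose next hnext using step
  let t0 : T 0 := ⟨f0, hf0, hf0'⟩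
  let t : ∀ k, T k := fun k => Nat.rec t0 next k
  exact ⟨fun k => (t k).1, fun k => (t k).2.1, rfl, fun k => hnext k (t k)⟩

theorem exists_homotopy (hd : ∀ k, Eqv (ρ (k + 1)) (ρ k) (d k))
    (dd : ∀ k c, d k (d (k + 1) c) = 0) (ex : ∀ k c, d' k c = 0 → ∃ b, d' (k + 1) b = c)
    (lift : ∀ k (φ : C k →ₗ[ℤ] D k), Eqv (ρ k) (ρ' k) φ → (∀ c, ∃ x, d' k x = φ c) →
      ∃ ψ : C k →ₗ[ℤ] D (k + 1), Eqv (ρ k) (ρ' (k + 1)) ψ ∧ ∀ c, d' k (ψ c) = φ c)
    (u : ∀ k, C k →ₗ[ℤ] D k) (hu : ∀ k, Eqv (ρ k) (ρ' k) (u k))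
    (hu0 : ∀ c, ∃ x, d' 0 x = u 0 c) (hud : ∀ k c, d' k (u (k + 1) c) = u k (d k c)) :
    ∃ h : ∀ k, C k →ₗ[ℤ] D (k + 1), (∀ k, Eqv (ρ k) (ρ' (k + 1)) (h k)) ∧
      ∀ k c, d' (k + 1) (h (k + 1) c) + h k (d k c) = u (k + 1) c := by
  obtain ⟨h0, hh0, hh0'⟩ := lift 0 (u 0) (hu 0) hu0
  let T (k : ℕ) : Type := {h : C k →ₗ[ℤ] D (k + 1) // Eqv (ρ k) (ρ' (k + 1)) h ∧
    ∀ c, d' k (h (d k c)) = u k (d k c)}
  have step : ∀ k (h : T k), ∃ h' : T (k + 1),
      ∀ c, d' (k + 1) (h'.1 c) + h.1 (d k c) = u (k + 1) c := by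
    intro k h
    obtain ⟨ψ, h1, h2⟩ := lift (k + 1) (u (k + 1) - h.1 ∘ₗ d k)
      ((hu _).sub (h.2.1.comp (hd k))) fun c => ex k _ (by simp [hud, h.2.2])
    refine ⟨⟨ψ, h1, fun c => ?_⟩, fun c => ?_⟩
    · simp [h2, dd]
    · simp [h2]
  choose next hnext using step
  let t0 : T 0 := ⟨h0, hh0, fun c => hh0' _⟩
  let t : ∀ k, T k := fun k => Nat.rec t0 next k
  exact ⟨fun k => (t k).1, fun k => (t k).2.1, fun k => hnext k (t k)⟩

end Gen

section Free

variable {H G B : Type} [Group H] [Group G] [MulAction G B]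

lemma permRepQ_single (g : G) (b : B) (a : ℚ) :
    permRepQ G B g (Finsupp.single b a) = Finsupp.single (g • b) a := by
  simp [permRepQ]

/-- The inclusion of integral into rational chains. -/
noncomputable def incl (B : Type) : (B →₀ ℤ) →ₗ[ℤ] (B →₀ ℚ) :=
  Finsupp.mapRange.linearMap (Int.castAddHom ℚ).toIntLinearMap

lemma incl_single (b : B) (a : ℤ) : incl B (Finsupp.single b a) = Finsupp.single b (a : ℚ) := by
  simp [incl]

lemma incl_eqv (j : H →* G) : Eqv ((permRep G B).comp j) ((permRepQ G B).comp j) (incl B) := by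
  intro h c
  induction c using Finsupp.induction_linear with
  | zero => simp
  | add a b ha hb => simp only [map_add, ha, hb]
  | single b a => simp only [MonoidHom.comp_apply, permRep_single, permRepQ_single, incl_single]

theorem projQ_free (j : H →* G) (hj : Function.Injective j)
    (hfree : ∀ (g : G) (b : B), g • b = b → g = 1) :
    ProjQ (H := H) ((permRepQ G B).comp j) := by
  intro D E _ _ _ _ ρD ρE π φ hπ hφ hsurj
  obtain ⟨ψ, h1, h2⟩ := proj_free j hj hfree D E ρD ρE π (φ ∘ₗ incl B) hπ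
    (hφ.comp (incl_eqv j)) fun c => hsurj _
  refine ⟨(Finsupp.linearCombination ℚ fun b => ψ (Finsupp.single b 1)).restrictScalars ℤ,
    fun h c => ?_, fun c => ?_⟩
  · induction c using Finsupp.induction_linear with
    | zero => simp
    | add a b ha hb => simp only [map_add, ha, hb]
    | single b a =>
      have := h1 h (Finsupp.single b 1)
      simp only [MonoidHom.comp_apply, permRep_single] at this
      simp only [MonoidHom.comp_apply, permRepQ_single, LinearMap.restrictScalars_apply,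
        Finsupp.linearCombination_single, this, map_rat_smul]
  · induction c using Finsupp.induction_linear with
    | zero => simp
    | add a b ha hb => simp only [map_add, ha, hb]
    | single b a =>
      rw [LinearMap.restrictScalars_apply, Finsupp.linearCombination_single, map_rat_smul, h2,
        LinearMap.comp_apply, incl_single, ← map_rat_smul]
      simp

variable {N : Type} [Ring N] (ι : H →* N) (φ : ℚ →+* N) (j : H →* G)

/-- The map `single b q ↦ φ q ⊗ b`. -/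
noncomputable def back : (B →₀ ℚ) →ₗ[ℤ] Tens ι ((permRep G B).comp j) :=
  (Finsupp.liftAddHom fun b : B =>
    ((smulAddHom N (Tens ι ((permRep G B).comp j))).flip
      (Tens.of ι ((permRep G B).comp j) (Finsupp.single b 1))).comp
      φ.toAddMonoidHom).toIntLinearMap

lemma back_single (b : B) (q : ℚ) : back ι φ j (Finsupp.single b q) =
    φ q • Tens.of ι ((permRep G B).comp j) (Finsupp.single b 1) := by
  simp [back]

lemma back_eqv (hφ : ∀ q a, φ q * a = a * φ q) (h : H) (c : B →₀ ℚ) :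
    back ι φ j (((permRepQ G B).comp j) h c) = ι h • back ι φ j c := by
  induction c using Finsupp.induction_linear with
  | zero => simp
  | add a b ha hb => simp only [map_add, ha, hb, smul_add]
  | single b a =>
    have := Tens.of_rep ι ((permRep G B).comp j) h (Finsupp.single b 1)
    simp only [MonoidHom.comp_apply, permRep_single] at this
    simp only [MonoidHom.comp_apply, permRepQ_single, back_single, this, smul_smul, hφ]

lemma back_incl (c : B →₀ ℤ) : back ι φ j (incl B c) = Tens.of ι ((permRep G B).comp j) c := by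
  induction c using Finsupp.induction_linear with
  | zero => simp
  | add a b ha hb => simp only [map_add, ha, hb]
  | single b a =>
    rw [incl_single, back_single, map_intCast, Int.cast_smul_eq_zsmul, ← map_zsmul]
    simp

end Free

section Sing

variable {G X : Type} [Group G] [TopologicalSpace X] [MulAction G X] [ContinuousConstSMul G X]

/-- The rational boundary as an additive map. -/
noncomputable def bdQ (X : Type) [TopologicalSpace X] (k : ℕ) :
    (Sing X (k + 1) →₀ ℚ) →ₗ[ℤ] (Sing X k →₀ ℚ) := (bd ℚ X k).restrictScalars ℤ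

lemma bdQ_apply (k : ℕ) (c : Sing X (k + 1) →₀ ℚ) : bdQ X k c = bd ℚ X k c := rfl

lemma bdQ_smul (k : ℕ) (g : G) (c : Sing X (k + 1) →₀ ℚ) :
    bdQ X k (permRepQ G _ g c) = permRepQ G _ g (bdQ X k c) := by
  induction c using Finsupp.induction_linear with
  | zero => simp
  | add a b ha hb => simp only [map_add, ha, hb]
  | single b a =>
    simp only [permRepQ_single, bdQ_apply, bd_single, map_sum, map_zsmul]
    rfl

lemma bdQ_incl (k : ℕ) (c : Sing X (k + 1) →₀ ℤ) :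
    bdQ X k (incl _ c) = incl _ (bd ℤ X k c) := by
  induction c using Finsupp.induction_linear with
  | zero => simp
  | add a b ha hb => simp only [map_add, ha, hb]
  | single b a => simp only [incl_single, bdQ_apply, bd_single, map_sum, map_zsmul]

lemma aug_incl (c : Sing X 0 →₀ ℤ) : aug ℚ X (incl _ c) = (aug ℤ X c : ℚ) := by
  induction c using Finsupp.induction_linear with
  | zero => simp
  | add a b ha hb => simp only [map_add, ha, hb, Int.cast_add]
  | single b a => simp only [incl_single, aug_single]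

lemma back_bdQ {H N : Type} [Group H] [Ring N] (ι : H →* N) (φ : ℚ →+* N) (i : H →* G) (k : ℕ)
    (c : Sing X (k + 1) →₀ ℚ) : back ι φ i (bdQ X k c) =
      Tens.map ι (ρ := (permRep G (Sing X (k + 1))).comp i) (ρ' := (permRep G (Sing X k)).comp i)
        (bd ℤ X k) (fun g c => bd_smul G X k (i g) c) (back ι φ i c) := by
  induction c using Finsupp.induction_linear with
  | zero => simp
  | add a b ha hb => simp only [map_add, ha, hb]
  | single b a =>
    rw [back_single, map_smul, Tens.map_of]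
    simp only [bdQ_apply, bd_single, map_sum, map_zsmul, back_single, Finset.smul_sum]
    exact Finset.sum_congr rfl fun _ _ => smul_comm _ _ _

end Sing

theorem tensRel_fin {H N C : Type} [Group H] [Ring N] (ι : H →* N) [AddCommGroup C]
    (ρ : Representation ℤ H C) {y : N ⊗[ℤ] C} (hy : y ∈ tensRel ι ρ) :
    ∃ T : Finset H, ∀ K : Subgroup H, (∀ t ∈ T, t ∈ K) →
      y ∈ tensRel (ι.comp K.subtype) (ρ.comp K.subtype) := by
  classical
  induction hy using Submodule.span_induction with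
  | mem x hx =>
    obtain ⟨a, g, c, rfl⟩ := hx
    exact ⟨{g}, fun K hK =>
      Submodule.subset_span ⟨a, ⟨g, hK g (Finset.mem_singleton_self g)⟩, c, rfl⟩⟩
  | zero => exact ⟨∅, fun K _ => zero_mem _⟩
  | add x y _ _ hx hy =>
    obtain ⟨T, hT⟩ := hx
    obtain ⟨T', hT'⟩ := hy
    exact ⟨T ∪ T', fun K hK => add_mem (hT K fun t ht => hK t (Finset.mem_union_left _ ht))
      (hT' K fun t ht => hK t (Finset.mem_union_right _ ht))⟩
  | smul a x _ hx =>
    obtain ⟨T, hT⟩ := hx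
    exact ⟨T, fun K hK => Submodule.smul_mem _ a (hT K hK)⟩

theorem tensRel_le {H N C : Type} [Group H] [Ring N] (ι : H →* N) [AddCommGroup C]
    (ρ : Representation ℤ H C) (K : Subgroup H) :
    tensRel (ι.comp K.subtype) (ρ.comp K.subtype) ≤ tensRel ι ρ := by
  refine Submodule.span_mono ?_
  rintro _ ⟨a, g, c, rfl⟩
  exact ⟨a, g, c, rfl⟩

end CompQ

open CompQ

/-- A retract of a free `ℚH`-module is projective. -/
theorem projQ_of_retract {H G B C : Type} [Group H] [Group G] [MulAction G B] [AddCommGroup C]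
    (j : H →* G) (hj : Function.Injective j) (hfree : ∀ (g : G) (b : B), g • b = b → g = 1)
    (ρ : Representation ℤ H C) (inc : C →ₗ[ℤ] (B →₀ ℚ)) (ret : (B →₀ ℚ) →ₗ[ℤ] C)
    (hinc : Eqv ρ ((permRepQ G B).comp j) inc) (hret : Eqv ((permRepQ G B).comp j) ρ ret)
    (h : ∀ c, ret (inc c) = c) : ProjQ ρ := by
  intro D E _ _ _ _ ρD ρE π φ hπ hφ hsurj
  obtain ⟨ψ, h1, h2⟩ := projQ_free j hj hfree D E ρD ρE π (φ ∘ₗ ret) hπ (hφ.comp hret)
    fun c => hsurj _
  exact ⟨ψ ∘ₗ inc, h1.comp hinc, fun c => by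
    rw [LinearMap.comp_apply, h2, LinearMap.comp_apply, h]⟩

/-- A rational resolution that is contractible in degree `k + 1` makes `N ⊗ C_*(X)` exact there. -/
theorem exactAt_sing {G X : Type} [Group G] [TopologicalSpace X] [ContractibleSpace X]
    [MulAction G X] [ContinuousConstSMul G X] (hfree : ∀ (g : G) (x : X), g • x = x → g = 1)
    {H : Type} [Group H] (i : H →* G) (hi : Function.Injective i)
    {C : ℕ → Type} [∀ k, AddCommGroup (C k)] [∀ k, Module ℚ (C k)]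
    {ρ : ∀ k, Representation ℤ H (C k)} {d : ∀ k, C (k + 1) →ₗ[ℤ] C k} {ε : C 0 →ₗ[ℤ] ℚ}
    (R : IsResQ ρ d ε) {k : ℕ} (s : C (k + 1) →ₗ[ℤ] C (k + 2)) (s' : C k →ₗ[ℤ] C (k + 1))
    (hs : Eqv (ρ (k + 1)) (ρ (k + 2)) s) (hs' : Eqv (ρ k) (ρ (k + 1)) s')
    (hss : ∀ c, d (k + 1) (s c) + s' (d k c) = c)
    {N : Type} [Ring N] (ι : H →* N) (φ : ℚ →+* N) (hφ : ∀ q a, φ q * a = a * φ q) :
    ExactAt ι (fun k => (permRep G (Sing X k)).comp i) (bd ℤ X)
      (fun k g c => bd_smul G X k (i g) c) k := by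
  have hP : ∀ k, Proj (H := H) ((permRep G (Sing X k)).comp i) := fun k =>
    proj_free i hi fun g σ h => hfree g (σ (Classical.arbitrary _))
      (congrArg (fun τ : Sing X k => τ (Classical.arbitrary _)) h)
  have hZ : ∀ k, Eqv ((permRep G (Sing X (k + 1))).comp i) ((permRep G (Sing X k)).comp i)
      (bd ℤ X k) := fun k g c => bd_smul G X k (i g) c
  have hQ : ∀ k, Eqv ((permRepQ G (Sing X (k + 1))).comp i) ((permRepQ G (Sing X k)).comp i)
      (bdQ X k) := fun k g c => bdQ_smul k (i g) c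
  have ac := acyclic_of_contractible ℚ X
  obtain ⟨α0, hα0, hα0'⟩ := hP 0 (C 0) ℚ (ρ 0) 1 ε
    ((Int.castAddHom ℚ).toIntLinearMap ∘ₗ aug ℤ X) R.eqv_ε
    (fun g c => congrArg (Int.cast : ℤ → ℚ) (aug_push ℤ ⟨(i g • ·), continuous_const_smul _⟩ c))
    fun c => R.surj _
  obtain ⟨α, hα, eα, hαd⟩ := CompQ.exists_map (ρ := fun k => (permRep G (Sing X k)).comp i)
    (ρ' := ρ) (d := bd ℤ X) (d' := d) hZ (bd_bd ℤ) R.exact_succ
    (fun k ψ => hP (k + 1) _ _ (ρ (k + 1)) (ρ k) (d k) ψ (R.eqv_d k)) α0 hα0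
    fun c => R.exact_zero _ (by rw [hα0', LinearMap.comp_apply, aug_bd, map_zero])
  obtain ⟨β0, hβ0, hβ0'⟩ := R.proj 0 (Sing X 0 →₀ ℚ) ℚ ((permRepQ G (Sing X 0)).comp i) 1
    ((aug ℚ X).restrictScalars ℤ) ε
    (fun g c => aug_push ℚ ⟨(i g • ·), continuous_const_smul _⟩ c) R.eqv_ε
    fun c => ⟨Finsupp.single (ContinuousMap.const _ (Classical.arbitrary X)) (ε c),
      aug_single ℚ _ _⟩
  obtain ⟨β, hβ, eβ, hβd⟩ := CompQ.exists_map (ρ := ρ)
    (ρ' := fun k => (permRepQ G (Sing X k)).comp i) (d := d) (d' := bdQ X) R.eqv_d R.d_d ac.succ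
    (fun k ψ => R.proj (k + 1) _ _ _ _ (bdQ X k) ψ (hQ k)) β0 hβ0
    fun c => ac.zero _ ((hβ0' _).trans (R.ε_d c))
  obtain ⟨t, ht, htd⟩ := CompQ.exists_homotopy (ρ := fun k => (permRep G (Sing X k)).comp i)
    (ρ' := fun k => (permRepQ G (Sing X k)).comp i) (d := bd ℤ X) (d' := bdQ X) hZ (bd_bd ℤ)
    ac.succ (fun k ψ => hP k _ _ _ _ (bdQ X k) ψ (hQ k)) (fun k => incl _ - β k ∘ₗ α k)
    (fun k => (incl_eqv i).sub ((hβ k).comp (hα k)))
    (fun c => ac.zero _ (by
      have e : aug ℚ X (β0 (α0 c)) = (aug ℤ X c : ℚ) := (hβ0' _).trans (hα0' c)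
      rw [LinearMap.sub_apply, map_sub, aug_incl, LinearMap.comp_apply, eα, eβ, e, sub_self]))
    (fun k c => by simp only [LinearMap.sub_apply, map_sub, LinearMap.comp_apply, bdQ_incl, hβd,
      hαd])
  let w : (Sing X (k + 1) →₀ ℤ) →ₗ[ℤ] (Sing X (k + 2) →₀ ℚ) :=
    β (k + 2) ∘ₗ s ∘ₗ α (k + 1) - (0 - t (k + 1))
  let w' : (Sing X k →₀ ℤ) →ₗ[ℤ] (Sing X (k + 1) →₀ ℚ) :=
    β (k + 1) ∘ₗ s' ∘ₗ α k - (0 - t k)
  have hw : Eqv ((permRep G (Sing X (k + 1))).comp i) ((permRepQ G (Sing X (k + 2))).comp i) w :=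
    ((hβ _).comp (hs.comp (hα _))).sub (Eqv.sub (fun _ _ => by simp) (ht _))
  have hw' : Eqv ((permRep G (Sing X k)).comp i) ((permRepQ G (Sing X (k + 1))).comp i) w' :=
    ((hβ _).comp (hs'.comp (hα _))).sub (Eqv.sub (fun _ _ => by simp) (ht _))
  have key : ∀ c, bdQ X (k + 1) (w c) + w' (bd ℤ X k c) = incl _ c := fun c => by
    have e1 := htd k c
    have e2 := congrArg (β (k + 1)) (hss (α (k + 1) c))
    simp only [LinearMap.sub_apply, LinearMap.comp_apply, map_add, hαd] at e1 e2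
    simp only [w, w', zero_sub, sub_neg_eq_add, LinearMap.add_apply, LinearMap.comp_apply, map_add,
      hβd]
    rw [add_add_add_comm, e1, e2, add_sub_cancel]
  let r : ∀ k, Tens ι ((permRepQ G (Sing X k)).comp i) →ₗ[N]
      Tens ι ((permRep G (Sing X k)).comp i) := fun k =>
    Tens.lift ι (back ι φ i) (back_eqv ι φ i hφ)
  have e : Tens.map ι (bd ℤ X (k + 1)) (hZ _) ∘ₗ r (k + 2) ∘ₗ Tens.map ι w hw +
      r (k + 1) ∘ₗ Tens.map ι w' hw' ∘ₗ Tens.map ι (bd ℤ X k) (hZ _) = LinearMap.id :=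
    Tens.hom_ext ι fun c => by
      simp only [LinearMap.comp_apply, LinearMap.add_apply, Tens.map_of, r, Tens.lift_of,
        LinearMap.id_apply]
      rw [← back_bdQ, ← map_add, key, back_incl]
  intro z hz
  have e' := LinearMap.congr_fun e z
  simp only [LinearMap.comp_apply, LinearMap.add_apply, LinearMap.id_apply] at e'
  rw [show Tens.map ι (bd ℤ X k) (hZ _) z = 0 from hz, map_zero, map_zero, add_zero] at e'
  exact ⟨_, e'⟩

/-- Exactness passes to directed unions of subgroups. -/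
theorem exactAt_of_directed {H N : Type} [Group H] [Ring N] (ι : H →* N) {C : ℕ → Type}
    [∀ k, AddCommGroup (C k)] (ρ : ∀ k, Representation ℤ H (C k))
    (d : ∀ k, C (k + 1) →ₗ[ℤ] C k) (hd : ∀ k, Eqv (ρ (k + 1)) (ρ k) (d k)) (k : ℕ)
    (h : ∀ T : Finset H, ∃ K : Subgroup H, (∀ t ∈ T, t ∈ K) ∧
      ExactAt (ι.comp K.subtype) (fun k => (ρ k).comp K.subtype) d (fun k g => hd k g) k) :
    ExactAt ι ρ d hd k := by
  intro z hz
  obtain ⟨x, rfl⟩ := Submodule.Quotient.mk_surjective _ z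
  have h1 : (d k).baseChange N x ∈ tensRel ι (ρ k) := (Submodule.Quotient.mk_eq_zero _).1 hz
  obtain ⟨T, hT⟩ := tensRel_fin ι (ρ k) h1
  obtain ⟨K, hK, hE⟩ := h T
  obtain ⟨w, hw⟩ := hE (Submodule.Quotient.mk x) ((Submodule.Quotient.mk_eq_zero _).2 (hT K hK))
  obtain ⟨y, rfl⟩ := Submodule.Quotient.mk_surjective _ w
  exact ⟨Submodule.Quotient.mk y, (Submodule.Quotient.eq _).2
    (tensRel_le ι _ K ((Submodule.Quotient.eq _).1 hw))⟩

end Pool.Agent.MP_4f4d9f_gt
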