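import Pool.Agent.MP_4f4d9f_gt.Iface

/-! Part (A), first file: sums over subsets mod 2, the chains `psi J` and the numbers `a J P`. -/

open Finset

namespace Pool.Agent.MP_4f4d9f_gt

namespace CoreAux

section Zeta

variable {V M : Type} [DecidableEq V] [AddCommGroup M] [Module (ZMod 2) M]

lemma two (x : M) : x + x = 0 := by
  have h : (1 + 1 : ZMod 2) = 0 := rfl
  rw [← one_smul (ZMod 2) x, ← add_smul, h, zero_smul]

lemma eq_of_add_eq_zero {x y : M} (h : x + y = 0) : x = y := by
  rw [← add_zero x, ← two y, ← add_assoc, h, zero_add]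

omit [Module (ZMod 2) M] in
lemma sum_powerset_insert' {a : V} {J : Finset V} (ha : a ∉ J) (X : Finset V → M)
    {I : Finset V} (hI : I ∈ J.powerset) :
    ∑ H ∈ (insert a I).powerset, X H =
      ∑ H ∈ I.powerset, X H + ∑ H ∈ I.powerset, X (insert a H) :=
  sum_powerset_insert (fun h => ha (mem_powerset.1 hI h)) X

lemma zeta_zeta (J : Finset V) (X : Finset V → M) :
    ∑ I ∈ J.powerset, ∑ H ∈ I.powerset, X H = X J := by
  induction J using Finset.induction_on generalizing X with
  | empty => simp
  | insert a J ha ih =>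
    rw [sum_powerset_insert ha, ih, sum_congr rfl (fun I hI => sum_powerset_insert' ha X hI),
      sum_add_distrib, ih, ih (fun H => X (insert a H)), ← add_assoc, two, zero_add]

omit [Module (ZMod 2) M] in
lemma sum_powerset_eq (J : Finset V) (X : Finset V → M) :
    ∑ I ∈ J.powerset, X I = X J + ∑ I ∈ J.ssubsets, X I :=
  (add_sum_erase _ _ (mem_powerset_self J)).symm

lemma sum_ss_zeta (J : Finset V) (X : Finset V → M) :
    ∑ I ∈ J.ssubsets, ∑ H ∈ I.powerset, X H = ∑ H ∈ J.ssubsets, X H := by
  have h := zeta_zeta J X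
  rw [sum_powerset_eq J (fun I => ∑ H ∈ I.powerset, X H), sum_powerset_eq J X, add_assoc] at h
  exact (eq_of_add_eq_zero (add_eq_left.1 h)).symm

lemma sum_ss_ss (J : Finset V) (X : Finset V → M) :
    ∑ I ∈ J.ssubsets, ∑ H ∈ I.ssubsets, X H = 0 := by
  have h := sum_ss_zeta J X
  simp only [sum_powerset_eq, sum_add_distrib] at h
  exact add_eq_left.1 h

lemma zeta_pair (U : Finset V) (f : Finset V → ZMod 2) (X : Finset V → M) :
    ∑ I ∈ U.powerset, (∑ J ∈ I.powerset, f J) • ∑ S ∈ I.powerset, X S =
      ∑ J ∈ U.powerset, f J • ∑ S ∈ J.powerset, X (U \ S) := by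
  induction U using Finset.induction_on generalizing f X with
  | empty => simp
  | insert a U ha ih =>
    have h1 : ∀ J ∈ U.powerset, ∑ S ∈ J.powerset, X (insert a U \ S) =
        ∑ S ∈ J.powerset, X (insert a (U \ S)) := fun J hJ =>
      sum_congr rfl fun S hS => by
        rw [insert_sdiff_of_notMem _ fun h => ha (mem_powerset.1 hJ (mem_powerset.1 hS h))]
    have h2 : ∀ J ∈ U.powerset, ∑ S ∈ J.powerset, X (insert a U \ insert a S) =
        ∑ S ∈ J.powerset, X (U \ S) := fun J _ =>
      sum_congr rfl fun S _ => by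
        rw [insert_sdiff_insert, sdiff_insert_of_notMem ha]
    rw [sum_powerset_insert ha, sum_powerset_insert ha,
      sum_congr rfl (fun I hI => by
        rw [sum_powerset_insert' ha X hI, sum_powerset_insert' ha f hI] :
        ∀ I ∈ U.powerset, (∑ J ∈ (insert a I).powerset, f J) • ∑ S ∈ (insert a I).powerset, X S =
          (∑ J ∈ I.powerset, f J + ∑ J ∈ I.powerset, f (insert a J)) •
            (∑ S ∈ I.powerset, X S + ∑ S ∈ I.powerset, X (insert a S))),
      sum_congr rfl (fun J hJ => by rw [h1 J hJ] :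
        ∀ J ∈ U.powerset, f J • ∑ S ∈ J.powerset, X (insert a U \ S) =
          f J • ∑ S ∈ J.powerset, X (insert a (U \ S))),
      sum_congr rfl (fun J hJ => by
        rw [sum_powerset_insert' ha (fun S => X (insert a U \ S)) hJ, h1 J hJ, h2 J hJ] :
        ∀ J ∈ U.powerset, f (insert a J) • ∑ S ∈ (insert a J).powerset, X (insert a U \ S) =
          f (insert a J) • (∑ S ∈ J.powerset, X (insert a (U \ S)) + ∑ S ∈ J.powerset, X (U \ S)))]
    simp only [add_smul, smul_add, sum_add_distrib]
    rw [ih f X, ih f (fun S => X (insert a S)), ih (fun J => f (insert a J)) X,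
      ih (fun J => f (insert a J)) (fun S => X (insert a S))]
    rw [add_assoc, ← add_assoc (∑ J ∈ U.powerset, f J • ∑ S ∈ J.powerset, X (U \ S)),
      two, zero_add]
    abel

lemma sum_erase_symm (s : Finset V) (X : V → V → M) (hX : ∀ a b, X a b = X b a) :
    ∑ a ∈ s, ∑ b ∈ s.erase a, X a b = 0 := by
  induction s using Finset.induction_on with
  | empty => simp
  | insert c s hc ih =>
    rw [sum_insert hc, erase_insert hc]
    have : ∀ a ∈ s, ∑ b ∈ (insert c s).erase a, X a b = X c a + ∑ b ∈ s.erase a, X a b := by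
      intro a ha
      rw [erase_insert_of_ne (fun h : c = a => hc (h ▸ ha)),
        sum_insert (fun h => hc (mem_of_mem_erase h)), hX]
    rw [sum_congr rfl this, sum_add_distrib, ih, add_zero, two]

end Zeta

section Psi

variable {V : Type} [DecidableEq V]

lemma sbd_single (A : Finset V) :
    sbd (Finsupp.single A 1) = ∑ v ∈ A, Finsupp.single (A.erase v) (1 : ZMod 2) := by
  simp [sbd]

/-- The cone with apex `v`. -/
noncomputable def cone (v : V) : (Finset V →₀ ZMod 2) →ₗ[ZMod 2] (Finset V →₀ ZMod 2) :=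
  Finsupp.linearCombination (ZMod 2) fun A => if v ∈ A then 0 else Finsupp.single (insert v A) 1

lemma cone_single (v : V) (A : Finset V) :
    cone v (Finsupp.single A 1) = if v ∈ A then 0 else Finsupp.single (insert v A) 1 := by
  simp [cone]

lemma sbd_cone (v : V) (x : Finset V →₀ ZMod 2) : sbd (cone v x) = x + cone v (sbd x) := by
  have : sbd ∘ₗ cone v = LinearMap.id + cone v ∘ₗ sbd := by
    refine Finsupp.lhom_ext' fun A => LinearMap.ext_ring ?_
    simp only [LinearMap.comp_apply, Finsupp.lsingle_apply, LinearMap.add_apply, LinearMap.id_apply,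
      cone_single, sbd_single, map_sum]
    by_cases h : v ∈ A
    · rw [if_pos h, map_zero, ← add_sum_erase _ _ h, if_neg (notMem_erase v A), insert_erase h,
        sum_eq_zero, add_zero, two]
      intro u hu
      rw [if_pos (mem_erase.2 ⟨(ne_of_mem_erase hu).symm, h⟩)]
    · rw [if_neg h, sbd_single, sum_insert h, erase_insert h]
      congr 1
      refine sum_congr rfl fun u hu => ?_
      rw [if_neg (fun h' => h (mem_of_mem_erase h')),
        erase_insert_of_ne (fun h' : v = u => h (h' ▸ hu))]
  exact LinearMap.congr_fun this x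

lemma cone_apply (v : V) (x : Finset V →₀ ZMod 2) (T : Finset V) :
    cone v x T = if v ∈ T then x (T.erase v) else 0 := by
  induction x using Finsupp.induction_linear with
  | zero => simp
  | add x y hx hy => rw [map_add, Finsupp.add_apply, hx, hy]; split_ifs <;> simp
  | single A c =>
    rw [← Finsupp.smul_single_one, map_smul, cone_single]
    simp only [Finsupp.smul_apply, smul_eq_mul]
    by_cases h : v ∈ A
    · have : A ≠ T.erase v := fun h' => notMem_erase v T (h' ▸ h)
      simp [h, this]
    · by_cases hT : v ∈ T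
      · have : insert v A = T ↔ A = T.erase v :=
          ⟨fun h' => by rw [← h', erase_insert h], fun h' => by rw [h', insert_erase hT]⟩
        simp [h, hT, Finsupp.single_apply, this]
      · have : insert v A ≠ T := fun h' => hT (h' ▸ mem_insert_self v A)
        simp [h, hT, this]

/-- The chains `psi J`. -/
noncomputable def psi (J : Finset V) : Finset V →₀ ZMod 2 :=
  if h : J.Nonempty then cone h.choose (∑ I ∈ J.ssubsets.attach, psi I.1)
  else Finsupp.single ∅ 1
termination_by J.card
decreasing_by exact card_lt_card (mem_ssubsets.1 I.2)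

lemma psi_empty : psi (∅ : Finset V) = Finsupp.single ∅ 1 := by
  rw [psi, dif_neg (by simp)]

lemma psi_eq {J : Finset V} (h : J.Nonempty) :
    ∃ v ∈ J, psi J = cone v (∑ I ∈ J.ssubsets, psi I) :=
  ⟨h.choose, h.choose_spec, by rw [psi, dif_pos h, sum_attach J.ssubsets psi]⟩

lemma sbd_psi (J : Finset V) : sbd (psi J) = ∑ I ∈ J.ssubsets, psi I := by
  induction J using Finset.strongInduction with
  | H J ih =>
    rcases J.eq_empty_or_nonempty with rfl | h
    · simp [psi_empty, sbd_single, ssubsets]
    · obtain ⟨v, -, hv⟩ := psi_eq h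
      rw [hv, sbd_cone, map_sum, sum_congr rfl fun I hI => ih I (mem_ssubsets.1 hI), sum_ss_ss,
        map_zero, add_zero]

lemma psi_supp (J T : Finset V) (hT : psi J T ≠ 0) : T ⊆ J := by
  induction J using Finset.strongInduction generalizing T with
  | H J ih =>
    rcases J.eq_empty_or_nonempty with rfl | h
    · rw [psi_empty, Finsupp.single_apply] at hT
      have : ∅ = T := by by_contra h; exact hT (if_neg h)
      rw [← this]
    · obtain ⟨v, hvJ, hv⟩ := psi_eq h
      rw [hv, cone_apply] at hT
      have hvT : v ∈ T := by by_contra h; exact hT (if_neg h)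
      rw [if_pos hvT, Finsupp.finsetSum_apply] at hT
      obtain ⟨I, hI, hI'⟩ := exists_ne_zero_of_sum_ne_zero hT
      rw [← insert_erase hvT]
      exact insert_subset hvJ ((ih I (mem_ssubsets.1 hI) _ hI').trans (mem_ssubsets.1 hI).subset)

lemma psi_self (J : Finset V) : psi J J = 1 := by
  induction J using Finset.strongInduction with
  | H J ih =>
    rcases J.eq_empty_or_nonempty with rfl | h
    · simp [psi_empty]
    · obtain ⟨v, hvJ, hv⟩ := psi_eq h
      rw [hv, cone_apply, if_pos hvJ, Finsupp.finsetSum_apply,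
        sum_eq_single_of_mem (J.erase v) (mem_ssubsets.2 (erase_ssubset hvJ)),
        ih _ (erase_ssubset hvJ)]
      intro I hI hne
      by_contra h0
      have h1 := psi_supp _ _ h0
      have h2 := card_lt_card (mem_ssubsets.1 hI)
      have h3 := card_erase_add_one hvJ
      exact hne (eq_of_subset_of_card_le h1 (by omega)).symm

/-- The extension of a cocycle to all cliques. -/
lemma exists_F (Γ : SimpleGraph V) (p : ℕ) (φ : Finset V → ZMod 2)
    (h0 : ∀ A, A.card ≠ p → φ A = 0)
    (hc : ∀ A : Finset V, Γ.IsClique A → ∑ v ∈ A, φ (A.erase v) = 0) :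
    ∃ F : Finset V → ZMod 2, (∀ J : Finset V, Γ.IsClique J → ∑ I ∈ J.ssubsets, F I = 0) ∧
      ∀ J, J.card ≤ p → F J = φ J := by
  refine ⟨fun J => Finsupp.linearCombination (ZMod 2) φ (psi J), fun J hJ => ?_, fun J hJ => ?_⟩
  · rw [← map_sum, ← sbd_psi, sbd, Finsupp.linearCombination_apply (l := psi J), Finsupp.sum,
      map_sum]
    refine sum_eq_zero fun T hT => ?_
    have := hc T (hJ.subset (coe_subset.2 (psi_supp _ _ (Finsupp.mem_support_iff.1 hT))))
    simp [this]
  · simp only [Finsupp.linearCombination_apply, Finsupp.sum]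
    rw [sum_eq_single J, psi_self, one_smul]
    · intro T hT hne
      have := card_lt_card (ssubset_of_subset_of_ne
        (psi_supp _ _ (Finsupp.mem_support_iff.1 hT)) hne)
      rw [h0 T (by omega), smul_zero]
    · intro h
      rw [Finsupp.notMem_support_iff.1 h, zero_smul]

end Psi

section Acoef

variable {V : Type} [DecidableEq V] [Fintype V] (Γ : SimpleGraph V)

/-- The vertex `v` of `J` has a non-neighbour in `J`. -/
def Bad (J : Finset V) (v : V) : Prop := v ∈ J ∧ ∃ w ∈ J, v ≠ w ∧ ¬ Γ.Adj v w

open Classical in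
/-- The numbers `a J P`. -/
noncomputable def acoef (F : Finset V → ZMod 2) (J : Finset V) (P : Finset V) : ZMod 2 :=
  if h : ∃ v, Bad Γ J v then
    (if h.choose ∈ P then ∑ I ∈ J.ssubsets.attach, acoef F I.1 Pᶜ else 0)
  else F J
termination_by J.card
decreasing_by exact card_lt_card (mem_ssubsets.1 I.2)

variable {Γ}

omit [DecidableEq V] [Fintype V] in
lemma not_bad_iff {J : Finset V} : (¬ ∃ v, Bad Γ J v) ↔ Γ.IsClique J := by
  constructor
  · intro h v hv w hw hne
    by_contra h'
    exact h ⟨v, hv, w, hw, hne, h'⟩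
  · rintro h ⟨v, hv, w, hw, hne, h'⟩
    exact h' (h hv hw hne)

omit [DecidableEq V] [Fintype V] in
lemma Bad.mono {I J : Finset V} (h : I ⊆ J) {v : V} (hv : Bad Γ I v) : Bad Γ J v := by
  obtain ⟨h1, w, h2, h3⟩ := hv
  exact ⟨h h1, w, h h2, h3⟩

lemma acoef_clique (F : Finset V → ZMod 2) {J : Finset V} (hJ : Γ.IsClique J) (P : Finset V) :
    acoef Γ F J P = F J := by
  rw [acoef, dif_neg (not_bad_iff.2 hJ)]

lemma acoef_bad (F : Finset V → ZMod 2) {J : Finset V} (hJ : ¬ Γ.IsClique J) :
    ∃ v, Bad Γ J v ∧ ∀ P, acoef Γ F J P =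
      if v ∈ P then ∑ I ∈ J.ssubsets, acoef Γ F I Pᶜ else 0 := by
  have h : ∃ v, Bad Γ J v := by by_contra h; exact hJ (not_bad_iff.1 h)
  refine ⟨h.choose, h.choose_spec, fun P => ?_⟩
  rw [acoef, dif_pos h, sum_attach J.ssubsets (fun I => acoef Γ F I Pᶜ)]

lemma acoef_congr (F : Finset V → ZMod 2) (J P Q : Finset V)
    (h : ∀ v, Bad Γ J v → (v ∈ P ↔ v ∈ Q)) : acoef Γ F J P = acoef Γ F J Q := by
  induction J using Finset.strongInduction generalizing P Q with
  | H J ih =>
    by_cases hJ : Γ.IsClique J
    · rw [acoef_clique F hJ, acoef_clique F hJ]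
    · obtain ⟨v, hv, hv'⟩ := acoef_bad F hJ
      rw [hv', hv']
      refine if_congr (h v hv) (sum_congr rfl fun I hI => ih I (mem_ssubsets.1 hI) _ _ ?_) rfl
      intro u hu
      rw [mem_compl, mem_compl, h u (hu.mono (mem_ssubsets.1 hI).subset)]

lemma acoef_small (F : Finset V → ZMod 2) (p : ℕ) (hF : ∀ J, J.card < p → F J = 0)
    (J P : Finset V) (h : J.card < p) : acoef Γ F J P = 0 := by
  induction J using Finset.strongInduction generalizing P with
  | H J ih =>
    by_cases hJ : Γ.IsClique J
    · rw [acoef_clique F hJ, hF J h]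
    · obtain ⟨v, -, hv'⟩ := acoef_bad F hJ
      rw [hv', sum_eq_zero, ite_self]
      intro I hI
      exact ih I (mem_ssubsets.1 hI) _ ((card_lt_card (mem_ssubsets.1 hI)).trans h)

lemma acoef_star (F : Finset V → ZMod 2)
    (hF : ∀ J : Finset V, Γ.IsClique J → ∑ I ∈ J.ssubsets, F I = 0) (J P : Finset V) :
    acoef Γ F J P = ∑ I ∈ J.powerset, acoef Γ F I Pᶜ := by
  induction J using Finset.strongInduction generalizing P with
  | H J ih =>
    rw [sum_powerset_eq]
    by_cases hJ : Γ.IsClique J
    · rw [acoef_clique F hJ, acoef_clique F hJ, sum_congr rfl fun I hI =>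
        acoef_clique F (hJ.subset (coe_subset.2 (mem_ssubsets.1 hI).subset)) Pᶜ, hF J hJ, add_zero]
    · obtain ⟨v, -, hv'⟩ := acoef_bad F hJ
      rw [hv', hv' Pᶜ]
      by_cases hv : v ∈ P
      · rw [if_pos hv, if_neg (by simpa using hv), zero_add]
      · rw [if_neg hv, if_pos (mem_compl.2 hv), compl_compl,
          sum_congr rfl fun I hI => ih I (mem_ssubsets.1 hI) P, sum_ss_zeta, two]

end Acoef

end CoreAux

end Pool.Agent.MP_4f4d9f_gt
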