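import Pool.Agent.MP_4f4d9f_gt.Base

open scoped TensorProduct ENNReal

namespace Pool.Agent.MP_4f4d9f_gt

/-- The boundary map of singular chains with coefficients in `R`: the alternating sum of faces. -/
noncomputable def bd (R : Type) [Ring R] (X : Type) [TopologicalSpace X] (k : ℕ) :
    (Sing X (k + 1) →₀ R) →ₗ[R] (Sing X k →₀ R) :=
  ∑ i : Fin (k + 2), (-1 : ℤ) ^ (i : ℕ) • Finsupp.lmapDomain R R (face i)

/-- The map `N ⊗_{ℤG} f` induced by a `G`-equivariant additive map `f`. -/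
noncomputable abbrev Tens.map {G N : Type} [Group G] [Ring N] (ι : G →* N)
    {C D : Type} [AddCommGroup C] [AddCommGroup D]
    {ρ : Representation ℤ G C} {ρ' : Representation ℤ G D}
    (f : C →ₗ[ℤ] D) (hf : ∀ g c, f (ρ g c) = ρ' g (f c)) : Tens ι ρ →ₗ[N] Tens ι ρ' :=
  tensMap ι f hf

/-! ### The group von Neumann algebra and the dimension of its modules -/

/-- The Hilbert space `ℓ²(G)`. -/
abbrev L2 (G : Type) : Type := lp (fun _ : G => ℂ) 2

lemma memℓp_comp {G : Type} (e : G ≃ G) (ξ : L2 G) : Memℓp (fun g => ξ (e g)) 2 := by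
  have h := lp.memℓp ξ
  rw [memℓp_gen_iff (by norm_num)] at h ⊢
  exact (e.summable_iff (f := fun g => ‖ξ g‖ ^ (2 : ℝ≥0∞).toReal)).2 h

/-- The operator `ξ ↦ ξ ∘ e` on `ℓ²(G)` for a permutation `e` of `G`. -/
noncomputable def perm {G : Type} (e : G ≃ G) : L2 G →L[ℂ] L2 G :=
  LinearMap.mkContinuous
    { toFun := fun ξ => ⟨fun g => ξ (e g), memℓp_comp e ξ⟩
      map_add' := fun _ _ => rfl
      map_smul' := fun _ _ => rfl } 1 (fun ξ => by
    rw [one_mul, lp.norm_eq_tsum_rpow (by norm_num), lp.norm_eq_tsum_rpow (by norm_num)]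
    exact (congrArg (· ^ (1 / (2 : ℝ≥0∞).toReal))
      (e.tsum_eq fun g => ‖ξ g‖ ^ (2 : ℝ≥0∞).toReal)).le)

/-- The group von Neumann algebra `N(G)`: the bounded operators on `ℓ²(G)` that commute with all
right translations `ξ ↦ ξ(· g)`. -/
noncomputable def VN (G : Type) [Group G] : Subalgebra ℂ (L2 G →L[ℂ] L2 G) :=
  Subalgebra.centralizer ℂ (Set.range fun g : G => perm (Equiv.mulRight g))

/-- The left regular representation `g ↦ (ξ ↦ ξ(g⁻¹ ·))`, with values in `N(G)`. -/
noncomputable def lam (G : Type) [Group G] : G →* VN G where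
  toFun g := ⟨perm (Equiv.mulLeft g⁻¹), by
    rintro _ ⟨h, rfl⟩
    ext ξ x
    exact congrArg ξ (mul_assoc g⁻¹ x h).symm⟩
  map_one' := by
    ext ξ x
    exact congrArg ξ (by simp)
  map_mul' g h := by
    ext ξ x
    exact congrArg ξ (by simp [mul_assoc])

open Classical in
/-- The trace `⟨a δ₁, δ₁⟩` on `N(G)`. -/
noncomputable def trace {G : Type} [Group G] (a : VN G) : ℂ :=
  a.1 (lp.single 2 1 1) 1

/-- The extended von Neumann dimension of an `N(G)`-module `M`: the supremum of the traces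
`∑ i, tr (A i i)` over idempotent matrices `A` over `N(G)` whose row space `N(G)^r A`
(a finitely generated projective module) embeds in `M`. -/
noncomputable def vnDim (G : Type) [Group G] (M : Type) [AddCommGroup M] [Module (VN G) M] :
    ℝ≥0∞ :=
  ⨆ (r : ℕ) (A : Matrix (Fin r) (Fin r) (VN G)) (_ : A * A = A)
    (f : LinearMap.range A.vecMulLinear →ₗ[VN G] M) (_ : Function.Injective f),
    ENNReal.ofReal (∑ i, trace (A i i)).re

/-! ### `L²`-Betti numbers of a `G`-space -/

section Betti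

variable (G X : Type) [Group G] [TopologicalSpace X] [MulAction G X] [ContinuousConstSMul G X]

/-- The module `N(G) ⊗_{ℤG} C_k(X)`. -/
abbrev L2Chain (k : ℕ) : Type := Tens (lam G) (permRep G (Sing X k))

lemma bd_smul (k : ℕ) (g : G) (c : Sing X (k + 1) →₀ ℤ) :
    bd ℤ X k (permRep G _ g c) = permRep G _ g (bd ℤ X k c) := by
  simp only [bd, LinearMap.sum_apply, LinearMap.smul_apply, map_sum, map_zsmul, permRep,
    MonoidHom.coe_mk, OneHom.coe_mk, Finsupp.lmapDomain_apply, ← Finsupp.mapDomain_comp]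
  rfl

/-- The boundary map `N(G) ⊗ ∂`. -/
noncomputable def l2bd (k : ℕ) : L2Chain G X (k + 1) →ₗ[VN G] L2Chain G X k :=
  Tens.map (lam G) (bd ℤ X k) (bd_smul G X k)

/-- The cycles in degree `k`. -/
noncomputable def l2Cycles : (k : ℕ) → Submodule (VN G) (L2Chain G X k)
  | 0 => ⊤
  | k + 1 => LinearMap.ker (l2bd G X k)

/-- The homology `H_k(N(G) ⊗_{ℤG} C_*(X))`: cycles modulo boundaries. -/
abbrev L2Homology (k : ℕ) : Type :=
  l2Cycles G X k ⧸ (LinearMap.range (l2bd G X k)).comap (l2Cycles G X k).subtype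

/-- The `k`-th `L²`-Betti number of the `G`-space `X`. -/
noncomputable def l2Betti (k : ℕ) : ℝ≥0∞ := vnDim G (L2Homology G X k)

end Betti

end Pool.Agent.MP_4f4d9f_gt
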