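import Mathlib

namespace Pool.Agent.MP_4f4d9f_gt

/-- The group `W` is the graph product of its subgroups `P v` along the graph `Γ`: adjacent
subgroups commute, the subgroups generate `W`, and `W` is universal with these properties. -/
structure IsGraphProd {V W : Type} [Group W] (Γ : SimpleGraph V) (P : V → Subgroup W) : Prop where
  comm : ∀ u v, Γ.Adj u v → ∀ a ∈ P u, ∀ b ∈ P v, a * b = b * a
  gen : ⨆ v, P v = ⊤
  lift : ∀ (T : Type) [Group T] (f : ∀ v, P v →* T),
    (∀ u v, Γ.Adj u v → ∀ a b, f u a * f v b = f v b * f u a) →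
      ∃ F : W →* T, ∀ (v : V) (a : P v), F a = f v a

/-- The Cartesian subgroup, the kernel of the natural map from the graph product to the direct
product of the `P v`: the intersection of the kernels of the retractions of `W` onto `P v` that
kill the other vertex groups. -/
def cart {V W : Type} [Group W] (P : V → Subgroup W) : Subgroup W :=
  ⨅ (v : V) (r : W →* W) (_ : ∀ a ∈ P v, r a = a) (_ : ∀ u, u ≠ v → ∀ a ∈ P u, r a = 1), r.ker

/-- The Følner condition for the action of `G` on `Q`. -/
def Folner (G Q : Type) [Group G] [MulAction G Q] : Prop :=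
  ∀ (S : Finset G) (ε : ℝ), 0 < ε → ∃ F : Finset Q, F.Nonempty ∧
    ∀ s ∈ S, ({q ∈ F | s • q ∉ F} : Set Q).ncard ≤ ε * F.card

end Pool.Agent.MP_4f4d9f_gt
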