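import Pool.Agent.MP_4f4d9f_gt.Main3

namespace Pool.Agent.MP_4f4d9f_gt.GraphProdOld

open Pool.Agent.MP_4f4d9f_gt

/-- The Davis-Okun conjecture for aspherical manifolds whose fundamental group `G` has a
co-amenable subgroup `H` (the action of `G` on `G ⧸ H` satisfies the Følner condition) that embeds
with finite index in the Cartesian subgroup of a graph product of groups of order at least `3`.
`M` is an `n`-manifold (charts in a convex set `C` with nonempty interior: `C = ℝⁿ` or a half
space), `X` its contractible universal cover, `G` the deck group, `E = ℓ²(G)` with basis `b`, and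
`ι` the left regular representation. -/
theorem result {n : ℕ} {C : Set (EuclideanSpace ℝ (Fin n))} (hC : Convex ℝ C)
    (hC' : (interior C).Nonempty)
    {M : Type} [TopologicalSpace M] [T2Space M] [ChartedSpace C M]
    {X : Type} [TopologicalSpace X] [ContractibleSpace X]
    {G : Type} [Group G] [MulAction G X] [ContinuousConstSMul G X]
    {p : X → M} (hp : IsQuotientCoveringMap p G)
    {V W : Type} [Group W] (Γ : SimpleGraph V) (P : V → Subgroup W) (hP : IsGraphProd Γ P)
    (h3 : ∀ v, ∃ a ∈ P v, ∃ b ∈ P v, a ≠ 1 ∧ b ≠ 1 ∧ a ≠ b)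
    (H : Subgroup G) (hH : Folner G (G ⧸ H))
    (j : H →* cart P) (hj : Function.Injective j) [j.range.FiniteIndex]
    {E : Type} [NormedAddCommGroup E] [InnerProductSpace ℂ E]
    (b : HilbertBasis G ℂ E) (ι : G →* vnAlg b) (hι : ∀ g h, (ι g).1 (b h) = b (g * h))
    (k : ℕ) (hk : n < 2 * (k + 1)) : bettiSucc b ι X k = 0 :=
  main_graphProd hC hC' hp Γ P hP h3 H hH j hj b ι hι k hk

end Pool.Agent.MP_4f4d9f_gt.GraphProdOld
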