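import Pool.Agent.MP_4f4d9f_gt.Defs

/-! Shared auxiliary definitions for the parts of the proof. -/

namespace Pool.Agent.MP_4f4d9f_gt

/-! ### Singular chains -/

section Sing

variable (R : Type) [Ring R] {X Y : Type} [TopologicalSpace X] [TopologicalSpace Y]

/-- Push-forward of singular chains. -/
noncomputable def push (f : C(X, Y)) (k : ℕ) : (Sing X k →₀ R) →ₗ[R] (Sing Y k →₀ R) :=
  Finsupp.lmapDomain R R fun σ => f.comp σ

variable (X) in
/-- The augmentation. -/
noncomputable def aug : (Sing X 0 →₀ R) →ₗ[R] R := Finsupp.linearCombination R fun _ => 1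

/-- Chains all of whose simplices lie in `A`. -/
def supp (A : Set X) (k : ℕ) : Submodule R (Sing X k →₀ R) :=
  Finsupp.supported R R {σ | Set.range σ ⊆ A}

variable (X) in
/-- The augmented singular chain complex is exact. -/
structure Acyclic : Prop where
  nonempty : Nonempty X
  zero : ∀ c : Sing X 0 →₀ R, aug R X c = 0 → ∃ b, bd R X 0 b = c
  succ : ∀ (k : ℕ) (c : Sing X (k + 1) →₀ R), bd R X k c = 0 → ∃ b, bd R X (k + 1) b = c

/-- The augmented complex of chains supported in `A` is exact. -/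
structure SAcyc (A : Set X) : Prop where
  nonempty : A.Nonempty
  zero : ∀ c ∈ supp R A 0, aug R X c = 0 → ∃ b ∈ supp R A 1, bd R X 0 b = c
  succ : ∀ k, ∀ c ∈ supp R A (k + 1), bd R X k c = 0 →
    ∃ b ∈ supp R A (k + 2), bd R X (k + 1) b = c

variable (X) in
/-- The involution of chains of `X × X` induced by the swap. -/
noncomputable def swp (k : ℕ) : (Sing (X × X) k →₀ R) →ₗ[R] (Sing (X × X) k →₀ R) :=
  push R ⟨Prod.swap, continuous_swap⟩ k

variable (X) in
/-- The complement of the diagonal. -/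
def offDiag : Set (X × X) := {y | y.1 ≠ y.2}

variable (X) in
/-- Chains `c 0, …, c m` off the diagonal with `∂ c (j+1) = (1 + τ) c j` and `c 0` odd. -/
def HasBU (m : ℕ) : Prop :=
  ∃ c : (j : ℕ) → (Sing (X × X) j →₀ ZMod 2),
    (∀ j ≤ m, c j ∈ supp (ZMod 2) (offDiag X) j) ∧
    (∀ j < m, bd (ZMod 2) (X × X) j (c (j + 1)) = c j + swp (ZMod 2) X j (c j)) ∧
    aug (ZMod 2) (X × X) (c 0) = 1

end Sing

/-! ### The Borel complex of `X × X` with the swap, mod 2 -/

section Borel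

variable {X : Type} [TopologicalSpace X]

variable (X) in
/-- Sequences of chains. In Borel degree `j` the sequence `c` stands for `∑ i ≤ j, e_{j-i} ⊗ c i`. -/
abbrev BSeq : Type := (i : ℕ) → (Sing (X × X) i →₀ ZMod 2)

/-- The Borel differential. -/
noncomputable def BD (c : BSeq X) : BSeq X := fun i =>
  bd (ZMod 2) (X × X) i (c (i + 1)) + c i + swp (ZMod 2) X i (c i)

/-- Relative Borel cycles of degree `j` of the pair `(A, B)`. -/
def RelCyc (A B : Set (X × X)) (j : ℕ) (c : BSeq X) : Prop :=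
  (∀ i ≤ j, c i ∈ supp (ZMod 2) A i) ∧ ∀ i < j, BD c i ∈ supp (ZMod 2) B i

/-- Relative Borel boundaries of degree `j` of the pair `(A, B)`. -/
def RelBd (A B : Set (X × X)) (j : ℕ) (c : BSeq X) : Prop :=
  ∃ b : BSeq X, (∀ i ≤ j + 1, b i ∈ supp (ZMod 2) A i) ∧
    ∀ i ≤ j, c i + BD b i ∈ supp (ZMod 2) B i

/-- The Borel chain `e_j ⊗ Δ a` of a `0`-chain `a` of `X`. -/
noncomputable def theta (a : Sing X 0 →₀ ZMod 2) : BSeq X
  | 0 => push (ZMod 2) ⟨fun x => (x, x), continuous_id.prodMk continuous_id⟩ 0 a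
  | _ + 1 => 0

/-- The property that is bootstrapped over the open sets `U`. -/
structure PropP (n : ℕ) (A B : Set (X × X)) (U : Set X) : Prop where
  low : ∀ j < n, ∀ c, RelCyc A B j c → RelBd A B j c
  top : ∀ c, RelCyc A B n c → ∃ a ∈ supp (ZMod 2) U 0, RelBd A B n (c + theta a)
  odd : ∀ a ∈ supp (ZMod 2) U 0, RelBd A B n (theta a) → aug (ZMod 2) X a = 0

end Borel

/-! ### Clique complexes mod 2 and the deleted join of the octahedralisation -/

section Comb

variable {V : Type} [DecidableEq V]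

/-- The simplicial boundary mod 2 on all finite sets of vertices (augmented). -/
noncomputable def sbd : (Finset V →₀ ZMod 2) →ₗ[ZMod 2] (Finset V →₀ ZMod 2) :=
  Finsupp.linearCombination (ZMod 2) fun A => ∑ v ∈ A, Finsupp.single (A.erase v) 1

/-- The augmented mod 2 chain complex of the clique complex is exact at the `p`-cliques. -/
def ExactTwo (Γ : SimpleGraph V) (p : ℕ) : Prop :=
  ∀ z : Finset V →₀ ZMod 2, (∀ A ∈ z.support, Γ.IsNClique p A) → sbd z = 0 →
    ∃ w : Finset V →₀ ZMod 2, (∀ A ∈ w.support, Γ.IsNClique (p + 1) A) ∧ sbd w = z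

/-- A pair of sets of signed vertices. -/
abbrev DCell (V : Type) : Type := Finset (V × Bool) × Finset (V × Bool)

/-- A simplex of the octahedralisation: distinct signed vertices lie over adjacent vertices. -/
def OSimp (Γ : SimpleGraph V) (σ : Finset (V × Bool)) : Prop :=
  ∀ a ∈ σ, ∀ b ∈ σ, a ≠ b → Γ.Adj a.1 b.1

/-- A cell of degree `i` of the deleted join of the octahedralisation. -/
def GoodCell (Γ : SimpleGraph V) (i : ℕ) (c : DCell V) : Prop :=
  OSimp Γ c.1 ∧ OSimp Γ c.2 ∧ Disjoint c.1 c.2 ∧ c.1.card + c.2.card = i + 1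

/-- The boundary in the deleted join. -/
noncomputable def dbd : (DCell V →₀ ZMod 2) →ₗ[ZMod 2] (DCell V →₀ ZMod 2) :=
  Finsupp.linearCombination (ZMod 2) fun c =>
    ∑ a ∈ c.1, Finsupp.single (c.1.erase a, c.2) 1 + ∑ a ∈ c.2, Finsupp.single (c.1, c.2.erase a) 1

/-- The swap on the deleted join. -/
noncomputable def dswp : (DCell V →₀ ZMod 2) →ₗ[ZMod 2] (DCell V →₀ ZMod 2) :=
  Finsupp.lmapDomain _ _ Prod.swap

/-- Chains `d 0, …, d m` in the deleted join with `∂ d (i+1) = (1 + τ) d i` and `d 0` odd. -/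
def HasDChain (Γ : SimpleGraph V) (m : ℕ) : Prop :=
  ∃ d : ℕ → (DCell V →₀ ZMod 2),
    (∀ i ≤ m, ∀ c ∈ (d i).support, GoodCell Γ i c) ∧
    (∀ i < m, dbd (d (i + 1)) = d i + dswp (d i)) ∧
    (d 0).sum (fun _ a => a) = 1

end Comb

/-! ### Projective resolutions over the group ring -/

section Res

/-- An additive map is equivariant. -/
def Eqv {H C D : Type} [Group H] [AddCommGroup C] [AddCommGroup D]
    (ρ : Representation ℤ H C) (ρ' : Representation ℤ H D) (f : C →ₗ[ℤ] D) : Prop :=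
  ∀ g c, f (ρ g c) = ρ' g (f c)

/-- The lifting property of a `ℤH`-module. -/
def Proj {H C : Type} [Group H] [AddCommGroup C] (ρ : Representation ℤ H C) : Prop :=
  ∀ (D E : Type) [AddCommGroup D] [AddCommGroup E] (ρD : Representation ℤ H D)
    (ρE : Representation ℤ H E) (π : D →ₗ[ℤ] E) (φ : C →ₗ[ℤ] E),
    Eqv ρD ρE π → Eqv ρ ρE φ → (∀ c, ∃ x, π x = φ c) →
    ∃ ψ : C →ₗ[ℤ] D, Eqv ρ ρD ψ ∧ ∀ c, π (ψ c) = φ c

/-- A projective resolution of the trivial module `ℤ` over `ℤH`. -/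
structure IsRes {H : Type} [Group H] {C : ℕ → Type} [∀ k, AddCommGroup (C k)]
    (ρ : ∀ k, Representation ℤ H (C k)) (d : ∀ k, C (k + 1) →ₗ[ℤ] C k) (ε : C 0 →ₗ[ℤ] ℤ) :
    Prop where
  eqv_d : ∀ k, Eqv (ρ (k + 1)) (ρ k) (d k)
  eqv_ε : ∀ g c, ε (ρ 0 g c) = ε c
  ε_d : ∀ c, ε (d 0 c) = 0
  d_d : ∀ k c, d k (d (k + 1) c) = 0
  surj : ∃ c, ε c = 1
  exact_zero : ∀ c, ε c = 0 → ∃ b, d 0 b = c
  exact_succ : ∀ k c, d k c = 0 → ∃ b, d (k + 1) b = c
  proj : ∀ k, Proj (ρ k)

end Res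

/-! ### The Salvetti complex -/

section Salvetti

variable {V : Type} [LinearOrder V] (Γ : SimpleGraph V)

/-- The `p`-cliques. -/
abbrev Cl (p : ℕ) : Type := {A : Finset V // Γ.IsNClique p A}

/-- The sign of the face of `A` opposite to `v`. -/
def sgn (A : Finset V) (v : V) : ℤ := (-1) ^ (A.filter (· < v)).card

/-- The face of a clique opposite to one of its vertices. -/
def Cl.erase {p : ℕ} (A : Cl Γ (p + 1)) (v : A.1) : Cl Γ p :=
  ⟨A.1.erase v.1, ⟨A.2.1.subset (by simp), by rw [Finset.card_erase_of_mem v.2, A.2.2]; rfl⟩⟩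

/-- The cells `g e_A` of the universal cover of the Salvetti complex. -/
structure SCell (p : ℕ) : Type where
  /-- the group element -/
  g : RAAG Γ
  /-- the clique -/
  A : Cl Γ p

instance (p : ℕ) : MulAction (RAAG Γ) (SCell Γ p) where
  smul h c := ⟨h * c.g, c.A⟩
  one_smul c := congrArg (fun g => SCell.mk g c.A) (one_mul c.g)
  mul_smul h h' c := congrArg (fun g => SCell.mk g c.A) (mul_assoc h h' c.g)

/-- The boundary `d (g e_A) = ∑ v ∈ A, ± (g v - g) e_{A - v}`. -/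
noncomputable def salD (p : ℕ) : (SCell Γ (p + 1) →₀ ℤ) →ₗ[ℤ] (SCell Γ p →₀ ℤ) :=
  Finsupp.linearCombination ℤ fun c => ∑ v : c.A.1, sgn c.A.1 v.1 •
    (Finsupp.single ⟨c.g * PresentedGroup.of v.1, c.A.erase Γ v⟩ 1 -
      Finsupp.single ⟨c.g, c.A.erase Γ v⟩ 1)

/-- The augmentation of the Salvetti complex. -/
noncomputable def salε : (SCell Γ 0 →₀ ℤ) →ₗ[ℤ] ℤ := Finsupp.linearCombination ℤ fun _ => 1

end Salvetti

end Pool.Agent.MP_4f4d9f_gt
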