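import Pool.Agent.MP_4f4d9f_gt.Iface

/-! Functoriality of `N ⊗_{ℤG} -` and comparison of projective resolutions. -/

open scoped TensorProduct

namespace Pool.Agent.MP_4f4d9f_gt

section Tens

variable {G N : Type} [Group G] [Ring N] (ι : G →* N)
  {C D E : Type} [AddCommGroup C] [AddCommGroup D] [AddCommGroup E]

/-- The class of `1 ⊗ c`. -/
noncomputable def Tens.of (ρ : Representation ℤ G C) : C →ₗ[ℤ] Tens ι ρ :=
  ((tensRel ι ρ).mkQ.restrictScalars ℤ).comp (TensorProduct.mk ℤ N C 1)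

lemma Tens.of_apply (ρ : Representation ℤ G C) (c : C) :
    Tens.of ι ρ c = Submodule.Quotient.mk ((1 : N) ⊗ₜ c) := rfl

lemma Tens.smul_of (ρ : Representation ℤ G C) (a : N) (c : C) :
    a • Tens.of ι ρ c = Submodule.Quotient.mk (a ⊗ₜ c) := by
  rw [Tens.of_apply, ← Submodule.Quotient.mk_smul, TensorProduct.smul_tmul', smul_eq_mul, mul_one]

lemma Tens.of_rep (ρ : Representation ℤ G C) (g : G) (c : C) :
    Tens.of ι ρ (ρ g c) = ι g • Tens.of ι ρ c := by
  rw [Tens.smul_of, Tens.of_apply, eq_comm, Submodule.Quotient.eq]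
  exact Submodule.subset_span ⟨1, g, c, by rw [one_mul]⟩

lemma Tens.induction {ρ : Representation ℤ G C} {P : Tens ι ρ → Prop} (h0 : P 0)
    (hadd : ∀ x y, P x → P y → P (x + y)) (h1 : ∀ (a : N) (c : C), P (a • Tens.of ι ρ c))
    (x : Tens ι ρ) : P x := by
  obtain ⟨x, rfl⟩ := Submodule.Quotient.mk_surjective _ x
  induction x using TensorProduct.induction_on with
  | zero => exact h0
  | tmul a c => rw [← Tens.smul_of]; exact h1 a c
  | add x y hx hy => exact hadd _ _ hx hy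

lemma Tens.hom_ext {ρ : Representation ℤ G C} {Q : Type} [AddCommGroup Q] [Module N Q]
    {f f' : Tens ι ρ →ₗ[N] Q} (h : ∀ c, f (Tens.of ι ρ c) = f' (Tens.of ι ρ c)) : f = f' := by
  refine LinearMap.ext fun x => ?_
  induction x using Tens.induction with
  | h0 => simp
  | hadd x y hx hy => simp [hx, hy]
  | h1 a c => simp [h]

lemma Tens.map_of {ρ : Representation ℤ G C} {ρ' : Representation ℤ G D}
    (f : C →ₗ[ℤ] D) (hf : ∀ g c, f (ρ g c) = ρ' g (f c)) (c : C) :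
    Tens.map ι f hf (Tens.of ι ρ c) = Tens.of ι ρ' (f c) := rfl

/-- The universal property. -/
noncomputable def Tens.lift {ρ : Representation ℤ G C} {Q : Type} [AddCommGroup Q] [Module N Q]
    (φ : C →ₗ[ℤ] Q) (hφ : ∀ g c, φ (ρ g c) = ι g • φ c) : Tens ι ρ →ₗ[N] Q :=
  Submodule.liftQ _ (TensorProduct.AlgebraTensorModule.lift
    { toFun := fun a => a • φ
      map_add' := fun a b => add_smul a b φ
      map_smul' := fun a b => mul_smul a b φ }) (by
    refine Submodule.span_le.2 ?_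
    rintro _ ⟨a, g, c, rfl⟩
    simp [hφ, mul_smul])

lemma Tens.lift_of {ρ : Representation ℤ G C} {Q : Type} [AddCommGroup Q] [Module N Q]
    (φ : C →ₗ[ℤ] Q) (hφ : ∀ g c, φ (ρ g c) = ι g • φ c) (c : C) :
    Tens.lift ι φ hφ (Tens.of ι ρ c) = φ c := by
  simp [Tens.lift, Tens.of_apply]

end Tens

section Compare

variable {H : Type} [Group H] {C D : ℕ → Type} [∀ k, AddCommGroup (C k)] [∀ k, AddCommGroup (D k)]
  {ρ : ∀ k, Representation ℤ H (C k)} {d : ∀ k, C (k + 1) →ₗ[ℤ] C k} {ε : C 0 →ₗ[ℤ] ℤ}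
  {ρ' : ∀ k, Representation ℤ H (D k)} {d' : ∀ k, D (k + 1) →ₗ[ℤ] D k} {ε' : D 0 →ₗ[ℤ] ℤ}

lemma Eqv.comp {A B E : Type} [AddCommGroup A] [AddCommGroup B] [AddCommGroup E]
    {ρA : Representation ℤ H A} {ρB : Representation ℤ H B} {ρE : Representation ℤ H E}
    {g : B →ₗ[ℤ] E} {f : A →ₗ[ℤ] B} (hg : Eqv ρB ρE g) (hf : Eqv ρA ρB f) :
    Eqv ρA ρE (g ∘ₗ f) := fun h c => by
  rw [LinearMap.comp_apply, hf, hg, LinearMap.comp_apply]

lemma Eqv.sub {A B : Type} [AddCommGroup A] [AddCommGroup B]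
    {ρA : Representation ℤ H A} {ρB : Representation ℤ H B}
    {g f : A →ₗ[ℤ] B} (hg : Eqv ρA ρB g) (hf : Eqv ρA ρB f) :
    Eqv ρA ρB (g - f) := fun h c => by
  rw [LinearMap.sub_apply, hf, hg, LinearMap.sub_apply, map_sub]

lemma Eqv.id {A : Type} [AddCommGroup A] {ρA : Representation ℤ H A} :
    Eqv ρA ρA LinearMap.id := fun _ _ => rfl

/-- Existence of a chain map between resolutions. -/
theorem IsRes.exists_map (R : IsRes ρ d ε) (R' : IsRes ρ' d' ε') :
    ∃ f : ∀ k, C k →ₗ[ℤ] D k, (∀ k, Eqv (ρ k) (ρ' k) (f k)) ∧ (∀ c, ε' (f 0 c) = ε c) ∧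
      ∀ k c, d' k (f (k + 1) c) = f k (d k c) := by
  obtain ⟨f0, hf0, hf0'⟩ := R.proj 0 (D 0) ℤ (ρ' 0) 1 ε' ε R'.eqv_ε R.eqv_ε fun c => by
    obtain ⟨x, hx⟩ := R'.surj
    exact ⟨ε c • x, by simp [hx]⟩
  let T (k : ℕ) : Type := {f : C k →ₗ[ℤ] D k // Eqv (ρ k) (ρ' k) f ∧
    ∀ c, ∃ x, d' k x = f (d k c)}
  have step : ∀ k (f : T k), ∃ f' : T (k + 1), ∀ c, d' k (f'.1 c) = f.1 (d k c) := by
    intro k f
    obtain ⟨ψ, h1, h2⟩ := R.proj (k + 1) (D (k + 1)) (D k) (ρ' (k + 1)) (ρ' k) (d' k)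
      (f.1 ∘ₗ d k) (R'.eqv_d k) (f.2.1.comp (R.eqv_d k)) f.2.2
    refine ⟨⟨ψ, h1, fun c => R'.exact_succ k _ ?_⟩, h2⟩
    rw [h2, LinearMap.comp_apply, R.d_d, map_zero]
  choose next hnext using step
  let t0 : T 0 := ⟨f0, hf0, fun c => R'.exact_zero _ (by rw [hf0', R.ε_d])⟩
  let t : ∀ k, T k := fun k => Nat.rec t0 next k
  exact ⟨fun k => (t k).1, fun k => (t k).2.1, hf0', fun k => hnext k (t k)⟩

/-- A chain map that induces zero on the augmentation is null-homotopic. -/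
theorem IsRes.exists_homotopy (R : IsRes ρ d ε) (u : ∀ k, C k →ₗ[ℤ] C k)
    (hu : ∀ k, Eqv (ρ k) (ρ k) (u k)) (hu0 : ∀ c, ε (u 0 c) = 0)
    (hud : ∀ k c, d k (u (k + 1) c) = u k (d k c)) :
    ∃ h : ∀ k, C k →ₗ[ℤ] C (k + 1), (∀ k, Eqv (ρ k) (ρ (k + 1)) (h k)) ∧
      ∀ k c, d (k + 1) (h (k + 1) c) + h k (d k c) = u (k + 1) c := by
  obtain ⟨h0, hh0, hh0'⟩ := R.proj 0 (C 1) (C 0) (ρ 1) (ρ 0) (d 0) (u 0) (R.eqv_d 0) (hu 0)
    fun c => R.exact_zero _ (hu0 c)
  let T (k : ℕ) : Type := {h : C k →ₗ[ℤ] C (k + 1) // Eqv (ρ k) (ρ (k + 1)) h ∧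
    ∀ c, d k (h (d k c)) = u k (d k c)}
  have step : ∀ k (h : T k), ∃ h' : T (k + 1),
      ∀ c, d (k + 1) (h'.1 c) + h.1 (d k c) = u (k + 1) c := by
    intro k h
    obtain ⟨ψ, h1, h2⟩ := R.proj (k + 1) (C (k + 2)) (C (k + 1)) (ρ (k + 2)) (ρ (k + 1))
      (d (k + 1)) (u (k + 1) - h.1 ∘ₗ d k) (R.eqv_d _) ((hu _).sub (h.2.1.comp (R.eqv_d k)))
      fun c => R.exact_succ k _ (by simp [hud, h.2.2])
    refine ⟨⟨ψ, h1, fun c => ?_⟩, fun c => ?_⟩
    · simp [h2, R.d_d]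
    · simp [h2]
  choose next hnext using step
  let t0 : T 0 := ⟨h0, hh0, fun c => hh0' _⟩
  let t : ∀ k, T k := fun k => Nat.rec t0 next k
  exact ⟨fun k => (t k).1, fun k => (t k).2.1, fun k => hnext k (t k)⟩

variable {N : Type} [Ring N] (ι : H →* N)

/-- Every homology class in degree `k + 1` of `N ⊗ C` is killed by a left regular element. -/
def TorsAt (ρ : ∀ k, Representation ℤ H (C k)) (d : ∀ k, C (k + 1) →ₗ[ℤ] C k)
    (hd : ∀ k, Eqv (ρ (k + 1)) (ρ k) (d k)) (k : ℕ) : Prop :=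
  ∀ z : Tens ι (ρ (k + 1)), Tens.map ι (d k) (hd k) z = 0 →
    ∃ s : N, IsLeftRegular s ∧ ∃ w, Tens.map ι (d (k + 1)) (hd (k + 1)) w = s • z

theorem IsRes.torsAt (R : IsRes ρ d ε) (R' : IsRes ρ' d' ε') {k : ℕ}
    (h : TorsAt ι ρ' d' R'.eqv_d k) : TorsAt ι ρ d R.eqv_d k := by
  obtain ⟨f, hf, hf0, hfd⟩ := R.exists_map R'
  obtain ⟨g, hg, hg0, hgd⟩ := R'.exists_map R
  obtain ⟨t, ht, htd⟩ := R.exists_homotopy (fun k => LinearMap.id - g k ∘ₗ f k)
    (fun k => Eqv.id.sub ((hg k).comp (hf k))) (fun c => by simp [hg0, hf0])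
    (fun k c => by simp [hgd, hfd])
  intro z hz
  have e1 : Tens.map ι (d' k) (R'.eqv_d k) ∘ₗ Tens.map ι (f (k + 1)) (hf _) =
      Tens.map ι (f k) (hf k) ∘ₗ Tens.map ι (d k) (R.eqv_d k) :=
    Tens.hom_ext ι fun c => by simp only [LinearMap.comp_apply, Tens.map_of, hfd]
  have e2 : Tens.map ι (d (k + 1)) (R.eqv_d _) ∘ₗ Tens.map ι (g (k + 2)) (hg _) =
      Tens.map ι (g (k + 1)) (hg _) ∘ₗ Tens.map ι (d' (k + 1)) (R'.eqv_d _) :=
    Tens.hom_ext ι fun c => by simp only [LinearMap.comp_apply, Tens.map_of, hgd]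
  have e3 : Tens.map ι (d (k + 1)) (R.eqv_d _) ∘ₗ Tens.map ι (t (k + 1)) (ht _) +
      Tens.map ι (t k) (ht _) ∘ₗ Tens.map ι (d k) (R.eqv_d _) +
      Tens.map ι (g (k + 1)) (hg _) ∘ₗ Tens.map ι (f (k + 1)) (hf _) = LinearMap.id :=
    Tens.hom_ext ι fun c => by
      simp only [LinearMap.comp_apply, LinearMap.add_apply, Tens.map_of, ← map_add, htd,
        LinearMap.id_apply]
      simp
  obtain ⟨s, hs, w, hw⟩ := h (Tens.map ι (f (k + 1)) (hf _) z) (by
    rw [← LinearMap.comp_apply, e1, LinearMap.comp_apply, hz, map_zero])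
  refine ⟨s, hs, Tens.map ι (g (k + 2)) (hg _) w + s • Tens.map ι (t (k + 1)) (ht _) z, ?_⟩
  have e4 := LinearMap.congr_fun e3 z
  simp only [LinearMap.comp_apply, LinearMap.add_apply, hz, map_zero, add_zero,
    LinearMap.id_apply] at e4
  rw [map_add, ← LinearMap.comp_apply, e2, LinearMap.comp_apply, hw, map_smul, map_smul,
    ← smul_add]
  exact congrArg (s • ·) ((add_comm _ _).trans e4)

end Compare

section Free

variable {H G B : Type} [Group H] [Group G] [MulAction G B]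

lemma permRep_single (g : G) (b : B) (a : ℤ) :
    permRep G B g (Finsupp.single b a) = Finsupp.single (g • b) a := by
  simp [permRep]

/-- The free abelian group on a free `G`-set is projective over every subgroup. -/
theorem proj_free (j : H →* G) (hj : Function.Injective j)
    (hfree : ∀ (g : G) (b : B), g • b = b → g = 1) :
    Proj (H := H) ((permRep G B).comp j) := by
  intro D E _ _ ρD ρE π φ hπ hφ hsurj
  let r : Setoid B :=
    { r := fun a b => ∃ h : H, j h • b = a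
      iseqv :=
        { refl := fun a => ⟨1, by simp⟩
          symm := by
            rintro _ b ⟨h, rfl⟩
            exact ⟨h⁻¹, by simp⟩
          trans := by
            rintro _ _ c ⟨h, rfl⟩ ⟨h', rfl⟩
            exact ⟨h * h', by simp [mul_smul]⟩ } }
  have hrep : ∀ b : B, ∃ h : H, j h • (Quotient.mk r b).out = b := fun b =>
    r.symm (Quotient.mk_out (s := r) b)
  choose η hη using hrep
  choose x hx using hsurj
  have hmk : ∀ (h : H) (b : B), Quotient.mk r (j h • b) = Quotient.mk r b := fun h b =>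
    Quotient.sound ⟨h, rfl⟩
  have hη' : ∀ (h : H) (b : B), η (j h • b) = h * η b := by
    intro h b
    have e := hη (j h • b)
    rw [hmk] at e
    have e2 : j ((h * η b)⁻¹ * η (j h • b)) • (Quotient.mk r b).out = (Quotient.mk r b).out := by
      rw [map_mul, mul_smul, e, map_inv, inv_smul_eq_iff, map_mul, mul_smul, hη]
    have e3 := hfree _ _ e2
    rw [map_eq_one_iff j hj, inv_mul_eq_one] at e3
    exact e3.symm
  refine ⟨Finsupp.linearCombination ℤ fun b =>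
    ρD (η b) (x (Finsupp.single (Quotient.mk r b).out 1)), fun h c => ?_, fun c => ?_⟩
  · induction c using Finsupp.induction_linear with
    | zero => simp
    | add a b ha hb => simp only [map_add, ha, hb]
    | single b a =>
      simp only [MonoidHom.comp_apply, permRep_single, Finsupp.linearCombination_single, hη', hmk,
        map_mul, Module.End.mul_apply, map_zsmul]
  · induction c using Finsupp.induction_linear with
    | zero => simp
    | add a b ha hb => simp only [map_add, ha, hb]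
    | single b a =>
      rw [Finsupp.linearCombination_single, map_zsmul, hπ, hx, ← hφ, MonoidHom.comp_apply,
        permRep_single, hη, ← map_zsmul]
      simp

end Free

end Pool.Agent.MP_4f4d9f_gt
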