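import Pool.Agent.MP_4f4d9f_gt.Salv
import Pool.Agent.MP_4f4d9f_gt.Phi
import Pool.Agent.MP_4f4d9f_gt.TensLem

/-! The Salvetti complex over a subgroup of finite index, tensored with `N`. -/

namespace Pool.Agent.MP_4f4d9f_gt

open Finsupp

section Biset

variable {H A N : Type} [Group H] [Group A] [Ring N] (j : H →* A) (ι : H →* N)

/-- The module `N ⊗_H ℤ[A]`. -/
abbrev PM : Type := Tens ι ((permRep A A).comp j)

/-- The class of `1 ⊗ [a]`. -/
noncomputable def pt (a : A) : PM j ι := Tens.of ι _ (single a 1)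

lemma pt_mul (h : H) (a : A) : pt j ι (j h * a) = ι h • pt j ι a := by
  rw [pt, pt, ← Tens.of_rep, MonoidHom.comp_apply, permRep_single, smul_eq_mul]

lemma PM.induction {Pr : PM j ι → Prop} (h0 : Pr 0) (hadd : ∀ x y, Pr x → Pr y → Pr (x + y))
    (h1 : ∀ (n : N) (a : A), Pr (n • pt j ι a)) (x : PM j ι) : Pr x := by
  refine Tens.induction ι h0 hadd (fun n c => ?_) x
  induction c using Finsupp.induction_linear with
  | zero => simpa using h0
  | add a b ha hb => simpa only [map_add, smul_add] using hadd _ _ ha hb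
  | single a m =>
    have := h1 (n * m) a
    rwa [mul_smul, Int.cast_smul_eq_zsmul, pt, ← map_zsmul, smul_single, smul_eq_mul,
      mul_one] at this

lemma PM.hom_ext {Q : Type} [AddCommGroup Q] [Module N Q] {f g : PM j ι →ₗ[N] Q}
    (h : ∀ a, f (pt j ι a) = g (pt j ι a)) : f = g := by
  refine LinearMap.ext fun x => ?_
  induction x using PM.induction with
  | h0 => simp
  | hadd x y hx hy => simp only [map_add, hx, hy]
  | h1 n a => simp only [map_smul, h]

/-- Right multiplication. -/
noncomputable def rmul (a : A) : Module.End N (PM j ι) :=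
  Tens.map ι (lmapDomain ℤ ℤ (· * a)) fun h c => by
    simp only [MonoidHom.comp_apply, permRep, MonoidHom.coe_mk, OneHom.coe_mk, lmapDomain_apply,
      ← mapDomain_comp]
    congr 1
    funext x
    exact mul_assoc _ _ _

lemma rmul_pt (a b : A) : rmul j ι a (pt j ι b) = pt j ι (b * a) := by
  rw [rmul, pt, Tens.map_of, lmapDomain_apply, mapDomain_single, pt]

lemma rmul_mul (a b : A) : rmul j ι (a * b) = rmul j ι b * rmul j ι a :=
  PM.hom_ext j ι fun x => by simp only [Module.End.mul_apply, rmul_pt, mul_assoc]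

lemma rmul_one : rmul j ι 1 = 1 :=
  PM.hom_ext j ι fun x => by simp only [rmul_pt, mul_one, Module.End.one_apply]

lemma rmul_pow (a : A) (m : ℕ) : rmul j ι (a ^ m) = rmul j ι a ^ m := by
  induction m with
  | zero => simp [rmul_one]
  | succ m ih => rw [pow_succ', rmul_mul, ih, pow_succ]

variable {j}

lemma exists_pow_conj [j.range.FiniteIndex] :
    ∃ m : ℕ, 0 < m ∧ ∀ a t : A, ∃ h : H, j h = t * a ^ m * t⁻¹ := by
  refine ⟨j.range.normalCore.index, Nat.pos_of_ne_zero Subgroup.FiniteIndex.index_ne_zero,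
    fun a t => ?_⟩
  exact (j.range.normalCore.pow_index_mem a) t

lemma not_isOfFinOrder_of_conj {a t : A} {m : ℕ} (hm : 0 < m) {h : H}
    (e : j h = t * a ^ m * t⁻¹) (ha : ¬ IsOfFinOrder a) : ¬ IsOfFinOrder h := fun hh => by
  have h1 : IsOfFinOrder (t * a ^ m * t⁻¹) := e ▸ j.isOfFinOrder hh
  have h2 : IsOfFinOrder (a ^ m) := by
    have := ((MulAut.conj t⁻¹ : A ≃* A) : A →* A).isOfFinOrder h1
    rwa [show ((MulAut.conj t⁻¹ : A ≃* A) : A →* A) (t * a ^ m * t⁻¹) = a ^ m by
      simp [mul_assoc]] at this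
  exact ha (h2.of_pow hm.ne')

theorem rmul_ore [j.range.FiniteIndex]
    (hore : ∀ h : H, ¬ IsOfFinOrder h → ∀ y : N, ∃ s b : N, IsLeftRegular s ∧
      s * y = b * (ι h - 1)) {a : A} (ha : ¬ IsOfFinOrder a) (y : PM j ι) :
    ∃ s : N, IsLeftRegular s ∧ s • y ∈ LinearMap.range (rmul j ι a - 1) := by
  refine Sat.out ?_
  refine PM.induction j ι (Sat.zero _) (fun x y => Sat.add) (fun n t n' => ?_) y
  obtain ⟨m, hm, hc⟩ := exists_pow_conj (j := j)
  obtain ⟨h, e⟩ := hc a t
  obtain ⟨s, b, hs, hb⟩ := hore h (not_isOfFinOrder_of_conj hm e ha) (n' * n)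
  refine ⟨s, hs, (∑ i ∈ Finset.range m, rmul j ι a ^ i) (b • pt j ι t), ?_⟩
  rw [← Module.End.mul_apply, mul_geom_sum, ← rmul_pow, smul_smul, smul_smul, mul_assoc, hb,
    mul_smul, map_smul, LinearMap.sub_apply, rmul_pt, sub_smul, ← pt_mul, e]
  simp

theorem rmul_injective [j.range.FiniteIndex] (hj : Function.Injective j)
    (hreg : ∀ h : H, ¬ IsOfFinOrder h → IsRightRegular (ι h - 1)) {a : A}
    (ha : ¬ IsOfFinOrder a) : Function.Injective (rmul j ι a - 1 : Module.End N (PM j ι)) := by
  classical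
  have := Subgroup.fintypeQuotientOfFiniteIndex (H := j.range)
  let cl : A → A ⧸ j.range := fun x => QuotientGroup.mk x⁻¹
  let rep : A ⧸ j.range → A := fun q => q.out⁻¹
  have hcl : ∀ h x, cl (j h * x) = cl x := fun h x => by
    simp only [cl, mul_inv_rev, QuotientGroup.eq]
    exact ⟨h, by simp⟩
  have hrep : ∀ q, cl (rep q) = q := fun q => by simp [cl, rep]
  have hη : ∀ x, ∃ h : H, j h * rep (cl x) = x := fun x => by
    obtain ⟨⟨_, h, rfl⟩, e⟩ := QuotientGroup.mk_out_eq_mul j.range x⁻¹
    exact ⟨h, by simp only [rep, cl, e]; simp⟩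
  choose η hη using hη
  have hη' : ∀ h x, η (j h * x) = h * η x := fun h x => by
    apply hj
    apply mul_right_cancel (b := rep (cl x))
    rw [map_mul, mul_assoc, hη, ← hcl h x, hη]
  let co (q : A ⧸ j.range) : PM j ι →ₗ[N] N :=
    Tens.lift ι (linearCombination ℤ fun x => if cl x = q then ι (η x) else 0) fun h c => by
      induction c using Finsupp.induction_linear with
      | zero => simp
      | add a b ha hb => simp only [map_add, ha, hb, smul_add]
      | single x m =>
        rw [MonoidHom.comp_apply, permRep_single, linearCombination_single,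
          linearCombination_single, smul_eq_mul, hcl, hη', smul_comm (ι h)]
        split_ifs <;> simp
  have hco : ∀ q x, co q (pt j ι x) = if cl x = q then ι (η x) else 0 := fun q x => by
    simp only [co, pt, Tens.lift_of, linearCombination_single, one_smul]
  have hsum : ∀ y, ∑ q, co q y • pt j ι (rep q) = y := by
    intro y
    induction y using PM.induction with
    | h0 => simp
    | hadd x y hx hy => simp only [map_add, add_smul, Finset.sum_add_distrib, hx, hy]
    | h1 n x =>
      simp only [map_smul, smul_assoc, ← Finset.smul_sum, hco, ite_smul, zero_smul,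
        Finset.sum_ite_eq, Finset.mem_univ, if_true, ← pt_mul, hη]
  have hη1 : ∀ q, η (rep q) = 1 := fun q => by
    apply hj
    apply mul_right_cancel (b := rep (cl (rep q)))
    rw [hη, hrep, map_one, one_mul]
  refine (injective_iff_map_eq_zero _).2 fun y hy => ?_
  obtain ⟨m, hm, hc⟩ := exists_pow_conj (j := j)
  choose h e using hc a
  have hy1 : rmul j ι a y = y := sub_eq_zero.1 hy
  have hy2 : rmul j ι (a ^ m) y = y := by
    rw [rmul_pow, Module.End.pow_apply]
    exact Function.iterate_fixed hy1 m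
  have hq : ∀ q, co q y = 0 := by
    intro q
    have e1 : co q (rmul j ι (a ^ m) y) = co q y * ι (h (rep q)) := by
      conv_lhs => rw [← hsum y]
      have e2 : ∀ q', rep q' * a ^ m = j (h (rep q')) * rep q' := fun q' => by simp [e]
      simp only [map_sum, map_smul, rmul_pt, e2, pt_mul, hco, hrep, hη1, map_one, smul_eq_mul,
        mul_ite, mul_one, mul_zero, Finset.sum_ite_eq', Finset.mem_univ, if_true]
    rw [hy2] at e1
    refine hreg _ (not_isOfFinOrder_of_conj hm (e (rep q)) ha) (a₂ := 0) ?_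
    simp only [mul_sub, ← e1, mul_one, sub_self, zero_mul]
  rw [← hsum y]
  simp [hq]

end Biset

section Sal

variable {V : Type} [LinearOrder V] (Γ : SimpleGraph V)

lemma smul_SCell {p : ℕ} (h : RAAG Γ) (c : SCell Γ p) : h • c = ⟨h * c.g, c.A⟩ := rfl

lemma salD_single {p : ℕ} (c : SCell Γ (p + 1)) (m : ℤ) :
    salD Γ p (single c m) = m • ∑ v : c.A.1, sgn c.A.1 v.1 •
      (single ⟨c.g * PresentedGroup.of v.1, c.A.erase Γ v⟩ 1 - single ⟨c.g, c.A.erase Γ v⟩ 1) := by
  rw [salD, linearCombination_single]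

lemma salD_eqv (p : ℕ) (g : RAAG Γ) (c : SCell Γ (p + 1) →₀ ℤ) :
    salD Γ p (permRep _ _ g c) = permRep _ _ g (salD Γ p c) := by
  induction c using Finsupp.induction_linear with
  | zero => simp
  | add a b ha hb => simp only [map_add, ha, hb]
  | single c m =>
    simp only [permRep_single, salD_single, map_zsmul, map_sum, map_sub, smul_SCell, mul_assoc]

variable {H : Type} [Group H] (j : H →* RAAG Γ)

theorem isRes_sal (hj : Function.Injective j) :
    IsRes (H := H) (fun p => (permRep (RAAG Γ) (SCell Γ p)).comp j) (salD Γ) (salε Γ) where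
  eqv_d k g c := salD_eqv Γ k (j g) c
  eqv_ε g c := by
    induction c using Finsupp.induction_linear with
    | zero => simp
    | add a b ha hb => simp only [map_add, ha, hb]
    | single c m => simp [permRep_single, salε]
  ε_d := salε_salD Γ
  d_d := salD_salD Γ
  surj := ⟨single ⟨1, ∅, by simp⟩ 1, by simp [salε]⟩
  exact_zero := sal_exact_zero Γ
  exact_succ := sal_exact_succ Γ
  proj k := proj_free j hj fun g c h => by
    have := congrArg SCell.g h
    simpa [smul_SCell] using this

variable {N : Type} [Ring N] (ι : H →* N)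

/-- The module `N ⊗_H S_p`. -/
abbrev SM (p : ℕ) : Type := Tens ι ((permRep (RAAG Γ) (SCell Γ p)).comp j)

/-- The class of a cell. -/
noncomputable def cellM {p : ℕ} (c : SCell Γ p) : SM Γ j ι p := Tens.of ι _ (single c 1)

lemma SM.hom_ext {p : ℕ} {Q : Type} [AddCommGroup Q] [Module N Q] {f g : SM Γ j ι p →ₗ[N] Q}
    (h : ∀ c, f (cellM Γ j ι c) = g (cellM Γ j ι c)) : f = g := by
  refine Tens.hom_ext ι fun c => ?_
  induction c using Finsupp.induction_linear with
  | zero => simp
  | add a b ha hb => simp only [map_add, ha, hb]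
  | single c m =>
    have : single c m = m • single c (1 : ℤ) := by simp
    rw [this, map_zsmul, map_zsmul, map_zsmul]
    exact congrArg (m • ·) (h c)

/-- Coordinates on `N ⊗_H S_p`. -/
noncomputable def outM (p : ℕ) : SM Γ j ι p →ₗ[N] (Finset V →₀ PM j ι) :=
  Tens.lift ι (linearCombination ℤ fun c => single c.A.1 (pt j ι c.g)) fun h c => by
    induction c using Finsupp.induction_linear with
    | zero => simp
    | add a b ha hb => simp only [map_add, ha, hb, smul_add]
    | single c m =>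
      rw [MonoidHom.comp_apply, permRep_single, linearCombination_single,
        linearCombination_single, smul_SCell, pt_mul, smul_comm (ι h), smul_single (ι h)]

lemma outM_cell {p : ℕ} (c : SCell Γ p) :
    outM Γ j ι p (cellM Γ j ι c) = single c.A.1 (pt j ι c.g) := by
  simp only [outM, cellM, Tens.lift_of, linearCombination_single, one_smul]

/-- The inclusion of one coordinate. -/
noncomputable def incM {p : ℕ} (K : Cl Γ p) : PM j ι →ₗ[N] SM Γ j ι p :=
  Tens.map ι (lmapDomain ℤ ℤ fun g => ⟨g, K⟩) fun h c => by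
    simp only [MonoidHom.comp_apply, permRep, MonoidHom.coe_mk, OneHom.coe_mk, lmapDomain_apply,
      ← mapDomain_comp]
    rfl

lemma incM_pt {p : ℕ} (K : Cl Γ p) (g : RAAG Γ) :
    incM Γ j ι K (pt j ι g) = cellM Γ j ι ⟨g, K⟩ := by
  rw [incM, pt, Tens.map_of, lmapDomain_apply, mapDomain_single, cellM]

lemma outM_incM {p : ℕ} (K : Cl Γ p) (y : PM j ι) :
    outM Γ j ι p (incM Γ j ι K y) = single K.1 y := by
  have : outM Γ j ι p ∘ₗ incM Γ j ι K = lsingle K.1 :=
    PM.hom_ext j ι fun g => by simp only [LinearMap.comp_apply, incM_pt, outM_cell, lsingle_apply]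
  exact LinearMap.congr_fun this y

lemma outM_injective (p : ℕ) : Function.Injective (outM Γ j ι p) := by
  classical
  let inv : (Finset V →₀ PM j ι) →ₗ[N] SM Γ j ι p :=
    Finsupp.lsum ℕ fun K => if h : Γ.IsNClique p K then incM Γ j ι ⟨K, h⟩ else 0
  have : inv ∘ₗ outM Γ j ι p = LinearMap.id :=
    SM.hom_ext Γ j ι fun c => by
      simp only [LinearMap.comp_apply, outM_cell, inv, lsum_single, dif_pos c.A.2, incM_pt,
        LinearMap.id_apply]
  exact Function.LeftInverse.injective (g := inv) (LinearMap.congr_fun this)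

lemma outM_mem (p : ℕ) (z : SM Γ j ι p) : outM Γ j ι p z ∈ cs Γ N (PM j ι) p := by
  have : (cs Γ N (PM j ι) p).mkQ ∘ₗ outM Γ j ι p = 0 :=
    SM.hom_ext Γ j ι fun c => by
      rw [LinearMap.comp_apply, outM_cell, LinearMap.zero_apply, Submodule.mkQ_apply,
        Submodule.Quotient.mk_eq_zero]
      exact single_mem_supported N _ c.A.2
  exact (Submodule.Quotient.mk_eq_zero _).1 (LinearMap.congr_fun this z)

lemma exists_outM {p : ℕ} {w : Finset V →₀ PM j ι} (hw : w ∈ cs Γ N (PM j ι) p) :
    ∃ z, outM Γ j ι p z = w := by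
  refine cs_induction Γ (Pr := fun w => ∃ z, outM Γ j ι p z = w) ⟨0, map_zero _⟩ ?_
    (fun K y hK => ⟨_, outM_incM Γ j ι ⟨K, hK⟩ y⟩) hw
  rintro _ _ ⟨a, rfl⟩ ⟨b, rfl⟩
  exact ⟨a + b, map_add _ _ _⟩

/-- The boundary map of `N ⊗_H S`. -/
noncomputable def salM (p : ℕ) : SM Γ j ι (p + 1) →ₗ[N] SM Γ j ι p :=
  Tens.map ι (salD Γ p) (fun g c => salD_eqv Γ p (j g) c)

lemma salM_cell {p : ℕ} (c : SCell Γ (p + 1)) :
    salM Γ j ι p (cellM Γ j ι c) = ∑ v : c.A.1, sgn c.A.1 v.1 •
      (cellM Γ j ι ⟨c.g * PresentedGroup.of v.1, c.A.erase Γ v⟩ -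
        cellM Γ j ι ⟨c.g, c.A.erase Γ v⟩) := by
  rw [salM, cellM, Tens.map_of, salD_single, one_smul, map_sum]
  simp only [map_zsmul, map_sub, cellM]

lemma outM_salD (p : ℕ) (z : SM Γ j ι (p + 1)) :
    outM Γ j ι p (salM Γ j ι p z) =
      twd (fun v => rmul j ι (PresentedGroup.of v) - 1) (outM Γ j ι (p + 1) z) := by
  have : outM Γ j ι p ∘ₗ salM Γ j ι p =
      twd (fun v => rmul j ι (PresentedGroup.of v) - 1) ∘ₗ outM Γ j ι (p + 1) :=
    SM.hom_ext Γ j ι fun c => by
      rw [LinearMap.comp_apply, LinearMap.comp_apply, outM_cell, twd_single, salM_cell, map_sum,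
        ← Finset.sum_coe_sort c.A.1]
      refine Finset.sum_congr rfl fun v _ => ?_
      rw [map_zsmul, map_sub, outM_cell, outM_cell, LinearMap.sub_apply, rmul_pt, single_sub,
        Module.End.one_apply]
      rfl
  exact LinearMap.congr_fun this z

omit [LinearOrder V] in
lemma raag_commute {u v : V} (h : Γ.Adj u v) :
    Commute (PresentedGroup.of u : RAAG Γ) (PresentedGroup.of v) := by
  have := PresentedGroup.one_of_mem (rels := {w : FreeGroup V | ∃ u v, Γ.Adj u v ∧
    w = FreeGroup.of u * FreeGroup.of v * (FreeGroup.of u)⁻¹ * (FreeGroup.of v)⁻¹}) ⟨u, v, h, rfl⟩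
  rw [map_mul, map_mul, map_mul, map_inv, map_inv, mul_inv_eq_one, mul_inv_eq_iff_eq_mul] at this
  exact this

/-- The exponent sum of a generator. -/
noncomputable def abv (v : V) : RAAG Γ →* Multiplicative ℤ :=
  PresentedGroup.toGroup (f := fun u => Multiplicative.ofAdd (if u = v then 1 else 0)) (by
    rintro _ ⟨a, b, -, rfl⟩
    simp only [map_mul, map_inv]
    rw [mul_inv_eq_one, mul_inv_eq_iff_eq_mul, mul_comm])

lemma abv_of (v u : V) :
    abv Γ v (PresentedGroup.of u) = Multiplicative.ofAdd (if u = v then 1 else 0) :=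
  PresentedGroup.toGroup.of _

lemma not_isOfFinOrder_of (v : V) : ¬ IsOfFinOrder (PresentedGroup.of v : RAAG Γ) := fun h => by
  have := (abv Γ v).isOfFinOrder h
  rw [abv_of, if_pos rfl, isOfFinOrder_ofAdd_iff] at this
  exact one_ne_zero this.eq_zero'

theorem torsAt_sal [j.range.FiniteIndex] (hj : Function.Injective j)
    (hreg : ∀ h : H, ¬ IsOfFinOrder h → IsRightRegular (ι h - 1))
    (hore : ∀ h : H, ¬ IsOfFinOrder h → ∀ y : N, ∃ s b : N, IsLeftRegular s ∧
      s * y = b * (ι h - 1))
    (hN : ∀ m : ℤ, m ≠ 0 → IsLeftRegular (m : N)) {k : ℕ}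
    (hex : ∀ S : Finset V, ExactTwo (Γ.comap (Subtype.val : S → V)) (k + 1)) :
    TorsAt ι (fun p => (permRep (RAAG Γ) (SCell Γ p)).comp j) (salD Γ)
      (isRes_sal Γ j hj).eqv_d k := by
  intro z hz
  obtain ⟨s, hs, w, hw, e⟩ := twisted_torsion Γ (fun v => rmul j ι (PresentedGroup.of v) - 1)
    (fun u v h => by
      refine Commute.sub_left (Commute.sub_right ?_ (Commute.one_right _)) (Commute.one_left _)
      rw [Commute, SemiconjBy, ← rmul_mul, ← rmul_mul, (raag_commute Γ h).eq])
    (fun v => rmul_injective ι hj hreg (not_isOfFinOrder_of Γ v))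
    (fun v => rmul_ore ι hore (not_isOfFinOrder_of Γ v)) hN hex (outM_mem Γ j ι _ z)
    (by rw [← outM_salD]; exact (congrArg _ hz).trans (map_zero _))
  obtain ⟨w, rfl⟩ := exists_outM Γ j ι hw
  exact ⟨s, hs, w, outM_injective Γ j ι _ (by rw [map_smul, ← e]; exact outM_salD Γ j ι _ w)⟩

end Sal

end Pool.Agent.MP_4f4d9f_gt
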