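import Pool.Agent.MP_4f4d9f_gt.TensLem

/-! Transfer from a subgroup of finite index. -/

namespace Pool.Agent.MP_4f4d9f_gt

variable {G N : Type} [Group G] [Ring N] (ι : G →* N) (H : Subgroup G)

section

variable {C : Type} [AddCommGroup C] (ρ : Representation ℤ G C)

/-- The projection `N ⊗_H C → N ⊗_G C`. -/
noncomputable def projH : Tens (ι.comp H.subtype) (ρ.comp H.subtype) →ₗ[N] Tens ι ρ :=
  Tens.lift _ (Tens.of ι ρ) fun g c => Tens.of_rep ι ρ g c

/-- The term `ι x ⊗ x⁻¹ c` of the transfer. -/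
noncomputable def trTerm (x : G) : C →ₗ[ℤ] Tens (ι.comp H.subtype) (ρ.comp H.subtype) :=
  ι x • (Tens.of (ι.comp H.subtype) (ρ.comp H.subtype) ∘ₗ ρ x⁻¹)

lemma trTerm_apply (x : G) (c : C) : trTerm ι H ρ x c =
    ι x • Tens.of (ι.comp H.subtype) (ρ.comp H.subtype) (ρ x⁻¹ c) := rfl

lemma trTerm_mul (x : G) (h : H) (c : C) : trTerm ι H ρ (x * h) c = trTerm ι H ρ x c := by
  have := Tens.of_rep (ι.comp H.subtype) (ρ.comp H.subtype) h (ρ (x * h)⁻¹ c)
  rw [trTerm_apply, trTerm_apply, map_mul, mul_smul]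
  congr 1
  refine this.symm.trans ?_
  congr 1
  change (ρ h * ρ (x * h)⁻¹) c = _
  rw [← map_mul]
  simp

lemma trTerm_out (x : G) (c : C) :
    trTerm ι H ρ (QuotientGroup.mk x : G ⧸ H).out c = trTerm ι H ρ x c := by
  obtain ⟨h, e⟩ := QuotientGroup.mk_out_eq_mul H x
  rw [e, trTerm_mul]

/-- The transfer `N ⊗_G C → N ⊗_H C`. -/
noncomputable def transfer [Fintype (G ⧸ H)] :
    Tens ι ρ →ₗ[N] Tens (ι.comp H.subtype) (ρ.comp H.subtype) :=
  Tens.lift ι (∑ q : G ⧸ H, trTerm ι H ρ q.out) fun g c => by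
    simp only [LinearMap.sum_apply, Finset.smul_sum]
    rw [← Equiv.sum_comp (MulAction.toPerm g)]
    refine Finset.sum_congr rfl fun q _ => ?_
    have e : MulAction.toPerm g q = QuotientGroup.mk (g * q.out) := by
      rw [MulAction.toPerm_apply, ← smul_eq_mul, MulAction.Quotient.mk_smul_out]
    rw [e, trTerm_out, trTerm_apply, trTerm_apply, map_mul, mul_smul, ← Module.End.mul_apply,
      ← map_mul]
    simp

lemma projH_transfer [Fintype (G ⧸ H)] (z : Tens ι ρ) :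
    projH ι H ρ (transfer ι H ρ z) = ((Fintype.card (G ⧸ H) : ℤ) : N) • z := by
  have : projH ι H ρ ∘ₗ transfer ι H ρ = (Fintype.card (G ⧸ H) : ℤ) • LinearMap.id :=
    Tens.hom_ext ι fun c => by
      simp only [LinearMap.comp_apply, transfer, projH, Tens.lift_of, LinearMap.sum_apply, map_sum,
        trTerm_apply, map_smul, ← Tens.of_rep, ← Module.End.mul_apply, ← map_mul]
      simp
  rw [Int.cast_smul_eq_zsmul]
  exact LinearMap.congr_fun this z

end

theorem torsAt_of_finiteIndex [H.FiniteIndex] {C : ℕ → Type} [∀ k, AddCommGroup (C k)]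
    {ρ : ∀ k, Representation ℤ G (C k)} {d : ∀ k, C (k + 1) →ₗ[ℤ] C k}
    (hd : ∀ k, Eqv (ρ (k + 1)) (ρ k) (d k)) (hN : ∀ m : ℤ, m ≠ 0 → IsLeftRegular (m : N)) {k : ℕ}
    (h : TorsAt (ι.comp H.subtype) (fun k => (ρ k).comp H.subtype) d (fun k g => hd k g) k) :
    TorsAt ι ρ d hd k := by
  have := Subgroup.fintypeQuotientOfFiniteIndex (H := H)
  intro z hz
  have e1 : Tens.map (ι.comp H.subtype) (d k) (fun g => hd k g) ∘ₗ transfer ι H (ρ (k + 1)) =
      transfer ι H (ρ k) ∘ₗ Tens.map ι (d k) (hd k) :=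
    Tens.hom_ext ι fun c => by
      simp only [LinearMap.comp_apply, transfer, Tens.lift_of, LinearMap.sum_apply, map_sum,
        trTerm_apply, map_smul, Tens.map_of, hd k _ c]
  have e2 : Tens.map ι (d (k + 1)) (hd _) ∘ₗ projH ι H (ρ (k + 2)) =
      projH ι H (ρ (k + 1)) ∘ₗ Tens.map (ι.comp H.subtype) (d (k + 1)) (fun g => hd _ g) :=
    Tens.hom_ext _ fun c => by
      simp only [LinearMap.comp_apply, projH, Tens.lift_of, Tens.map_of]
  obtain ⟨s, hs, w, hw⟩ := h (transfer ι H (ρ (k + 1)) z) (by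
    rw [← LinearMap.comp_apply, e1, LinearMap.comp_apply, hz, map_zero])
  refine ⟨s * ((Fintype.card (G ⧸ H) : ℤ) : N), hs.mul (hN _ (by simp)), projH ι H _ w, ?_⟩
  rw [← LinearMap.comp_apply, e2, LinearMap.comp_apply, hw, map_smul, projH_transfer, mul_smul]

end Pool.Agent.MP_4f4d9f_gt
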