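import Pool.Agent.MP_4f4d9f_gt.Top
import Pool.Agent.MP_4f4d9f_gt.SalvRes
import Pool.Agent.MP_4f4d9f_gt.Transfer
import Pool.Agent.MP_4f4d9f_gt.Bridge

/-! Assembly for groups commensurable with a right-angled Artin group. -/

namespace Pool.Agent.MP_4f4d9f_gt

theorem exact_of_commensurable {n : ℕ} {C : Set (EuclideanSpace ℝ (Fin n))} (hC : Convex ℝ C)
    (hC' : (interior C).Nonempty)
    {M : Type} [TopologicalSpace M] [T2Space M] [ChartedSpace C M]
    {X : Type} [TopologicalSpace X] [ContractibleSpace X]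
    {G : Type} [Group G] [MulAction G X]
    {p : X → M} (hp : IsQuotientCoveringMap p G)
    {V : Type} [LinearOrder V] (Γ : SimpleGraph V) (H : Subgroup G)
    (j : H →* RAAG Γ) (hj : Function.Injective j) [j.range.FiniteIndex]
    {k : ℕ} (hk : n < 2 * k) (S : Finset V) : ExactTwo (Γ.comap (Subtype.val : S → V)) k := by
  obtain ⟨m, hm, hc⟩ := exists_pow_conj (j := j)
  choose x hx using fun v : V => hc (PresentedGroup.of v) 1
  simp only [one_mul, inv_one, mul_one] at hx
  refine exactTwo_of_lt hC hC' hp H _ (fun v : S => x v) (fun u v huv => hj ?_)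
    (fun v : S => (abv Γ v).comp j) (fun u v huv => ?_) (fun v => ?_) hk
  · simp only [map_mul, hx]
    exact ((raag_commute Γ huv).pow_pow m m).eq
  · rw [MonoidHom.comp_apply, hx, map_pow, abv_of, if_neg (Subtype.val_injective.ne huv)]
    simp
  · rw [MonoidHom.comp_apply, hx, map_pow, abv_of, if_pos rfl]
    simpa using hm.nat_succ_le

theorem torsAt_sal_vn {G E : Type} [Group G] [NormedAddCommGroup E] [InnerProductSpace ℂ E]
    {b : HilbertBasis G ℂ E} {ι : G →* vnAlg b} (hι : ∀ g h, (ι g).1 (b h) = b (g * h))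
    {V : Type} [LinearOrder V] (Γ : SimpleGraph V)
    (H : Subgroup G) (j : H →* RAAG Γ) (hj : Function.Injective j) [j.range.FiniteIndex] {k : ℕ}
    (hex : ∀ S : Finset V, ExactTwo (Γ.comap (Subtype.val : S → V)) (k + 1)) :
    TorsAt (ι.comp H.subtype) (fun p => (permRep (RAAG Γ) (SCell Γ p)).comp j) (salD Γ)
      (isRes_sal Γ j hj).eqv_d k := by
  have hnf : ∀ h : H, ¬ IsOfFinOrder h → IsRightRegular (ι.comp H.subtype h - 1) :=
    fun h hh => vnAlg_rightRegular hι (g := (h : G))
      fun hh' => hh ((H.subtype_injective.isOfFinOrder_iff).1 hh')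
  exact torsAt_sal Γ j _ hj hnf (fun h hh => vnAlg_ore (hnf h hh)) vnAlg_intCast hex

theorem main {n : ℕ} {C : Set (EuclideanSpace ℝ (Fin n))} (hC : Convex ℝ C)
    (hC' : (interior C).Nonempty)
    {M : Type} [TopologicalSpace M] [T2Space M] [ChartedSpace C M]
    {X : Type} [TopologicalSpace X] [ContractibleSpace X]
    {G : Type} [Group G] [MulAction G X] [ContinuousConstSMul G X]
    {p : X → M} (hp : IsQuotientCoveringMap p G)
    {V : Type} (Γ : SimpleGraph V) (H : Subgroup G) [H.FiniteIndex]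
    (j : H →* RAAG Γ) (hj : Function.Injective j) [j.range.FiniteIndex]
    {E : Type} [NormedAddCommGroup E] [InnerProductSpace ℂ E]
    (b : HilbertBasis G ℂ E) (ι : G →* vnAlg b) (hι : ∀ g h, (ι g).1 (b h) = b (g * h))
    (k : ℕ) (hk : n < 2 * (k + 1)) : bettiSucc b ι X k = 0 := by
  letI : LinearOrder V := @linearOrderOfSTO V WellOrderingRel _ (Classical.decRel _)
  have h1 := torsAt_sal_vn hι Γ H j hj (exact_of_commensurable hC hC' hp Γ H j hj hk)
  have h2 := (isRes_sing hp H.subtype H.subtype_injective).torsAt _ (isRes_sal Γ j hj) h1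
  exact bettiSucc_eq_zero
    (torsAt_of_finiteIndex ι H (ρ := fun k => permRep G (Sing X k)) (d := bd ℤ X)
      (bd_smul G X) vnAlg_intCast h2)

end Pool.Agent.MP_4f4d9f_gt
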