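import Pool.Agent.MP_4f4d9f_gt.GPDefs
import Pool.Agent.MP_4f4d9f_gt.TensLem

/-! Shared auxiliary definitions for graph products and right-angled buildings. -/

namespace Pool.Agent.MP_4f4d9f_gt

/-! ### Normal form data of a graph product -/

section NF

variable {V W : Type} [Group W]

/-- The subgroup generated by the vertex groups `P v`, `v ∈ T`. -/
def par (P : V → Subgroup W) (T : Set V) : Subgroup W := ⨆ v ∈ T, P v

/-- `hd v g` is the initial `v`-syllable of `g` (and `1` if there is none). -/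
structure HdSpec (Γ : SimpleGraph V) (P : V → Subgroup W) (hd : V → W → W) : Prop where
  mem : ∀ v g, hd v g ∈ P v
  one : ∀ v, hd v 1 = 1
  self : ∀ v, ∀ a ∈ P v, ∀ g, hd v (a * g) = a * hd v g
  adj : ∀ u v, Γ.Adj u v → ∀ b ∈ P u, ∀ g, hd v (b * g) = hd v g
  right : ∀ u v, u ≠ v → ∀ b ∈ P u, ∀ g, hd v (g * b) = hd v g
  change : ∀ v, ∀ a ∈ P v, ∀ g, hd v (g * a) ≠ hd v g → (hd v g)⁻¹ * g ∈ par P (Γ.neighborSet v)
  clique : ∀ u v g, u ≠ v → hd u g ≠ 1 → hd v g ≠ 1 → Γ.Adj u v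

/-- Retractions, initial syllables and the syllable length of a graph product. -/
structure NF (Γ : SimpleGraph V) (P : V → Subgroup W) where
  gp : IsGraphProd Γ P
  /-- the retraction onto a vertex group -/
  pi : V → W →* W
  pi_mem : ∀ v g, pi v g ∈ P v
  pi_self : ∀ v, ∀ a ∈ P v, pi v a = a
  pi_ne : ∀ u v, u ≠ v → ∀ a ∈ P u, pi v a = 1
  /-- the initial syllable -/
  hd : V → W → W
  spec : HdSpec Γ P hd
  /-- the number of syllables -/
  len : W → ℕ
  len_one : len 1 = 0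
  len_inv : ∀ g, len g⁻¹ = len g
  len_mul : ∀ v, ∀ a ∈ P v, a ≠ 1 → ∀ g, hd v g = 1 → len (a * g) = len g + 1
  ind : ∀ p : W → Prop, p 1 →
    (∀ v, ∀ a ∈ P v, a ≠ 1 → ∀ g, hd v g = 1 → p g → p (a * g)) → ∀ g, p g
  wt : ∀ c : V → W → ℕ, ∃ w : W → ℕ, w 1 = 0 ∧
    ∀ v, ∀ a ∈ P v, a ≠ 1 → ∀ g, hd v g = 1 → w (a * g) = w g + c v a

/-- The final `v`-syllable. -/
def NF.tl {Γ : SimpleGraph V} {P : V → Subgroup W} (N : NF Γ P) (v : V) (g : W) : W :=
  (N.hd v g⁻¹)⁻¹

/-- The map of chamber sets induced by pointed maps `μ u` of the vertex groups. -/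
structure IsTr {S W' : Type} [Group W'] {Λ : SimpleGraph S} {P' : S → Subgroup W'}
    (N' : NF Λ P') (μ : S → W' → W) (F : W' → W) : Prop where
  one : F 1 = 1
  mul : ∀ u, ∀ a ∈ P' u, ∀ g, F (g * a) = F g * ((μ u (N'.pi u g))⁻¹ * μ u (N'.pi u g * a))

end NF

/-! ### The coarse Borsuk-Ulam property of a group -/

section BU

/-- A complex with a free involution, mapped coarsely to a group `W`, which carries Borsuk-Ulam
chains arbitrarily far from the diagonal. -/
structure BUData {W : Type} [Group W] (Ω : Set W) (m : ℕ) {Q : Type} (Val : Set Q)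
    (d : (Q →₀ ZMod 2) →ₗ[ZMod 2] (Q →₀ ZMod 2)) (τ : Q → Q) (y : Q → W) (D : Set W) : Prop where
  fin : D.Finite
  τ_τ : ∀ q, τ (τ q) = q
  τ_mem : ∀ q ∈ Val, τ q ∈ Val
  τ_ne : ∀ q ∈ Val, τ q ≠ q
  y_mem : ∀ q ∈ Val, y q ∈ Ω
  d_mem : ∀ q ∈ Val, ∀ r ∈ (d (Finsupp.single q 1)).support, r ∈ Val ∧ (y q)⁻¹ * y r ∈ D
  d_d : ∀ q ∈ Val, d (d (Finsupp.single q 1)) = 0
  d_aug : ∀ q ∈ Val, (d (Finsupp.single q 1)).sum (fun _ a => a) = 0
  d_τ : ∀ q ∈ Val, d (Finsupp.single (τ q) 1) = (d (Finsupp.single q 1)).mapDomain τ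
  far : ∀ F : Set W, F.Finite → ∃ e : ℕ → (Q →₀ ZMod 2),
    (∀ i ≤ m, ∀ q ∈ (e i).support, q ∈ Val ∧ (y q)⁻¹ * y (τ q) ∉ F) ∧
    (∀ i < m, d (e (i + 1)) = e i + (e i).mapDomain τ) ∧ (e 0).sum (fun _ a => a) = 1

/-- The coarse Borsuk-Ulam property. -/
def GroupBU {W : Type} [Group W] (Ω : Set W) (m : ℕ) : Prop :=
  ∃ (Q : Type) (Val : Set Q) (d : (Q →₀ ZMod 2) →ₗ[ZMod 2] (Q →₀ ZMod 2)) (τ : Q → Q)
    (y : Q → W) (D : Set W), BUData Ω m Val d τ y D

end BU

/-! ### Intervals in the deleted join -/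

section Interval

variable {V : Type} [DecidableEq V]

open Classical in
/-- The chain map from the cubical subdivision of the deleted join to the deleted join. The cube is
the interval from `(α₁, α₂)` to `(α₁ ∪ x₁, α₂ ∪ x₂)`; a vertex goes to its element of least rank. -/
noncomputable def nu (r : V × Bool → ℕ) (α₁ x₁ α₂ x₂ : Finset (V × Bool)) : DCell V →₀ ZMod 2 :=
  ∑ m ∈ α₁ with (∀ a ∈ α₁ ∪ α₂, r m ≤ r a) ∧ ∀ b ∈ x₁ ∪ x₂, r b < r m,
      Finsupp.single (insert m x₁, x₂) 1 +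
    ∑ m ∈ α₂ with (∀ a ∈ α₁ ∪ α₂, r m ≤ r a) ∧ ∀ b ∈ x₁ ∪ x₂, r b < r m,
      Finsupp.single (x₁, insert m x₂) 1

end Interval

/-! ### The signed Davis complex of a right-angled Coxeter group -/

section Y

variable {S W : Type} [Fintype S] [DecidableEq S] [Group W] {Λ : SimpleGraph S}
  {P : S → Subgroup W} (N : NF Λ P) (r : S → W)

/-- All vertex groups have order two, with generators `r u`. -/
structure IsRefl (P : S → Subgroup W) (r : S → W) : Prop where
  mem : ∀ u, r u ∈ P u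
  ne : ∀ u, r u ≠ 1
  all : ∀ u, ∀ a ∈ P u, a = 1 ∨ a = r u

/-- A cube `(w, A)` of the Davis complex with a set of signed vertices. -/
structure YCell (S W : Type) where
  /-- the base vertex -/
  w : W
  /-- the directions -/
  A : Finset S
  /-- the label -/
  σ : Finset (S × Bool)

open Classical in
/-- The walls at the base chamber that separate it from some vertex of the cube `(w, A)`. -/
noncomputable def inn (w : W) (A : Finset S) : Finset S :=
  Finset.univ.filter fun u => N.hd u w ≠ 1 ∨ (u ∈ A ∧ N.hd u (w * r u) ≠ 1)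

/-- The cube `(w, A)` with the restriction of the label `σ`. -/
noncomputable def ycut (w : W) (A : Finset S) (σ : Finset (S × Bool)) : YCell S W :=
  ⟨w, A, σ.filter fun a => a.1 ∈ inn N r w A⟩

/-- The boundary of a signed cube. -/
noncomputable def ybd (c : YCell S W) : YCell S W →₀ ZMod 2 :=
  ∑ v ∈ c.A, (Finsupp.single (ycut N r c.w (c.A.erase v) c.σ) 1 +
    Finsupp.single (ycut N r (c.w * r v) (c.A.erase v) c.σ) 1)

/-- Valid signed cubes. -/
structure YVal (c : YCell S W) : Prop where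
  clique : Λ.IsClique c.A
  even : ∀ u ∈ c.A, N.pi u c.w = 1
  image : c.σ.image Prod.fst = inn N r c.w c.A
  osimp : OSimp Λ c.σ

/-- The boundary of pairs of signed cubes. -/
noncomputable def pbd :
    (YCell S W × YCell S W →₀ ZMod 2) →ₗ[ZMod 2] (YCell S W × YCell S W →₀ ZMod 2) :=
  Finsupp.linearCombination (ZMod 2) fun q =>
    (ybd N r q.1).mapDomain (fun c => (c, q.2)) + (ybd N r q.2).mapDomain fun c => (q.1, c)

/-- Valid pairs: disjoint labels, not both at the base vertex. -/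
structure PVal (q : YCell S W × YCell S W) : Prop where
  fst : YVal N r q.1
  snd : YVal N r q.2
  disj : Disjoint q.1.σ q.2.σ
  ne : ¬ (q.1.w = 1 ∧ q.2.w = 1)

/-- All directions of the cube cross walls at the base chamber. -/
def Cross (c : YCell S W) : Prop := ∀ u ∈ c.A, N.hd u c.w = 1 ∧ N.hd u (c.w * r u) ≠ 1

open Classical in
/-- The collapse of pairs of signed cubes onto the deleted join. -/
noncomputable def ykap (rk : S × Bool → ℕ) :
    (YCell S W × YCell S W →₀ ZMod 2) →ₗ[ZMod 2] (DCell S →₀ ZMod 2) :=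
  Finsupp.linearCombination (ZMod 2) fun q =>
    if Cross N r q.1 ∧ Cross N r q.2 then
      nu rk (q.1.σ.filter fun a => a.1 ∉ q.1.A) (q.1.σ.filter fun a => a.1 ∈ q.1.A)
        (q.2.σ.filter fun a => a.1 ∉ q.2.A) (q.2.σ.filter fun a => a.1 ∈ q.2.A)
    else 0

end Y

/-! ### The resolution by functions on chambers with vanishing panel sums -/

section Res

variable {V W : Type} [Fintype V] [LinearOrder V] [Group W] (Γ : SimpleGraph V)
  (P : V → Subgroup W) [∀ v, Fintype (P v)]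

/-- The standard bilinear pairing of finitely supported functions. -/
def ip {B : Type} (x y : B →₀ ℚ) : ℚ := x.sum fun b a => a * y b

/-- The simplicial boundary in the second coordinate. -/
noncomputable def cbd (W V : Type) [LinearOrder V] :
    (W × Finset V →₀ ℚ) →ₗ[ℚ] (W × Finset V →₀ ℚ) :=
  Finsupp.linearCombination ℚ fun c =>
    ∑ v ∈ c.2, (sgn c.2 v : ℚ) • Finsupp.single (c.1, c.2.erase v) 1

/-- The simplicial coboundary in the second coordinate. -/
noncomputable def cco (W V : Type) [Fintype V] [LinearOrder V] :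
    (W × Finset V →₀ ℚ) →ₗ[ℚ] (W × Finset V →₀ ℚ) :=
  Finsupp.linearCombination ℚ fun c =>
    ∑ v ∈ c.2ᶜ, (sgn (insert v c.2) v : ℚ) • Finsupp.single (c.1, insert v c.2) 1

/-- Chains supported on `j`-cliques. -/
noncomputable def CC (W : Type) (j : ℕ) : Submodule ℚ (W × Finset V →₀ ℚ) :=
  Finsupp.supported ℚ ℚ {c | Γ.IsNClique j c.2}

/-- Chains supported on `j`-cliques whose `A`-component has zero sums over all `v`-panels for
`v ∈ A`. -/
def PC (j : ℕ) : Submodule ℚ (W × Finset V →₀ ℚ) where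
  carrier := {x | x ∈ CC Γ W j ∧ ∀ A : Finset V, ∀ v ∈ A, ∀ g : W, ∑ a : P v, x (g * a, A) = 0}
  add_mem' := fun hx hy => ⟨add_mem hx.1 hy.1, fun A v hv g => by
    simp only [Finsupp.add_apply, Finset.sum_add_distrib, hx.2 A v hv g, hy.2 A v hv g, add_zero]⟩
  zero_mem' := ⟨zero_mem _, fun A v hv g => by simp⟩
  smul_mem' := fun t x hx => ⟨Submodule.smul_mem _ t hx.1, fun A v hv g => by
    simp only [Finsupp.smul_apply, ← Finset.smul_sum, hx.2 A v hv g, smul_zero]⟩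

/-- A permutation of the chambers that preserves all adjacency relations. -/
def AdjPres (θ : Equiv.Perm W) : Prop :=
  ∀ c c' v, c⁻¹ * c' ∈ P v ↔ (θ c)⁻¹ * θ c' ∈ P v

/-- The orthogonal projection onto the sum of the `PC j`. -/
structure IsPrj (f : (W × Finset V →₀ ℚ) →ₗ[ℚ] (W × Finset V →₀ ℚ)) : Prop where
  mem : ∀ j, ∀ x ∈ CC Γ W j, f x ∈ PC Γ P j
  zero : ∀ c : W × Finset V, ¬ Γ.IsClique c.2 → f (Finsupp.single c 1) = 0
  fix : ∀ j, ∀ x ∈ PC Γ P j, f x = x
  adj : ∀ x y, ip (f x) y = ip x (f y)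
  eqv : ∀ θ : Equiv.Perm W, AdjPres P θ → ∀ x,
    f (x.mapDomain (Prod.map θ id)) = (f x).mapDomain (Prod.map θ id)

end Res

/-! ### Rational resolutions -/

section ResQ

/-- The action of `G` on the rational vector space with basis a `G`-set `B`. -/
noncomputable def permRepQ (G B : Type) [Group G] [MulAction G B] :
    Representation ℤ G (B →₀ ℚ) where
  toFun g := Finsupp.lmapDomain ℚ ℤ (g • ·)
  map_one' := by ext; simp
  map_mul' g h := by ext; simp [mul_smul]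

/-- The lifting property of a `ℚH`-module. -/
def ProjQ {H C : Type} [Group H] [AddCommGroup C] (ρ : Representation ℤ H C) : Prop :=
  ∀ (D E : Type) [AddCommGroup D] [Module ℚ D] [AddCommGroup E] [Module ℚ E]
    (ρD : Representation ℤ H D) (ρE : Representation ℤ H E) (π : D →ₗ[ℤ] E) (φ : C →ₗ[ℤ] E),
    Eqv ρD ρE π → Eqv ρ ρE φ → (∀ c, ∃ x, π x = φ c) →
    ∃ ψ : C →ₗ[ℤ] D, Eqv ρ ρD ψ ∧ ∀ c, π (ψ c) = φ c

/-- A projective resolution of the trivial module `ℚ` over `ℚH`. -/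
structure IsResQ {H : Type} [Group H] {C : ℕ → Type} [∀ k, AddCommGroup (C k)]
    (ρ : ∀ k, Representation ℤ H (C k)) (d : ∀ k, C (k + 1) →ₗ[ℤ] C k) (ε : C 0 →ₗ[ℤ] ℚ) :
    Prop where
  eqv_d : ∀ k, Eqv (ρ (k + 1)) (ρ k) (d k)
  eqv_ε : ∀ g c, ε (ρ 0 g c) = ε c
  ε_d : ∀ c, ε (d 0 c) = 0
  d_d : ∀ k c, d k (d (k + 1) c) = 0
  surj : ∀ t, ∃ c, ε c = t
  exact_zero : ∀ c, ε c = 0 → ∃ b, d 0 b = c
  exact_succ : ∀ k c, d k c = 0 → ∃ b, d (k + 1) b = c
  proj : ∀ k, ProjQ (ρ k)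

/-- The complex `N ⊗ C` is exact in degree `k + 1`. -/
def ExactAt {H N : Type} [Group H] [Ring N] (ι : H →* N) {C : ℕ → Type}
    [∀ k, AddCommGroup (C k)] (ρ : ∀ k, Representation ℤ H (C k))
    (d : ∀ k, C (k + 1) →ₗ[ℤ] C k) (hd : ∀ k, Eqv (ρ (k + 1)) (ρ k) (d k)) (k : ℕ) : Prop :=
  ∀ z : Tens ι (ρ (k + 1)), Tens.map ι (d k) (hd k) z = 0 →
    ∃ w, Tens.map ι (d (k + 1)) (hd (k + 1)) w = z

end ResQ

end Pool.Agent.MP_4f4d9f_gt
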