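import Pool.Agent.MP_4f4d9f_gt.Main

namespace Pool.Agent.MP_4f4d9f_gt.RAAGOld

open Pool.Agent.MP_4f4d9f_gt

/-- The Davis-Okun conjecture for aspherical manifolds whose fundamental group is commensurable
with a right-angled Artin group. `M` is an `n`-manifold (charts in a convex set `C` with nonempty
interior: `C = ℝⁿ` or a half space), `X` its contractible universal cover, `G` the deck group,
`E = ℓ²(G)` with basis `b`, and `ι` the left regular representation. -/
theorem result {n : ℕ} {C : Set (EuclideanSpace ℝ (Fin n))} (hC : Convex ℝ C)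
    (hC' : (interior C).Nonempty)
    {M : Type} [TopologicalSpace M] [T2Space M] [ChartedSpace C M]
    {X : Type} [TopologicalSpace X] [ContractibleSpace X]
    {G : Type} [Group G] [MulAction G X] [ContinuousConstSMul G X]
    {p : X → M} (hp : IsQuotientCoveringMap p G)
    {V : Type} (Γ : SimpleGraph V) (H : Subgroup G) [H.FiniteIndex]
    (j : H →* RAAG Γ) (hj : Function.Injective j) [j.range.FiniteIndex]
    {E : Type} [NormedAddCommGroup E] [InnerProductSpace ℂ E]
    (b : HilbertBasis G ℂ E) (ι : G →* vnAlg b) (hι : ∀ g h, (ι g).1 (b h) = b (g * h))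
    (k : ℕ) (hk : n < 2 * (k + 1)) : bettiSucc b ι X k = 0 :=
  main hC hC' hp Γ H j hj b ι hι k hk

end Pool.Agent.MP_4f4d9f_gt.RAAGOld
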