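import Pool.Agent.MP_4f4d9f_gt.Iface

/-! Exactness of the Salvetti complex of a right-angled Artin group. -/

namespace Pool.Agent.MP_4f4d9f_gt

namespace Salv

set_option linter.unusedSectionVars false

open Finsupp

/-! ### Group theory -/

section Grp

variable {V : Type} (Γ : SimpleGraph V)

/-- The generator attached to a vertex. -/
abbrev gen (v : V) : RAAG Γ := PresentedGroup.of v

lemma gen_comm {u v : V} (h : Γ.Adj u v) : gen Γ u * gen Γ v = gen Γ v * gen Γ u := by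
  have h1 : PresentedGroup.mk {w : FreeGroup V | ∃ u v, Γ.Adj u v ∧
      w = FreeGroup.of u * FreeGroup.of v * (FreeGroup.of u)⁻¹ * (FreeGroup.of v)⁻¹}
      (FreeGroup.of u * FreeGroup.of v * (FreeGroup.of u)⁻¹ * (FreeGroup.of v)⁻¹) = 1 :=
    PresentedGroup.one_of_mem ⟨u, v, h, rfl⟩
  simp only [map_mul, map_inv] at h1
  change gen Γ u * gen Γ v * (gen Γ u)⁻¹ * (gen Γ v)⁻¹ = 1 at h1
  rw [mul_inv_eq_one, mul_inv_eq_iff_eq_mul] at h1
  exact h1

/-- The universal property. -/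
lemma exists_hom {H : Type} [Group H] (f : V → H)
    (hf : ∀ u v, Γ.Adj u v → f u * f v = f v * f u) :
    ∃ Φ : RAAG Γ →* H, ∀ v, Φ (gen Γ v) = f v := by
  refine ⟨PresentedGroup.toGroup (f := f) ?_, fun v => PresentedGroup.toGroup.of _⟩
  rintro _ ⟨u, v, h, rfl⟩
  simp [hf u v h]

/-- A wreath-like extension used to build twisted derivations. -/
@[ext] structure Wr (G M : Type) where
  /-- the function component -/
  f : G → M
  /-- the group component -/
  a : G

instance {G M : Type} [Group G] [AddCommGroup M] : Group (Wr G M) where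
  mul x y := ⟨fun z => x.f z + y.f (z * x.a), x.a * y.a⟩
  one := ⟨0, 1⟩
  inv x := ⟨fun z => - x.f (z * x.a⁻¹), x.a⁻¹⟩
  mul_assoc x y z := by
    refine Wr.ext (funext fun t => ?_) (mul_assoc _ _ _)
    change x.f t + y.f (t * x.a) + z.f (t * (x.a * y.a)) =
      x.f t + (y.f (t * x.a) + z.f (t * x.a * y.a))
    rw [add_assoc, mul_assoc]
  one_mul x := by
    refine Wr.ext (funext fun t => ?_) (one_mul _)
    change 0 + x.f (t * 1) = x.f t
    simp
  mul_one x := by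
    refine Wr.ext (funext fun t => ?_) (mul_one _)
    change x.f t + 0 = x.f t
    simp
  inv_mul_cancel x := by
    refine Wr.ext (funext fun t => ?_) (inv_mul_cancel _)
    change - x.f (t * x.a⁻¹) + x.f (t * x.a⁻¹) = 0
    simp

lemma Wr.mul_f {G M : Type} [Group G] [AddCommGroup M] (x y : Wr G M) (z : G) :
    (x * y).f z = x.f z + y.f (z * x.a) := rfl

lemma Wr.mul_a {G M : Type} [Group G] [AddCommGroup M] (x y : Wr G M) :
    (x * y).a = x.a * y.a := rfl

/-- The derivation trick. -/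
lemma exists_primitive {M : Type} [AddCommGroup M] (T : Set V) (v : V) (hv : v ∉ T)
    (μ : RAAG Γ → M) (hμ : ∀ g, ∀ w ∈ T, Γ.Adj v w → μ (g * gen Γ w) = μ g) :
    ∃ φ : RAAG Γ → M, (∀ g, ∀ w ∈ T, φ (g * gen Γ w) = φ g) ∧
      ∀ g, φ (g * gen Γ v) = φ g + μ g := by
  classical
  let f : V → Wr (RAAG Γ) M := fun w =>
    if w = v then ⟨μ, gen Γ v⟩ else if w ∈ T then ⟨0, gen Γ w⟩ else 1
  have hfv : f v = ⟨μ, gen Γ v⟩ := by simp [f]
  have hfT : ∀ w ∈ T, f w = ⟨0, gen Γ w⟩ := fun w hw => by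
    have : w ≠ v := fun h => hv (h ▸ hw)
    simp [f, this, hw]
  have hfo : ∀ w, w ≠ v → w ∉ T → f w = 1 := fun w h1 h2 => by simp [f, h1, h2]
  have key : ∀ w, Γ.Adj v w → f v * f w = f w * f v := by
    intro w h
    by_cases hw : w ∈ T
    · rw [hfv, hfT w hw]
      refine Wr.ext (funext fun t => ?_) (gen_comm Γ h)
      simp [Wr.mul_f, hμ t w hw h]
    · rw [hfo w h.ne' hw]; simp
  obtain ⟨Φ, hΦ⟩ := exists_hom Γ f (by
    intro u w h
    by_cases hu : u = v
    · subst hu; exact key w h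
    by_cases hw : w = v
    · subst hw; exact (key u h.symm).symm
    by_cases huT : u ∈ T
    · by_cases hwT : w ∈ T
      · rw [hfT u huT, hfT w hwT]
        refine Wr.ext (funext fun t => ?_) (gen_comm Γ h)
        simp [Wr.mul_f]
      · rw [hfo w hw hwT]; simp
    · rw [hfo u hu huT]; simp)
  refine ⟨fun g => (Φ g).f (g * (Φ g).a⁻¹), fun g w hw => ?_, fun g => ?_⟩
  · simp only [map_mul, hΦ, hfT w hw, Wr.mul_f, Wr.mul_a]
    simp [mul_assoc]
  · simp only [map_mul, hΦ, hfv, Wr.mul_f, Wr.mul_a]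
    simp [mul_assoc]

/-- A function invariant under right multiplication by the generators is constant. -/
lemma const_of_gen {M : Type} (μ : RAAG Γ → M) (hμ : ∀ g w, μ (g * gen Γ w) = μ g) (g : RAAG Γ) :
    μ g = μ 1 := by
  let H : Subgroup (RAAG Γ) :=
    { carrier := {h | ∀ g, μ (g * h) = μ g}
      mul_mem' := fun {a b} ha hb g => by rw [← mul_assoc, hb, ha]
      one_mem' := fun g => by rw [mul_one]
      inv_mem' := fun {a} ha g => by rw [← ha (g * a⁻¹)]; simp }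
  have := PresentedGroup.generated_by _ H (fun w g => hμ g w) g 1
  simpa using this

end Grp

/-! ### The ungraded complex -/

variable {V : Type} [LinearOrder V] (Γ : SimpleGraph V)

/-- Cells with an arbitrary finite set of vertices. -/
abbrev UC : Type := RAAG Γ × Finset V

/-- The boundary on all cells. -/
noncomputable def uD : (UC Γ →₀ ℤ) →ₗ[ℤ] (UC Γ →₀ ℤ) :=
  linearCombination ℤ fun c => ∑ w ∈ c.2, sgn c.2 w •
    (single (c.1 * gen Γ w, c.2.erase w) 1 - single (c.1, c.2.erase w) 1)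

lemma uD_single (g : RAAG Γ) (A : Finset V) :
    uD Γ (single (g, A) 1) = ∑ w ∈ A, sgn A w •
      (single (g * gen Γ w, A.erase w) 1 - single (g, A.erase w) 1) := by
  simp [uD]

/-- Adding a vertex. -/
noncomputable def cone (v : V) : (UC Γ →₀ ℤ) →ₗ[ℤ] (UC Γ →₀ ℤ) :=
  lmapDomain ℤ ℤ fun c => (c.1, insert v c.2)

/-- Right translation by a generator. -/
noncomputable def rt (v : V) : (UC Γ →₀ ℤ) →ₗ[ℤ] (UC Γ →₀ ℤ) :=
  lmapDomain ℤ ℤ fun c => (c.1 * gen Γ v, c.2)

/-- Removing a vertex. -/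
noncomputable def uncone (v : V) : (UC Γ →₀ ℤ) →ₗ[ℤ] (UC Γ →₀ ℤ) :=
  linearCombination ℤ fun c => if v ∈ c.2 then single (c.1, c.2.erase v) 1 else 0

@[simp] lemma cone_single (v : V) (g : RAAG Γ) (A : Finset V) :
    cone Γ v (single (g, A) 1) = single (g, insert v A) 1 := by simp [cone]

@[simp] lemma rt_single (v : V) (g : RAAG Γ) (A : Finset V) :
    rt Γ v (single (g, A) 1) = single (g * gen Γ v, A) 1 := by simp [rt]

lemma uncone_single (v : V) (g : RAAG Γ) (A : Finset V) :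
    uncone Γ v (single (g, A) 1) = if v ∈ A then single (g, A.erase v) 1 else 0 := by
  simp [uncone]

/-- Chains of `p`-cliques inside `T`. -/
def S (T : Finset V) (p : ℕ) : Submodule ℤ (UC Γ →₀ ℤ) :=
  supported ℤ ℤ {c | c.2 ⊆ T ∧ Γ.IsNClique p c.2}

variable {Γ}

lemma single_mem_S {T : Finset V} {p : ℕ} (g : RAAG Γ) {A : Finset V} (h1 : A ⊆ T)
    (h2 : Γ.IsNClique p A) : single (g, A) 1 ∈ S Γ T p :=
  single_mem_supported ℤ 1 ⟨h1, h2⟩

lemma S_mono {T T' : Finset V} (h : T ⊆ T') (p : ℕ) : S Γ T p ≤ S Γ T' p :=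
  supported_mono fun _ hc => ⟨hc.1.trans h, hc.2⟩

lemma S_le {T : Finset V} {p : ℕ} {N : Submodule ℤ (UC Γ →₀ ℤ)}
    (h : ∀ g A, A ⊆ T → Γ.IsNClique p A → single (g, A) 1 ∈ N) : S Γ T p ≤ N := by
  rw [S, supported_eq_span_single, Submodule.span_le]
  rintro _ ⟨⟨g, A⟩, hc, rfl⟩
  exact h g A hc.1 hc.2

lemma S_ext {T : Finset V} {p : ℕ} {M : Type} [AddCommGroup M] (f f' : (UC Γ →₀ ℤ) →ₗ[ℤ] M)
    (h : ∀ g A, A ⊆ T → Γ.IsNClique p A → f (single (g, A) 1) = f' (single (g, A) 1))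
    {c : UC Γ →₀ ℤ} (hc : c ∈ S Γ T p) : f c = f' c :=
  S_le (N := LinearMap.eqLocus f f') h hc

lemma S_map {T : Finset V} {p : ℕ} {M : Type} [AddCommGroup M] (f : (UC Γ →₀ ℤ) →ₗ[ℤ] M)
    (N : Submodule ℤ M) (h : ∀ g A, A ⊆ T → Γ.IsNClique p A → f (single (g, A) 1) ∈ N)
    {c : UC Γ →₀ ℤ} (hc : c ∈ S Γ T p) : f c ∈ N :=
  S_le (N := N.comap f) h hc

lemma erase_clique {p : ℕ} {A : Finset V} (h : Γ.IsNClique (p + 1) A) {w : V} (hw : w ∈ A) :
    Γ.IsNClique p (A.erase w) :=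
  ⟨h.1.subset (by simp), by rw [Finset.card_erase_of_mem hw, h.2]; rfl⟩

lemma uD_mem {T : Finset V} {p : ℕ} {c : UC Γ →₀ ℤ} (hc : c ∈ S Γ T (p + 1)) :
    uD Γ c ∈ S Γ T p := by
  refine S_map _ _ (fun g A h1 h2 => ?_) hc
  rw [uD_single]
  refine Submodule.sum_mem _ fun w hw => Submodule.smul_mem _ _ (Submodule.sub_mem _ ?_ ?_) <;>
  exact single_mem_S _ ((Finset.erase_subset _ _).trans h1) (erase_clique h2 hw)

lemma uD_zero {T : Finset V} {c : UC Γ →₀ ℤ} (hc : c ∈ S Γ T 0) : uD Γ c = 0 := by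
  refine S_ext (uD Γ) 0 (fun g A _ h2 => ?_) hc
  obtain rfl : A = ∅ := Finset.card_eq_zero.1 h2.2
  simp [uD_single]

lemma rt_mem {T : Finset V} {p : ℕ} (v : V) {c : UC Γ →₀ ℤ} (hc : c ∈ S Γ T p) :
    rt Γ v c ∈ S Γ T p :=
  S_map _ _ (fun g A h1 h2 => by rw [rt_single]; exact single_mem_S _ h1 h2) hc

lemma cone_mem {L : Finset V} {p : ℕ} {v : V} (hL : ∀ w ∈ L, Γ.Adj v w) {c : UC Γ →₀ ℤ}
    (hc : c ∈ S Γ L p) : cone Γ v c ∈ S Γ (insert v L) (p + 1) := by
  refine S_map _ _ (fun g A h1 h2 => ?_) hc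
  rw [cone_single]
  exact single_mem_S _ (Finset.insert_subset_insert _ h1) (h2.insert fun w hw => hL w (h1 hw))

lemma uD_cone {L : Finset V} {p : ℕ} {v : V} (hL : ∀ w ∈ L, v < w) {c : UC Γ →₀ ℤ}
    (hc : c ∈ S Γ L p) : uD Γ (cone Γ v c) = rt Γ v c - c - cone Γ v (uD Γ c) := by
  refine S_ext (uD Γ ∘ₗ cone Γ v) (rt Γ v - LinearMap.id - cone Γ v ∘ₗ uD Γ)
    (fun g A h1 _ => ?_) hc
  have hvA : v ∉ A := fun h => lt_irrefl _ (hL v (h1 h))
  have hs : sgn (insert v A) v = 1 := by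
    have : (insert v A).filter (· < v) = ∅ := by
      refine Finset.filter_eq_empty_iff.2 fun w hw => ?_
      rcases Finset.mem_insert.1 hw with rfl | hw
      · exact lt_irrefl _
      · exact (hL w (h1 hw)).not_gt
    simp [sgn, this]
  have hs' : ∀ w ∈ A, sgn (insert v A) w = - sgn A w := by
    intro w hw
    have : (insert v A).filter (· < w) = insert v (A.filter (· < w)) := by
      rw [Finset.filter_insert, if_pos (hL w (h1 hw))]
    rw [sgn, sgn, this, Finset.card_insert_of_notMem (by simp [hvA]), pow_succ]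
    ring
  simp only [LinearMap.comp_apply, LinearMap.sub_apply, LinearMap.id_apply, cone_single,
    rt_single, uD_single, Finset.sum_insert hvA, hs, one_smul, Finset.erase_insert hvA, map_sum,
    map_smul, map_sub]
  rw [sub_eq_add_neg (_ - _), ← Finset.sum_neg_distrib]
  congr 1
  refine Finset.sum_congr rfl fun w hw => ?_
  have hne : v ≠ w := (hL w (h1 hw)).ne
  rw [hs' w hw, neg_smul, Finset.erase_insert_of_ne hne]

lemma uD_rt {L : Finset V} {p : ℕ} {v : V} (hL : ∀ w ∈ L, Γ.Adj v w) {c : UC Γ →₀ ℤ}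
    (hc : c ∈ S Γ L p) : uD Γ (rt Γ v c) = rt Γ v (uD Γ c) := by
  refine S_ext (uD Γ ∘ₗ rt Γ v) (rt Γ v ∘ₗ uD Γ) (fun g A h1 _ => ?_) hc
  simp only [LinearMap.comp_apply, rt_single, uD_single, map_sum, map_smul, map_sub]
  refine Finset.sum_congr rfl fun w hw => ?_
  rw [mul_assoc, mul_assoc, gen_comm Γ (hL w (h1 hw))]

lemma uncone_cone {L : Finset V} {p : ℕ} {v : V} (hL : v ∉ L) {c : UC Γ →₀ ℤ}
    (hc : c ∈ S Γ L p) : uncone Γ v (cone Γ v c) = c := by
  refine S_ext (uncone Γ v ∘ₗ cone Γ v) LinearMap.id (fun g A h1 _ => ?_) hc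
  have hvA : v ∉ A := fun h => hL (h1 h)
  simp [uncone_single, Finset.erase_insert hvA]

lemma uncone_zero {L : Finset V} {p : ℕ} {v : V} (hL : v ∉ L) {c : UC Γ →₀ ℤ}
    (hc : c ∈ S Γ L p) : uncone Γ v c = 0 := by
  refine S_ext (uncone Γ v) 0 (fun g A h1 _ => ?_) hc
  have hvA : v ∉ A := fun h => hL (h1 h)
  simp [uncone_single, hvA]

open Classical in
lemma decomp {T : Finset V} {p : ℕ} (v : V) {c : UC Γ →₀ ℤ} (hc : c ∈ S Γ T (p + 1)) :
    ∃ c' ∈ S Γ (T.erase v) (p + 1), ∃ c'' ∈ S Γ ((T.erase v).filter (Γ.Adj v)) p,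
      c = c' + cone Γ v c'' := by
  have : c ∈ S Γ (T.erase v) (p + 1) ⊔
      (S Γ ((T.erase v).filter (Γ.Adj v)) p).map (cone Γ v) := by
    refine S_le (fun g A h1 h2 => ?_) hc
    by_cases hv : v ∈ A
    · refine Submodule.mem_sup_right ⟨single (g, A.erase v) 1, ?_, ?_⟩
      · refine single_mem_S _ (fun w hw => ?_) (erase_clique h2 hv)
        rw [Finset.mem_erase] at hw
        exact Finset.mem_filter.2 ⟨Finset.mem_erase.2 ⟨hw.1, h1 hw.2⟩, h2.1 hv hw.2 hw.1.symm⟩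
      · rw [cone_single, Finset.insert_erase hv]
    · exact Submodule.mem_sup_left (single_mem_S _ (Finset.subset_erase.2 ⟨h1, hv⟩) h2)
  obtain ⟨c', h', _, ⟨c'', h'', rfl⟩, h⟩ := Submodule.mem_sup.1 this
  exact ⟨c', h', c'', h'', h.symm⟩

lemma uD_uD (p : ℕ) : ∀ {T : Finset V} {c : UC Γ →₀ ℤ}, c ∈ S Γ T p → uD Γ (uD Γ c) = 0 := by
  induction p with
  | zero => intro T c hc; rw [uD_zero hc, map_zero]
  | succ p ih =>
    intro T c hc
    refine S_ext (uD Γ ∘ₗ uD Γ) 0 (fun g A _ h2 => ?_) hc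
    have hne : A.Nonempty := Finset.card_pos.1 (by rw [h2.2]; omega)
    set v := A.min' hne with hv
    have hvA : v ∈ A := A.min'_mem hne
    have hlt : ∀ w ∈ A.erase v, v < w := fun w hw =>
      lt_of_le_of_ne (A.min'_le w (Finset.mem_of_mem_erase hw)) (Finset.ne_of_mem_erase hw).symm
    have hadj : ∀ w ∈ A.erase v, Γ.Adj v w := fun w hw =>
      h2.1 hvA (Finset.mem_of_mem_erase hw) (Finset.ne_of_mem_erase hw).symm
    have hB : single (g, A.erase v) 1 ∈ S Γ (A.erase v) p :=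
      single_mem_S _ subset_rfl (erase_clique h2 hvA)
    have he : single (g, A) 1 = cone Γ v (single (g, A.erase v) 1) := by
      rw [cone_single, Finset.insert_erase hvA]
    have h3 : uD Γ (cone Γ v (uD Γ (single (g, A.erase v) 1))) =
        rt Γ v (uD Γ (single (g, A.erase v) 1)) - uD Γ (single (g, A.erase v) 1) := by
      cases p with
      | zero => simp [uD_zero hB]
      | succ q => rw [uD_cone hlt (uD_mem hB), ih hB, map_zero, sub_zero]
    rw [LinearMap.comp_apply, he, uD_cone hlt hB, map_sub, map_sub, uD_rt hadj hB, h3]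
    simp

/-- The injectivity step in degree zero. -/
lemma zero_step {T L : Finset V} {v : V} (hv : v ∉ T) (hL : ∀ w ∈ T, Γ.Adj v w → w ∈ L)
    {c' c'' : UC Γ →₀ ℤ} (h' : c' ∈ S Γ T 1) (h'' : c'' ∈ S Γ L 0)
    (h : uD Γ c' + (rt Γ v c'' - c'') = 0) : ∃ b ∈ S Γ L 1, uD Γ b = c'' := by
  let N : Submodule ℤ (UC Γ →₀ ℤ) := (S Γ L 1).map (uD Γ)
  obtain ⟨φ, hφ1, hφ2⟩ := exists_primitive Γ (T : Set V) v hv
    (fun g => N.mkQ (single (g, ∅) 1)) (by
      intro g w hw hadj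
      rw [← sub_eq_zero, ← map_sub, Submodule.mkQ_apply, Submodule.Quotient.mk_eq_zero]
      refine ⟨single (g, {w}) 1, single_mem_S _ (by simpa using hL w hw hadj) ?_, ?_⟩
      · simp
      · simp [uD_single, sgn, Finset.filter_singleton])
  let Φ : (UC Γ →₀ ℤ) →ₗ[ℤ] (UC Γ →₀ ℤ) ⧸ N := linearCombination ℤ fun c => φ c.1
  have hΦ : ∀ g A, Φ (single (g, A) 1) = φ g := fun g A => by simp [Φ]
  have e1 : Φ (uD Γ c') = 0 := by
    refine S_ext (Φ ∘ₗ uD Γ) 0 (fun g A h1 _ => ?_) h'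
    simp only [LinearMap.comp_apply, uD_single, map_sum, map_smul, map_sub, hΦ,
      LinearMap.zero_apply]
    refine Finset.sum_eq_zero fun w hw => ?_
    rw [hφ1 g w (h1 hw), sub_self, smul_zero]
  have e2 : Φ (rt Γ v c'' - c'') = N.mkQ c'' := by
    have := S_ext (Φ ∘ₗ rt Γ v) (Φ + N.mkQ) (fun g A _ h2 => by
      obtain rfl : A = ∅ := Finset.card_eq_zero.1 h2.2
      rw [LinearMap.comp_apply, LinearMap.add_apply, rt_single, hΦ, hΦ, hφ2]) h''
    rw [LinearMap.comp_apply, LinearMap.add_apply] at this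
    rw [map_sub, this, add_sub_cancel_left]
  have e3 : N.mkQ c'' = 0 := by
    have := congrArg Φ h
    rwa [map_add, e1, e2, zero_add, map_zero] at this
  exact (Submodule.Quotient.mk_eq_zero _).1 e3

theorem u_exact (T : Finset V) : ∀ (p : ℕ) (c : UC Γ →₀ ℤ), c ∈ S Γ T (p + 1) → uD Γ c = 0 →
    ∃ b ∈ S Γ T (p + 2), uD Γ b = c := by
  classical
  induction T using Finset.strongInduction with
  | H T ih =>
    intro p c hc hD
    rcases T.eq_empty_or_nonempty with rfl | hne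
    · have : c = 0 := by
        refine S_ext LinearMap.id 0 (fun g A h1 h2 => ?_) hc
        have := h2.2
        rw [Finset.subset_empty.1 h1] at this
        simp at this
      exact ⟨0, Submodule.zero_mem _, by simp [this]⟩
    set v := T.min' hne with hv
    have hvT : v ∈ T := T.min'_mem hne
    set T' := T.erase v with hT'
    set L := T'.filter (Γ.Adj v) with hLdef
    have hLT : L ⊆ T' := Finset.filter_subset _ _
    have hlt : ∀ w ∈ L, v < w := fun w hw =>
      lt_of_le_of_ne (T.min'_le w (Finset.mem_of_mem_erase (hLT hw)))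
        (Finset.ne_of_mem_erase (hLT hw)).symm
    have hadj : ∀ w ∈ L, Γ.Adj v w := fun w hw => (Finset.mem_filter.1 hw).2
    have hvT' : v ∉ T' := Finset.notMem_erase _ _
    have hvL : v ∉ L := fun h => hvT' (hLT h)
    have hss : T' ⊂ T := Finset.erase_ssubset hvT
    have hins : insert v L ⊆ T :=
      Finset.insert_subset hvT (hLT.trans (Finset.erase_subset _ _))
    obtain ⟨c', h', c'', h'', rfl⟩ := decomp v hc
    rw [map_add, uD_cone hlt h''] at hD
    have hx : uD Γ c' + (rt Γ v c'' - c'') ∈ S Γ T' p :=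
      Submodule.add_mem _ (uD_mem h') (S_mono hLT p (Submodule.sub_mem _ (rt_mem v h'') h''))
    obtain ⟨b'', hb'', hbc⟩ : ∃ b ∈ S Γ L (p + 1), uD Γ b = c'' := by
      cases p with
      | zero =>
        rw [uD_zero h'', map_zero, sub_zero] at hD
        exact zero_step hvT' (fun w hw ha => Finset.mem_filter.2 ⟨hw, ha⟩) h' h'' hD
      | succ q =>
        refine ih L (Finset.ssubset_of_subset_of_ssubset hLT hss) q c'' h'' ?_
        have := congrArg (uncone Γ v) hD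
        rw [← add_sub_assoc, map_sub, uncone_zero hvT' hx, uncone_cone hvL (uD_mem h''),
          map_zero] at this
        simpa using this
    have hcb : cone Γ v b'' ∈ S Γ T (p + 2) := S_mono hins _ (cone_mem hadj hb'')
    have hy : c' + (rt Γ v b'' - b'') ∈ S Γ T' (p + 1) :=
      Submodule.add_mem _ h' (S_mono hLT _ (Submodule.sub_mem _ (rt_mem v hb'') hb''))
    have hDc'' : uD Γ c'' = 0 := by rw [← hbc]; exact uD_uD _ hb''
    obtain ⟨b', hb', hb'c⟩ := ih T' hss p _ hy (by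
      rw [hDc'', map_zero, sub_zero] at hD
      rw [map_add, map_sub, uD_rt hadj hb'', hbc, hD])
    refine ⟨b' - cone Γ v b'', Submodule.sub_mem _ (S_mono hss.subset _ hb') hcb, ?_⟩
    rw [map_sub, hb'c, uD_cone hlt hb'', hbc]
    abel

/-! ### Transfer to the graded complex -/

variable (Γ) in
/-- The embedding of the graded pieces. -/
noncomputable def emb (p : ℕ) : (SCell Γ p →₀ ℤ) →ₗ[ℤ] (UC Γ →₀ ℤ) :=
  lmapDomain ℤ ℤ fun c => (c.g, c.A.1)

lemma emb_single {p : ℕ} (c : SCell Γ p) : emb Γ p (single c 1) = single (c.g, c.A.1) 1 := by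
  simp [emb]

lemma emb_injective (p : ℕ) : Function.Injective (emb Γ p) := by
  refine mapDomain_injective ?_
  rintro ⟨g, A⟩ ⟨g', A'⟩ h
  simp only [Prod.mk.injEq] at h
  rw [h.1, Subtype.ext h.2]

lemma emb_salD (p : ℕ) (c : SCell Γ (p + 1) →₀ ℤ) :
    emb Γ p (salD Γ p c) = uD Γ (emb Γ (p + 1) c) := by
  have : emb Γ p ∘ₗ salD Γ p = uD Γ ∘ₗ emb Γ (p + 1) := by
    refine lhom_ext' fun a => LinearMap.ext_ring ?_
    simp only [LinearMap.comp_apply, lsingle_apply, emb_single, uD_single, salD,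
      linearCombination_single, one_smul, map_sum, map_smul, map_sub]
    exact Finset.sum_coe_sort a.A.1 fun w => sgn a.A.1 w •
      (single (a.g * gen Γ w, a.A.1.erase w) (1 : ℤ) - single (a.g, a.A.1.erase w) 1)
  exact LinearMap.congr_fun this c

lemma emb_mem {p : ℕ} (c : SCell Γ p →₀ ℤ) : ∃ T, emb Γ p c ∈ S Γ T p := by
  classical
  refine ⟨c.support.biUnion fun a => a.A.1, ?_⟩
  intro x hx
  obtain ⟨a, ha, rfl⟩ := Finset.mem_image.1 (mapDomain_support hx)
  exact ⟨Finset.subset_biUnion_of_mem (fun a : SCell Γ p => a.A.1) ha, a.A.2⟩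

lemma exists_emb {T : Finset V} {p : ℕ} {b : UC Γ →₀ ℤ} (hb : b ∈ S Γ T p) :
    ∃ c, emb Γ p c = b :=
  S_le (N := LinearMap.range (emb Γ p))
    (fun g A _ h2 => ⟨single ⟨g, ⟨A, h2⟩⟩ 1, emb_single _⟩) hb

end Salv

open Salv

variable {V : Type} [LinearOrder V] (Γ : SimpleGraph V)

theorem salε_salD (c : SCell Γ 1 →₀ ℤ) : salε Γ (salD Γ 0 c) = 0 := by
  have : salε Γ ∘ₗ salD Γ 0 = 0 := by
    refine Finsupp.lhom_ext' fun a => LinearMap.ext_ring ?_
    simp [salD, salε]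
  exact LinearMap.congr_fun this c

theorem salD_salD (p : ℕ) (c : SCell Γ (p + 2) →₀ ℤ) : salD Γ p (salD Γ (p + 1) c) = 0 := by
  apply emb_injective p
  obtain ⟨T, hT⟩ := emb_mem c
  rw [emb_salD, emb_salD, uD_uD _ hT, map_zero]

theorem sal_exact_zero (c : SCell Γ 0 →₀ ℤ) (hc : salε Γ c = 0) : ∃ b, salD Γ 0 b = c := by
  let N : Submodule ℤ (SCell Γ 0 →₀ ℤ) := LinearMap.range (salD Γ 0)
  let E : Cl Γ 0 := ⟨∅, by simp⟩
  have hE : ∀ A : Cl Γ 0, A = E := fun A => Subtype.ext (Finset.card_eq_zero.1 A.2.2)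
  have hμ := const_of_gen Γ (fun g => N.mkQ (Finsupp.single ⟨g, E⟩ 1)) (by
    intro g w
    rw [← sub_eq_zero, ← map_sub, Submodule.mkQ_apply, Submodule.Quotient.mk_eq_zero]
    refine ⟨Finsupp.single ⟨g, ⟨{w}, by simp⟩⟩ 1, ?_⟩
    rw [salD, Finsupp.linearCombination_single, one_smul,
      Fintype.sum_subsingleton _ ⟨w, Finset.mem_singleton_self w⟩, hE (Cl.erase _ _ _)]
    simp [sgn, Finset.filter_singleton])
  have key : N.mkQ = (LinearMap.toSpanSingleton ℤ _ (N.mkQ (Finsupp.single ⟨1, E⟩ 1))) ∘ₗ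
      salε Γ := by
    refine Finsupp.lhom_ext' fun a => LinearMap.ext_ring ?_
    obtain ⟨g, A⟩ := a
    rw [hE A]
    simpa [salε] using hμ g
  have : N.mkQ c = 0 := by rw [key, LinearMap.comp_apply, hc, map_zero]
  exact (Submodule.Quotient.mk_eq_zero _).1 this

theorem sal_exact_succ (p : ℕ) (c : SCell Γ (p + 1) →₀ ℤ) (hc : salD Γ p c = 0) :
    ∃ b, salD Γ (p + 1) b = c := by
  obtain ⟨T, hT⟩ := emb_mem c
  obtain ⟨b, hb, hbc⟩ := u_exact T p _ hT (by rw [← emb_salD, hc, map_zero])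
  obtain ⟨b', rfl⟩ := exists_emb hb
  exact ⟨b', emb_injective _ (by rw [emb_salD, hbc])⟩

end Pool.Agent.MP_4f4d9f_gt
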