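import Pool.Agent.MP_4f4d9f_gt.Iface

/-! Elementary properties of singular chains. -/

namespace Pool.Agent.MP_4f4d9f_gt

open Finsupp

variable (R : Type) [Ring R] {X Y Z : Type} [TopologicalSpace X] [TopologicalSpace Y]
  [TopologicalSpace Z]

theorem bd_apply (k : ℕ) (c : Sing X (k + 1) →₀ R) :
    bd R X k c = ∑ i : Fin (k + 2), (-1 : ℤ) ^ (i : ℕ) • mapDomain (face i) c := by
  simp only [bd, LinearMap.sum_apply, LinearMap.smul_apply, lmapDomain_apply]

theorem bd_single (k : ℕ) (σ : Sing X (k + 1)) (a : R) :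
    bd R X k (single σ a) = ∑ i : Fin (k + 2), (-1 : ℤ) ^ (i : ℕ) • single (face i σ) a := by
  simp only [bd_apply, mapDomain_single]

theorem push_single (f : C(X, Y)) (k : ℕ) (σ : Sing X k) (a : R) :
    push R f k (single σ a) = single (f.comp σ) a := by
  simp only [push, lmapDomain_apply, mapDomain_single]

theorem aug_single (σ : Sing X 0) (a : R) : aug R X (single σ a) = a := by
  simp [aug]

theorem face_comp (f : C(X, Y)) {k : ℕ} (i : Fin (k + 2)) (σ : Sing X (k + 1)) :
    face i (f.comp σ) = f.comp (face i σ) := rfl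

theorem face_face {k : ℕ} (σ : Sing X (k + 2)) (i : Fin (k + 3)) (j : Fin (k + 2)) :
    face j (face i σ) = face (j.predAbove i) (face (i.succAbove j) σ) := by
  ext t
  simp only [face, ContinuousMap.comp_apply, ContinuousMap.coe_mk, stdSimplex.map_comp_apply]
  congr 2
  funext m
  exact (Fin.succAbove_succAbove_succAbove_predAbove i j m).symm

theorem bd_bd (k : ℕ) (c : Sing X (k + 2) →₀ R) : bd R X k (bd R X (k + 1) c) = 0 := by
  induction c using Finsupp.induction_linear with
  | zero => simp
  | add a b ha hb => simp [ha, hb]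
  | single σ a =>
    simp only [bd_single, map_sum, map_zsmul, Finset.smul_sum, smul_smul]
    rw [← Finset.sum_product']
    refine Finset.sum_involution (fun p _ => (p.1.succAbove p.2, p.2.predAbove p.1))
      ?_ ?_ (fun _ _ => by simp) ?_
    · rintro ⟨i, j⟩ -
      dsimp only
      rw [← face_face, ← add_smul]
      convert zero_smul ℤ _
      have := Fin.neg_one_pow_succAbove_add_predAbove (R := ℤ) i j
      rw [← pow_add, ← pow_add, this]
      ring
    · rintro ⟨i, j⟩ - - h
      exact Fin.succAbove_ne i j (congrArg Prod.fst h)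
    · rintro ⟨i, j⟩ -
      exact Prod.ext (Fin.succAbove_succAbove_predAbove i j) (Fin.predAbove_predAbove_succAbove i j)

theorem aug_bd (c : Sing X 1 →₀ R) : aug R X (bd R X 0 c) = 0 := by
  induction c using Finsupp.induction_linear with
  | zero => simp
  | add a b ha hb => simp [ha, hb]
  | single σ a =>
    simp only [bd_single, map_sum, map_zsmul, aug_single]
    simp [Fin.sum_univ_two]

theorem bd_push (f : C(X, Y)) (k : ℕ) (c : Sing X (k + 1) →₀ R) :
    bd R Y k (push R f (k + 1) c) = push R f k (bd R X k c) := by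
  induction c using Finsupp.induction_linear with
  | zero => simp
  | add a b ha hb => simp [ha, hb]
  | single σ a => simp only [push_single, bd_single, map_sum, map_zsmul, face_comp]

theorem aug_push (f : C(X, Y)) (c : Sing X 0 →₀ R) : aug R Y (push R f 0 c) = aug R X c := by
  induction c using Finsupp.induction_linear with
  | zero => simp
  | add a b ha hb => simp [ha, hb]
  | single σ a => simp only [push_single, aug_single]

theorem push_push (g : C(Y, Z)) (f : C(X, Y)) (k : ℕ) (c : Sing X k →₀ R) :
    push R g k (push R f k c) = push R (g.comp f) k c := by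
  simp only [push, lmapDomain_apply, ← mapDomain_comp]
  rfl

theorem push_id (k : ℕ) (c : Sing X k →₀ R) : push R (ContinuousMap.id X) k c = c := by
  simp only [push, lmapDomain_apply]
  exact mapDomain_id

theorem swp_swp (k : ℕ) (c : Sing (X × X) k →₀ R) : swp R X k (swp R X k c) = c := by
  rw [swp, push_push]
  exact push_id R k c

theorem bd_swp (k : ℕ) (c : Sing (X × X) (k + 1) →₀ R) :
    bd R (X × X) k (swp R X (k + 1) c) = swp R X k (bd R (X × X) k c) := bd_push R _ k c

theorem aug_swp (c : Sing (X × X) 0 →₀ R) : aug R (X × X) (swp R X 0 c) = aug R (X × X) c :=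
  aug_push R _ c

variable {R}

theorem mem_supp {A : Set X} {k : ℕ} {c : Sing X k →₀ R} :
    c ∈ supp R A k ↔ ∀ σ ∈ c.support, ∀ t, σ t ∈ A := by
  simp only [supp, mem_supported, Set.subset_def, Finset.mem_coe, Set.mem_setOf_eq, Set.mem_range,
    forall_exists_index, forall_apply_eq_imp_iff]

theorem single_mem_supp {A : Set X} {k : ℕ} {σ : Sing X k} (a : R) (h : ∀ t, σ t ∈ A) :
    single σ a ∈ supp R A k :=
  single_mem_supported R a (by rintro _ ⟨t, rfl⟩; exact h t)

/-- Induction on chains supported in `A`. -/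
theorem supp_induction {A : Set X} {k : ℕ} {P : (Sing X k →₀ R) → Prop} (h0 : P 0)
    (hadd : ∀ a b, P a → P b → P (a + b))
    (h1 : ∀ (σ : Sing X k) (a : R), (∀ t, σ t ∈ A) → P (single σ a))
    {c : Sing X k →₀ R} (hc : c ∈ supp R A k) : P c := by
  rw [← c.sum_single, Finsupp.sum]
  exact Finset.sum_induction _ P hadd h0 fun σ hσ => h1 σ _ (mem_supp.1 hc σ hσ)

theorem supp_mono {A B : Set X} (h : A ⊆ B) (k : ℕ) : supp R A k ≤ supp R B k :=
  supported_mono fun _ hσ => Set.Subset.trans hσ h

theorem supp_inter (A B : Set X) (k : ℕ) : supp R (A ∩ B) k = supp R A k ⊓ supp R B k := by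
  ext c
  simp only [Submodule.mem_inf, mem_supp, Set.mem_inter_iff, forall_and]

theorem mem_supp_univ {k : ℕ} (c : Sing X k →₀ R) : c ∈ supp R Set.univ k :=
  mem_supp.2 fun _ _ _ => trivial

theorem eq_zero_of_mem_supp_empty {k : ℕ} {c : Sing X k →₀ R} (h : c ∈ supp R ∅ k) : c = 0 := by
  rw [← support_eq_empty, Finset.eq_empty_iff_forall_notMem]
  exact fun σ hσ => mem_supp.1 h σ hσ (Classical.arbitrary _)

theorem bd_mem_supp {A : Set X} {k : ℕ} {c : Sing X (k + 1) →₀ R} (h : c ∈ supp R A (k + 1)) :
    bd R X k c ∈ supp R A k := by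
  refine supp_induction (P := fun c => bd R X k c ∈ supp R A k) (by simp)
    (fun a b ha hb => by simpa using add_mem ha hb) (fun σ a hσ => ?_) h
  rw [bd_single]
  exact sum_mem fun i _ => zsmul_mem (single_mem_supp (σ := face i σ) a fun t => hσ _) _

theorem push_mem_supp (f : C(X, Y)) {A : Set X} {B : Set Y} (hf : Set.MapsTo f A B) {k : ℕ}
    {c : Sing X k →₀ R} (h : c ∈ supp R A k) : push R f k c ∈ supp R B k := by
  refine supp_induction (P := fun c => push R f k c ∈ supp R B k) (by simp)
    (fun a b ha hb => by simpa using add_mem ha hb) (fun σ a hσ => ?_) h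
  rw [push_single]
  exact single_mem_supp a fun t => hf (hσ t)

theorem swp_mem_supp {A B : Set (X × X)} (hAB : ∀ y ∈ A, Prod.swap y ∈ B) {k : ℕ}
    {c : Sing (X × X) k →₀ R} (h : c ∈ supp R A k) : swp R X k c ∈ supp R B k :=
  push_mem_supp _ (fun y hy => hAB y hy) h

/-- A chain is carried by a compact set. -/
theorem exists_compact_supp {A : Set X} {k : ℕ} {c : Sing X k →₀ R} (h : c ∈ supp R A k) :
    ∃ K, IsCompact K ∧ K ⊆ A ∧ c ∈ supp R K k := by
  refine ⟨⋃ σ ∈ c.support, Set.range σ,
    c.support.isCompact_biUnion fun σ _ => isCompact_range σ.continuous, ?_, ?_⟩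
  · simp only [Set.iUnion_subset_iff]
    rintro σ hσ _ ⟨t, rfl⟩
    exact mem_supp.1 h σ hσ t
  · exact mem_supp.2 fun σ hσ t => Set.mem_biUnion hσ ⟨t, rfl⟩

/-- A `0`-chain in `A ∪ B` is the sum of a `0`-chain in `A` and a `0`-chain in `B`. -/
theorem supp_union_zero (A B : Set X) : supp R (A ∪ B) 0 = supp R A 0 ⊔ supp R B 0 := by
  refine le_antisymm (fun c hc => ?_)
    (sup_le (supp_mono Set.subset_union_left 0) (supp_mono Set.subset_union_right 0))
  refine supp_induction (P := fun c => c ∈ supp R A 0 ⊔ supp R B 0) (zero_mem _)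
    (fun a b ha hb => add_mem ha hb) (fun σ a hσ => ?_) hc
  rcases hσ default with h | h
  · exact Submodule.mem_sup_left (single_mem_supp a fun t => by rwa [Subsingleton.elim t default])
  · exact Submodule.mem_sup_right (single_mem_supp a fun t => by rwa [Subsingleton.elim t default])

theorem push_injective (f : C(X, Y)) (hf : Function.Injective f) (k : ℕ) :
    Function.Injective (push R f k) :=
  mapDomain_injective fun _ _ h => ContinuousMap.ext fun t => hf (congrArg (· t) h)

/-- Chains supported in the range of an embedding come from the source. -/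
theorem exists_push_eq (f : C(X, Y)) (hf : Topology.IsEmbedding f) {A : Set X} {k : ℕ}
    {c : Sing Y k →₀ R} (h : c ∈ supp R (f '' A) k) : ∃ b ∈ supp R A k, push R f k b = c := by
  refine supp_induction (P := fun c => ∃ b ∈ supp R A k, push R f k b = c) ⟨0, zero_mem _, by simp⟩
    ?_ (fun σ a hσ => ?_) h
  · rintro _ _ ⟨a, ha, rfl⟩ ⟨b, hb, rfl⟩
    exact ⟨a + b, add_mem ha hb, by simp⟩
  · choose g hg hg' using hσ
    have hc : Continuous g := hf.continuous_iff.2 (by
      convert σ.continuous using 1
      exact funext hg')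
    refine ⟨single ⟨g, hc⟩ a, single_mem_supp a hg, ?_⟩
    rw [push_single]
    congr 1
    exact ContinuousMap.ext hg'

theorem SAcyc.image (f : C(X, Y)) (hf : Topology.IsEmbedding f) {A : Set X} (h : SAcyc R A) :
    SAcyc R (f '' A) where
  nonempty := h.nonempty.image f
  zero c hc h0 := by
    obtain ⟨b, hb, rfl⟩ := exists_push_eq f hf hc
    rw [aug_push] at h0
    obtain ⟨e, he, rfl⟩ := h.zero b hb h0
    exact ⟨push R f 1 e, push_mem_supp f (Set.mapsTo_image f A) he, bd_push R f 0 e⟩
  succ k c hc h0 := by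
    obtain ⟨b, hb, rfl⟩ := exists_push_eq f hf hc
    rw [bd_push] at h0
    obtain ⟨e, he, rfl⟩ := h.succ k b hb (push_injective f hf.injective k (by simpa using h0))
    exact ⟨push R f _ e, push_mem_supp f (Set.mapsTo_image f A) he, bd_push R f _ e⟩

theorem Acyclic.sacyc_univ (h : Acyclic R X) : SAcyc R (Set.univ : Set X) where
  nonempty := have := h.nonempty; Set.univ_nonempty
  zero c _ h0 := let ⟨b, hb⟩ := h.zero c h0; ⟨b, mem_supp_univ b, hb⟩
  succ k c _ h0 := let ⟨b, hb⟩ := h.succ k c h0; ⟨b, mem_supp_univ b, hb⟩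

theorem Acyclic.sacyc {A : Set X} (h : Acyclic R A) : SAcyc R A := by
  simpa using h.sacyc_univ.image ⟨Subtype.val, continuous_subtype_val⟩
    Topology.IsEmbedding.subtypeVal

end Pool.Agent.MP_4f4d9f_gt
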