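import Pool.Agent.MP_4f4d9f_gt.SingBasic

/-! The cone operator of a null-homotopy; contractible spaces are acyclic. -/

namespace Pool.Agent.MP_4f4d9f_gt

open Finsupp

/-- The standard simplex. -/
abbrev Sx (k : ℕ) : Type := stdSimplex ℝ (Fin (k + 1))

/-- The inclusion of the `i`-th face. -/
noncomputable def coface {k : ℕ} (i : Fin (k + 2)) : C(Sx k, Sx (k + 1)) :=
  ⟨stdSimplex.map i.succAbove, stdSimplex.continuous_map _⟩

theorem coface_same {k : ℕ} (i : Fin (k + 2)) (x : Sx k) : coface i x i = 0 := by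
  show FunOnFinite.linearMap ℝ ℝ i.succAbove x i = 0
  rw [FunOnFinite.linearMap_apply_apply]
  exact Finset.sum_eq_zero fun j hj => absurd (Finset.mem_filter.1 hj).2 (Fin.succAbove_ne i j)

theorem coface_succAbove {k : ℕ} (i : Fin (k + 2)) (x : Sx k) (j : Fin (k + 1)) :
    coface i x (i.succAbove j) = x j := by
  show FunOnFinite.linearMap ℝ ℝ i.succAbove x (i.succAbove j) = x j
  rw [FunOnFinite.linearMap_apply_apply]
  simp [Finset.filter_eq']

/-- The quotient map from the cylinder onto the cone. -/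
noncomputable def cyl (k : ℕ) : C(unitInterval × Sx k, Sx (k + 1)) where
  toFun p := ⟨Fin.cons (p.1 : ℝ) fun j => (1 - p.1) * p.2 j, by
    refine ⟨Fin.cases p.1.2.1 fun j => mul_nonneg (sub_nonneg.2 p.1.2.2) (stdSimplex.zero_le p.2 j), ?_⟩
    simp [Fin.sum_univ_succ (n := k + 1), ← Finset.mul_sum]⟩
  continuous_toFun := by
    refine Continuous.subtype_mk (continuous_pi fun j => ?_) _
    refine Fin.cases ?_ (fun j => ?_) j
    · simp only [Fin.cons_zero]; fun_prop
    · simp only [Fin.cons_succ]
      exact (continuous_const.sub (continuous_subtype_val.comp continuous_fst)).mul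
        ((continuous_apply j).comp (continuous_subtype_val.comp continuous_snd))

theorem cyl_zero {k : ℕ} (s : unitInterval) (y : Sx k) : cyl k (s, y) 0 = s := rfl

theorem cyl_succ {k : ℕ} (s : unitInterval) (y : Sx k) (j : Fin (k + 1)) :
    cyl k (s, y) j.succ = (1 - s) * y j := rfl

theorem cyl_surj (k : ℕ) : Function.Surjective (cyl k) := by
  intro x
  have hs : x 0 + ∑ j : Fin (k + 1), x j.succ = 1 := by
    rw [← Fin.sum_univ_succ]; exact stdSimplex.sum_eq_one x
  by_cases h : x 0 = 1
  · refine ⟨(1, Classical.arbitrary _), stdSimplex.ext (funext fun j => ?_)⟩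
    refine Fin.cases ?_ (fun j => ?_) j
    · rw [cyl_zero, h]; rfl
    · rw [cyl_succ]
      have h0 : ∑ j : Fin (k + 1), x j.succ = 0 := by linarith
      rw [(Finset.sum_eq_zero_iff_of_nonneg fun j _ => stdSimplex.zero_le x _).1 h0 j (Finset.mem_univ _)]
      simp
  · have h1 : 0 < 1 - x 0 := sub_pos.2 (lt_of_le_of_ne (stdSimplex.le_one x 0) h)
    refine ⟨(⟨x 0, stdSimplex.zero_le x 0, stdSimplex.le_one x 0⟩, ⟨fun j => x j.succ / (1 - x 0),
      fun j => div_nonneg (stdSimplex.zero_le x _) h1.le, ?_⟩), stdSimplex.ext (funext fun j => ?_)⟩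
    · rw [← Finset.sum_div, div_eq_one_iff_eq h1.ne']; linarith
    · refine Fin.cases rfl (fun j => ?_) j
      rw [cyl_succ]
      exact mul_div_cancel₀ _ h1.ne'

theorem cyl_quot (k : ℕ) : Topology.IsQuotientMap (cyl k) :=
  IsClosedMap.isQuotientMap (cyl k).continuous.isClosedMap (cyl k).continuous (cyl_surj k)

theorem cyl_eq {k : ℕ} {p q : unitInterval × Sx k} (h : cyl k p = cyl k q) :
    p = q ∨ (p.1 = 1 ∧ q.1 = 1) := by
  obtain ⟨s, y⟩ := p
  obtain ⟨t, z⟩ := q
  obtain rfl : s = t := Subtype.ext (congrArg (fun x : Sx (k + 1) => x 0) h)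
  by_cases h1 : s = 1
  · exact Or.inr ⟨h1, h1⟩
  · refine Or.inl (Prod.ext rfl (stdSimplex.ext (funext fun j => ?_)))
    have h2 : (1 - s : ℝ) ≠ 0 := fun h3 => h1 (Subtype.ext (sub_eq_zero.1 h3).symm)
    exact mul_left_cancel₀ h2 (congrArg (fun x : Sx (k + 1) => x j.succ) h)

theorem coface_zero_eq {k : ℕ} (y : Sx k) : coface 0 y = cyl k (0, y) := by
  refine stdSimplex.ext (funext fun j => ?_)
  refine Fin.cases ?_ (fun j => ?_) j
  · rw [coface_same, cyl_zero]; rfl
  · rw [cyl_succ, ← Fin.succAbove_zero_apply, coface_succAbove]; simp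

theorem coface_succ_cyl {k : ℕ} (i : Fin (k + 2)) (s : unitInterval) (y : Sx k) :
    coface i.succ (cyl k (s, y)) = cyl (k + 1) (s, coface i y) := by
  refine stdSimplex.ext (funext fun j => ?_)
  refine Fin.cases ?_ (fun j => ?_) j
  · rw [cyl_zero, ← Fin.succ_succAbove_zero i, coface_succAbove, cyl_zero]
  · rw [cyl_succ]
    refine Fin.succAboveCases i ?_ (fun j => ?_) j
    · rw [coface_same, coface_same, mul_zero]
    · rw [← Fin.succ_succAbove_succ, coface_succAbove, coface_succAbove, cyl_succ]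

theorem coface_one_eq (y : Sx 0) : coface (1 : Fin 2) y = cyl 0 (1, y) := by
  refine stdSimplex.ext (funext fun j => ?_)
  refine Fin.cases ?_ (fun j => ?_) j
  · rw [cyl_zero]
    exact (coface_succAbove (1 : Fin 2) y 0).trans (stdSimplex.eq_one_of_unique (X := Fin 1) y 0)
  · rw [cyl_succ, Subsingleton.elim j 0]
    exact (coface_same (1 : Fin 2) y).trans (by simp)

variable (R : Type) [Ring R] {X Y : Type} [TopologicalSpace X] [TopologicalSpace Y]
  {f : C(X, Y)} {y₀ : Y}

theorem cone_factors (H : f.Homotopy (ContinuousMap.const X y₀)) {k : ℕ} (σ : Sing X k) :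
    Function.FactorsThrough
      (H.toContinuousMap.comp ((ContinuousMap.id unitInterval).prodMap σ)) (cyl k) := by
  intro p q h
  rcases cyl_eq h with rfl | ⟨h1, h2⟩
  · rfl
  · show H (p.1, σ p.2) = H (q.1, σ q.2)
    rw [h1, h2, H.apply_one, H.apply_one]
    rfl

/-- The cone over a singular simplex along a null-homotopy. -/
noncomputable def coneS (H : f.Homotopy (ContinuousMap.const X y₀)) {k : ℕ} (σ : Sing X k) :
    Sing Y (k + 1) :=
  (cyl_quot k).lift _ (cone_factors H σ)

theorem coneS_cyl (H : f.Homotopy (ContinuousMap.const X y₀)) {k : ℕ} (σ : Sing X k)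
    (s : unitInterval) (y : Sx k) : coneS H σ (cyl k (s, y)) = H (s, σ y) :=
  congrArg (fun g : C(unitInterval × Sx k, Y) => g (s, y))
    ((cyl_quot k).lift_comp _ (cone_factors H σ))

theorem face_zero_coneS (H : f.Homotopy (ContinuousMap.const X y₀)) {k : ℕ} (σ : Sing X k) :
    face 0 (coneS H σ) = f.comp σ := by
  ext y
  show coneS H σ (coface 0 y) = f (σ y)
  rw [coface_zero_eq, coneS_cyl, H.apply_zero]

theorem face_succ_coneS (H : f.Homotopy (ContinuousMap.const X y₀)) {k : ℕ} (σ : Sing X (k + 1))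
    (i : Fin (k + 2)) : face i.succ (coneS H σ) = coneS H (face i σ) := by
  ext x
  obtain ⟨⟨s, y⟩, rfl⟩ := cyl_surj k x
  show coneS H σ (coface i.succ (cyl k (s, y))) = _
  rw [coface_succ_cyl, coneS_cyl, coneS_cyl]
  rfl

theorem face_one_coneS (H : f.Homotopy (ContinuousMap.const X y₀)) (σ : Sing X 0) :
    face (1 : Fin 2) (coneS H σ) = ContinuousMap.const _ y₀ := by
  ext y
  show coneS H σ (coface 1 y) = y₀
  rw [coface_one_eq, coneS_cyl, H.apply_one]
  rfl

/-- The cone operator on chains. -/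
noncomputable def cone (H : f.Homotopy (ContinuousMap.const X y₀)) (k : ℕ) :
    (Sing X k →₀ R) →ₗ[R] (Sing Y (k + 1) →₀ R) := lmapDomain R R (coneS H)

theorem cone_single (H : f.Homotopy (ContinuousMap.const X y₀)) (k : ℕ) (σ : Sing X k) (a : R) :
    cone R H k (single σ a) = single (coneS H σ) a := by
  simp only [cone, lmapDomain_apply, mapDomain_single]

theorem bd_cone_succ (H : f.Homotopy (ContinuousMap.const X y₀)) (k : ℕ)
    (c : Sing X (k + 1) →₀ R) :
    bd R Y (k + 1) (cone R H (k + 1) c) = push R f (k + 1) c - cone R H k (bd R X k c) := by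
  induction c using Finsupp.induction_linear with
  | zero => simp
  | add a b ha hb => simp only [map_add, ha, hb]; abel
  | single σ a =>
    rw [cone_single, bd_single, bd_single, push_single, Fin.sum_univ_succ, face_zero_coneS, map_sum,
      sub_eq_add_neg, ← Finset.sum_neg_distrib]
    simp only [face_succ_coneS, map_zsmul, cone_single, Fin.val_zero, pow_zero, one_smul,
      Fin.val_succ, pow_succ, mul_neg, mul_one, neg_smul]

theorem bd_cone_zero (H : f.Homotopy (ContinuousMap.const X y₀)) (c : Sing X 0 →₀ R) :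
    bd R Y 0 (cone R H 0 c) =
      push R f 0 c - single (ContinuousMap.const _ y₀) (aug R X c) := by
  induction c using Finsupp.induction_linear with
  | zero => simp
  | add a b ha hb => simp only [map_add, ha, hb, single_add]; abel
  | single σ a =>
    rw [cone_single, bd_single, push_single, aug_single, Fin.sum_univ_two, face_zero_coneS,
      face_one_coneS]
    simp [sub_eq_add_neg]

variable {R} in
theorem cone_mem_supp (H : f.Homotopy (ContinuousMap.const X y₀)) {A : Set X} {B : Set Y}
    (hAB : ∀ s, ∀ x ∈ A, H (s, x) ∈ B) {k : ℕ} {c : Sing X k →₀ R} (h : c ∈ supp R A k) :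
    cone R H k c ∈ supp R B (k + 1) := by
  refine supp_induction (P := fun c => cone R H k c ∈ supp R B (k + 1)) (by simp)
    (fun a b ha hb => by simpa using add_mem ha hb) (fun σ a hσ => ?_) h
  rw [cone_single]
  refine single_mem_supp a fun t => ?_
  obtain ⟨⟨s, y⟩, rfl⟩ := cyl_surj k t
  rw [coneS_cyl]
  exact hAB s _ (hσ y)

end Pool.Agent.MP_4f4d9f_gt
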