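import Pool.Agent.MP_4f4d9f_gt.SingCone

/-! Barycentric subdivision of singular chains over any ring; small chains. -/

namespace Pool.Agent.MP_4f4d9f_gt

open Finsupp

variable (R : Type) [Ring R] {X Y : Type} [TopologicalSpace X] [TopologicalSpace Y]

variable (X) in
/-- The natural operator on chains defined by a universal chain on the standard simplex. -/
noncomputable def ev {k l : ℕ} (m : Sing (Sx k) l →₀ R) :
    (Sing X k →₀ R) →ₗ[R] (Sing X l →₀ R) :=
  linearCombination R fun σ : Sing X k => push R σ l m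

theorem ev_single {k l : ℕ} (m : Sing (Sx k) l →₀ R) (σ : Sing X k) (a : R) :
    ev R X m (single σ a) = a • push R σ l m := linearCombination_single ..

theorem push_ev (f : C(X, Y)) {k l : ℕ} (m : Sing (Sx k) l →₀ R) (c : Sing X k →₀ R) :
    push R f l (ev R X m c) = ev R Y m (push R f k c) := by
  induction c using Finsupp.induction_linear with
  | zero => simp
  | add a b ha hb => simp only [map_add, ha, hb]
  | single σ a => rw [push_single, ev_single, ev_single, map_smul, push_push]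

variable {R} in
theorem ev_mem_supp {k l : ℕ} (m : Sing (Sx k) l →₀ R) {A : Set X} {c : Sing X k →₀ R}
    (h : c ∈ supp R A k) : ev R X m c ∈ supp R A l := by
  refine supp_induction (P := fun c => ev R X m c ∈ supp R A l) (by simp)
    (fun a b ha hb => by simpa using add_mem ha hb) (fun σ a hσ => ?_) h
  rw [ev_single]
  exact Submodule.smul_mem _ _ (push_mem_supp σ (fun t _ => hσ t) (mem_supp_univ m))

/-- The fundamental chain of the standard simplex. -/
noncomputable def iota (k : ℕ) : Sing (Sx k) k →₀ R := single (ContinuousMap.id _) 1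

theorem push_iota {k : ℕ} (σ : Sing X k) : push R σ k (iota R k) = single σ 1 :=
  push_single R σ k _ 1

theorem ev_iota {k : ℕ} (c : Sing X k →₀ R) : ev R X (iota R k) c = c := by
  induction c using Finsupp.induction_linear with
  | zero => simp
  | add a b ha hb => simp only [map_add, ha, hb]
  | single σ a => rw [ev_single, push_iota, smul_single, smul_eq_mul, mul_one]

theorem ev_apply_iota {k l : ℕ} (m : Sing (Sx k) l →₀ R) : ev R (Sx k) m (iota R k) = m := by
  rw [iota, ev_single, one_smul, push_id]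

/-- The straight-line contraction of the standard simplex to its barycentre. -/
noncomputable def bary (k : ℕ) :
    (ContinuousMap.id (Sx k)).Homotopy (ContinuousMap.const _ stdSimplex.barycenter) where
  toFun p := ⟨(1 - p.1 : ℝ) • p.2.1 + (p.1 : ℝ) • (stdSimplex.barycenter : Sx k).1,
    convex_stdSimplex ℝ _ p.2.2 (stdSimplex.barycenter : Sx k).2 (sub_nonneg.2 p.1.2.2) p.1.2.1
      (sub_add_cancel _ _)⟩
  continuous_toFun := Continuous.subtype_mk (by fun_prop) _
  map_zero_left x := Subtype.ext (by simp)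
  map_one_left x := Subtype.ext (by simp)

/-- The subdivision of the standard simplex. -/
noncomputable def sdU : (k : ℕ) → (Sing (Sx k) k →₀ R)
  | 0 => iota R 0
  | k + 1 => cone R (bary (k + 1)) k (ev R _ (sdU k) (bd R _ k (iota R (k + 1))))

/-- The universal chain homotopy. -/
noncomputable def sdHU : (k : ℕ) → (Sing (Sx k) (k + 1) →₀ R)
  | 0 => 0
  | k + 1 => cone R (bary (k + 1)) (k + 1)
      (iota R (k + 1) - sdU R (k + 1) - ev R _ (sdHU k) (bd R _ k (iota R (k + 1))))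

variable (X) in
/-- Barycentric subdivision. -/
noncomputable def sdR (k : ℕ) : (Sing X k →₀ R) →ₗ[R] (Sing X k →₀ R) := ev R X (sdU R k)

variable (X) in
/-- The chain homotopy between the identity and the subdivision. -/
noncomputable def sdHR (k : ℕ) : (Sing X k →₀ R) →ₗ[R] (Sing X (k + 1) →₀ R) := ev R X (sdHU R k)

theorem sdR_zero (c : Sing X 0 →₀ R) : sdR R X 0 c = c := ev_iota R c

theorem sdHR_zero (c : Sing X 0 →₀ R) : sdHR R X 0 c = 0 := by
  induction c using Finsupp.induction_linear with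
  | zero => simp
  | add a b ha hb => simp only [map_add, ha, hb, add_zero]
  | single σ a => rw [sdHR, ev_single, sdHU, map_zero, smul_zero]

theorem push_sdR (f : C(X, Y)) (k : ℕ) (c : Sing X k →₀ R) :
    push R f k (sdR R X k c) = sdR R Y k (push R f k c) := push_ev R f _ c

theorem push_sdHR (f : C(X, Y)) (k : ℕ) (c : Sing X k →₀ R) :
    push R f (k + 1) (sdHR R X k c) = sdHR R Y k (push R f k c) := push_ev R f _ c

theorem bd_sdR_of {k : ℕ}
    (h : bd R _ k (sdU R (k + 1)) = sdR R _ k (bd R _ k (iota R (k + 1))))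
    (c : Sing X (k + 1) →₀ R) : bd R X k (sdR R X (k + 1) c) = sdR R X k (bd R X k c) := by
  induction c using Finsupp.induction_linear with
  | zero => simp
  | add a b ha hb => simp only [map_add, ha, hb]
  | single σ a =>
    rw [sdR, ev_single, map_smul, bd_push, h, push_sdR, ← bd_push, push_iota, ← map_smul,
      ← map_smul, smul_single, smul_eq_mul, mul_one]

theorem bd_sdU (k : ℕ) :
    bd R _ k (sdU R (k + 1)) = sdR R _ k (bd R _ k (iota R (k + 1))) := by
  induction k with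
  | zero =>
    rw [sdU, bd_cone_zero, push_id, sdU, ev_iota, aug_bd, single_zero, sub_zero, sdR_zero]
  | succ k ih =>
    rw [sdU, bd_cone_succ, push_id]
    have := bd_sdR_of R ih (bd R _ (k + 1) (iota R (k + 1 + 1)))
    rw [bd_bd, map_zero, sdR] at this
    rw [this, map_zero, sub_zero, sdR]

theorem bd_sdR (k : ℕ) (c : Sing X (k + 1) →₀ R) :
    bd R X k (sdR R X (k + 1) c) = sdR R X k (bd R X k c) := bd_sdR_of R (bd_sdU R k) c

theorem bd_sdHR_of {k : ℕ}
    (h : bd R _ (k + 1) (sdHU R (k + 1)) =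
      iota R (k + 1) - sdU R (k + 1) - sdHR R _ k (bd R _ k (iota R (k + 1))))
    (c : Sing X (k + 1) →₀ R) :
    bd R X (k + 1) (sdHR R X (k + 1) c) = c - sdR R X (k + 1) c - sdHR R X k (bd R X k c) := by
  induction c using Finsupp.induction_linear with
  | zero => simp
  | add a b ha hb => simp only [map_add, ha, hb]; abel
  | single σ a =>
    rw [sdHR, ev_single, map_smul, bd_push, h, map_sub, map_sub, push_sdHR, ← bd_push, push_iota,
      smul_sub, smul_sub, ← map_smul (sdHR R X k), ← map_smul (bd R X k), smul_single, smul_eq_mul,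
      mul_one, sdR, ev_single]

theorem bd_sdHU (k : ℕ) : bd R _ (k + 1) (sdHU R (k + 1)) =
    iota R (k + 1) - sdU R (k + 1) - sdHR R _ k (bd R _ k (iota R (k + 1))) := by
  induction k with
  | zero =>
    rw [sdHU, bd_cone_succ, push_id, ← sdHR, sdHR_zero, sub_zero, map_sub, bd_sdU, sdR_zero,
      sub_self, map_zero, sub_zero]
  | succ k ih =>
    rw [sdHU, bd_cone_succ, push_id, ← sdHR, map_sub (bd R _ _), map_sub (bd R _ _), bd_sdU,
      bd_sdHR_of R ih, bd_bd, map_zero, sub_zero, sub_self, map_zero, sub_zero]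

theorem bd_sdHR (k : ℕ) (c : Sing X (k + 1) →₀ R) :
    bd R X (k + 1) (sdHR R X (k + 1) c) = c - sdR R X (k + 1) c - sdHR R X k (bd R X k c) :=
  bd_sdHR_of R (bd_sdHU R k) c

variable {R} in
theorem sdR_mem_supp {A : Set X} {k : ℕ} {c : Sing X k →₀ R} (h : c ∈ supp R A k) :
    sdR R X k c ∈ supp R A k := ev_mem_supp _ h

variable {R} in
theorem sdHR_mem_supp {A : Set X} {k : ℕ} {c : Sing X k →₀ R} (h : c ∈ supp R A k) :
    sdHR R X k c ∈ supp R A (k + 1) := ev_mem_supp _ h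

/-! ### Mesh -/

/-- An affine simplex with one coordinate bounded below by `δ`. -/
def Doeb (δ : ℝ) {n k : ℕ} (ρ : Sing (Sx n) k) : Prop :=
  (∃ L : (Fin (k + 1) → ℝ) →ₗ[ℝ] (Fin (n + 1) → ℝ), ∀ x : Sx k, (ρ x).1 = L x.1) ∧
    ∃ j, ∀ x, δ ≤ ρ x j

theorem Doeb.coface {δ : ℝ} {n k : ℕ} {ρ : Sing (Sx n) k} (h : Doeb δ ρ) (i : Fin (n + 2)) :
    Doeb δ ((coface i).comp ρ) := by
  obtain ⟨⟨L, hL⟩, j, hj⟩ := h
  refine ⟨⟨FunOnFinite.linearMap ℝ ℝ i.succAbove ∘ₗ L, fun x => ?_⟩, i.succAbove j, fun x => ?_⟩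
  · rw [LinearMap.comp_apply, ← hL]; rfl
  · rw [ContinuousMap.comp_apply, coface_succAbove]; exact hj x

theorem Doeb.cone {δ : ℝ} {n k : ℕ} {ρ : Sing (Sx n) k} (h : Doeb δ ρ)
    (hδ : ((n + 1 : ℕ) : ℝ)⁻¹ ≤ δ) : Doeb ((n + 1 : ℕ) : ℝ)⁻¹ (coneS (bary n) ρ) := by
  obtain ⟨⟨L, hL⟩, j, hj⟩ := h
  refine ⟨⟨L ∘ₗ LinearMap.funLeft ℝ ℝ Fin.succ +
    (LinearMap.proj 0).smulRight (stdSimplex.barycenter : Sx n).1, fun x => ?_⟩, j, fun x => ?_⟩
  · obtain ⟨⟨s, y⟩, rfl⟩ := cyl_surj k x
    rw [coneS_cyl]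
    show (1 - s : ℝ) • (ρ y).1 + (s : ℝ) • (stdSimplex.barycenter : Sx n).1 =
      L ((1 - s : ℝ) • y.1) + (s : ℝ) • (stdSimplex.barycenter : Sx n).1
    rw [map_smul, hL]
  · obtain ⟨⟨s, y⟩, rfl⟩ := cyl_surj k x
    rw [coneS_cyl]
    show _ ≤ (1 - s : ℝ) * ρ y j + (s : ℝ) * (Fintype.card (Fin (n + 1)) : ℝ)⁻¹
    rw [Fintype.card_fin]
    nlinarith [mul_le_mul_of_nonneg_left (hδ.trans (hj y)) (sub_nonneg.2 s.2.2)]

/-- The `ℓ¹` distance on the standard simplex. -/
noncomputable def dOne {k : ℕ} (x y : Sx k) : ℝ := ∑ i, |x i - y i|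

theorem dOne_nonneg {k : ℕ} (x y : Sx k) : 0 ≤ dOne x y :=
  Finset.sum_nonneg fun _ _ => abs_nonneg _

theorem dOne_le_two {k : ℕ} (x y : Sx k) : dOne x y ≤ 2 := by
  calc dOne x y ≤ ∑ i, (x i + y i) := Finset.sum_le_sum fun i _ => by
        have := stdSimplex.zero_le x i
        have := stdSimplex.zero_le y i
        rw [abs_le]; constructor <;> linarith
    _ = 2 := by rw [Finset.sum_add_distrib, stdSimplex.sum_eq_one, stdSimplex.sum_eq_one]; norm_num

theorem dist_le_dOne {k : ℕ} (x y : Sx k) : dist x y ≤ dOne x y := by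
  rw [Subtype.dist_eq]
  exact (dist_pi_le_iff (dOne_nonneg x y)).2 fun i =>
    Finset.single_le_sum (f := fun i => |x i - y i|) (fun _ _ => abs_nonneg _) (Finset.mem_univ i)

theorem Doeb.contract {δ : ℝ} {n k : ℕ} {ρ : Sing (Sx n) k} (h : Doeb δ ρ) (x y : Sx k) :
    dOne (ρ x) (ρ y) ≤ (1 - δ) * dOne x y := by
  classical
  obtain ⟨⟨L, hL⟩, j, hj⟩ := h
  set w : Fin (k + 1) → Fin (n + 1) → ℝ :=
    fun i l => ρ (stdSimplex.vertex i) l - δ * (Pi.single j 1 : Fin (n + 1) → ℝ) l with hw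
  have hw0 : ∀ i l, 0 ≤ w i l := fun i l => by
    by_cases hl : l = j
    · subst hl; simpa [hw] using hj _
    · simp [hw, Pi.single_eq_of_ne hl]
  have hw1 : ∀ i, ∑ l, w i l = 1 - δ := fun i => by
    simp [hw, Finset.sum_sub_distrib, ← Finset.mul_sum]
  have hx : ∀ (x : Sx k) l, ρ x l = ∑ i, x i * ρ (stdSimplex.vertex i) l := fun x l => by
    show (ρ x).1 l = ∑ i, x.1 i * (ρ (stdSimplex.vertex i)).1 l
    simp only [hL]
    conv_lhs => rw [pi_eq_sum_univ' x.1, map_sum]
    simp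
  have hd : ∀ l, ρ x l - ρ y l = ∑ i, (x i - y i) * w i l := fun l => by
    rw [hx x, hx y]
    simp only [hw, mul_sub, sub_mul, Finset.sum_sub_distrib, ← Finset.sum_mul,
      stdSimplex.sum_eq_one]
    ring
  calc dOne (ρ x) (ρ y) ≤ ∑ l, ∑ i, |x i - y i| * w i l := Finset.sum_le_sum fun l _ => by
        rw [hd]
        refine (Finset.abs_sum_le_sum_abs _ _).trans (Finset.sum_le_sum fun i _ => ?_)
        rw [abs_mul, abs_of_nonneg (hw0 i l)]
    _ = (1 - δ) * dOne x y := by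
        rw [Finset.sum_comm, dOne, Finset.mul_sum]
        exact Finset.sum_congr rfl fun i _ => by rw [← Finset.mul_sum, hw1, mul_comm]

variable {R} in
theorem map_supported {α β : Type} {S : Set α} {T : Submodule R (β →₀ R)}
    (F : (α →₀ R) →ₗ[R] (β →₀ R)) (h : ∀ a ∈ S, F (single a 1) ∈ T) {c : α →₀ R}
    (hc : c ∈ supported R R S) : F c ∈ T := by
  rw [supported_eq_span_single] at hc
  refine (Submodule.span_le (p := T.comap F)).2 ?_ hc
  rintro _ ⟨a, ha, rfl⟩
  exact h a ha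

theorem sdU_doeb (k : ℕ) : sdU R k ∈ supported R R {ρ | Doeb ((k + 1 : ℕ) : ℝ)⁻¹ ρ} := by
  induction k with
  | zero =>
    refine single_mem_supported R _ ⟨⟨LinearMap.id, fun _ => rfl⟩, 0, fun x => ?_⟩
    exact le_of_eq_of_le (by simp) (stdSimplex.eq_one_of_unique (X := Fin 1) x 0).ge
  | succ k ih =>
    rw [sdU, iota, bd_single, map_sum, map_sum]
    refine sum_mem fun i _ => ?_
    rw [map_zsmul, map_zsmul, ev_single, one_smul]
    refine zsmul_mem (map_supported (cone R (bary (k + 1)) k ∘ₗ push R _ k) (fun ρ hρ => ?_) ih) _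
    rw [LinearMap.comp_apply, push_single, cone_single]
    refine single_mem_supported R _ (Doeb.cone (Doeb.coface hρ i) ?_)
    exact inv_anti₀ (by positivity) (by norm_cast; omega)

theorem sdR_pow_single {k : ℕ} (σ : Sing X k) (m : ℕ) :
    (sdR R X k ^ m) (single σ 1) ∈ supported R R {τ | ∃ ρ : Sing (Sx k) k, τ = σ.comp ρ ∧
      ∀ x y, dOne (ρ x) (ρ y) ≤ (1 - ((k + 1 : ℕ) : ℝ)⁻¹) ^ m * dOne x y} := by
  induction m with
  | zero => exact single_mem_supported R _ ⟨ContinuousMap.id _, rfl, fun x y => by simp⟩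
  | succ m ih =>
    rw [pow_succ' (sdR R X k), Module.End.mul_apply]
    refine map_supported _ ?_ ih
    rintro _ ⟨ρ, rfl, hρ⟩
    rw [sdR, ev_single, one_smul]
    refine map_supported _ (fun ρ' hρ' => ?_) (sdU_doeb R k)
    rw [push_single]
    refine single_mem_supported R _ ⟨ρ.comp ρ', rfl, fun x y => (hρ _ _).trans ?_⟩
    rw [pow_succ, mul_assoc]
    refine mul_le_mul_of_nonneg_left (Doeb.contract hρ' x y) (pow_nonneg (sub_nonneg.2 ?_) _)
    exact inv_le_one_of_one_le₀ (by norm_cast; omega)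

variable {R}

/-- Small chains for any family of open sets. -/
theorem sdR_small {ι : Type} {U : ι → Set X} (hU : ∀ i, IsOpen (U i)) {k : ℕ} {c : Sing X k →₀ R}
    (h : c ∈ supp R (⋃ i, U i) k) :
    ∃ m : ℕ, ∀ m' ≥ m, (sdR R X k ^ m') c ∈ ⨆ i, supp R (U i) k := by
  refine supp_induction (P := fun c => ∃ m : ℕ, ∀ m' ≥ m, (sdR R X k ^ m') c ∈ ⨆ i, supp R (U i) k)
    ⟨0, fun _ _ => by simp⟩ ?_ (fun σ a hσ => ?_) h
  · rintro a b ⟨m, hm⟩ ⟨n, hn⟩
    refine ⟨max m n, fun m' h' => ?_⟩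
    rw [map_add]
    exact add_mem (hm _ (le_of_max_le_left h')) (hn _ (le_of_max_le_right h'))
  obtain ⟨ε, hε, hL⟩ := lebesgue_number_lemma_of_metric (isCompact_univ (X := Sx k))
    (c := fun i => σ ⁻¹' U i) (fun i => (hU i).preimage σ.continuous)
    fun t _ => by simpa using hσ t
  have h0 : (0 : ℝ) ≤ 1 - ((k + 1 : ℕ) : ℝ)⁻¹ :=
    sub_nonneg.2 (inv_le_one_of_one_le₀ (by norm_cast; omega))
  have h1 : 1 - ((k + 1 : ℕ) : ℝ)⁻¹ < 1 := sub_lt_self _ (by positivity)
  obtain ⟨m, hm⟩ := exists_pow_lt_of_lt_one (half_pos hε) h1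
  refine ⟨m, fun m' h' => ?_⟩
  rw [← mul_one a, ← smul_eq_mul, ← smul_single, map_smul]
  refine Submodule.smul_mem _ _ (map_supported LinearMap.id ?_ (sdR_pow_single R σ m'))
  rintro _ ⟨ρ, rfl, hρ⟩
  obtain ⟨i, hi⟩ := hL (ρ (Classical.arbitrary _)) trivial
  refine Submodule.mem_iSup_of_mem i (single_mem_supp _ fun t => hi ?_)
  have h2 := (pow_le_pow_of_le_one h0 h1.le h').trans_lt hm
  have h3 := mul_le_mul_of_nonneg_left (dOne_le_two t (Classical.arbitrary _)) (pow_nonneg h0 m')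
  exact (dist_le_dOne _ _).trans_lt ((hρ _ _).trans_lt (by linarith))

theorem sdR_small_two {U V : Set X} (hU : IsOpen U) (hV : IsOpen V) {k : ℕ} {c : Sing X k →₀ R}
    (h : c ∈ supp R (U ∪ V) k) :
    ∃ m : ℕ, ∀ m' ≥ m, (sdR R X k ^ m') c ∈ supp R U k ⊔ supp R V k := by
  obtain ⟨m, hm⟩ := sdR_small (U := fun b : Bool => cond b U V) (by rintro (_ | _) <;> assumption)
    (by rwa [← Set.union_eq_iUnion])
  refine ⟨m, fun m' h' => ?_⟩
  have := hm m' h'
  rwa [iSup_bool_eq] at this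

/-- A chain in a directed union of open sets lies in one of them. -/
theorem exists_supp_of_directed {ι : Type} [Nonempty ι] {U : ι → Set X} (hU : ∀ i, IsOpen (U i))
    (hd : Directed (· ⊆ ·) U) {k : ℕ} {c : Sing X k →₀ R} (h : c ∈ supp R (⋃ i, U i) k) :
    ∃ i, c ∈ supp R (U i) k := by
  obtain ⟨K, hK, hKU, hc⟩ := exists_compact_supp h
  obtain ⟨i, hi⟩ := hK.elim_directed_cover U hU hKU hd
  exact ⟨i, supp_mono hi k hc⟩

/-! ### Iterated subdivision and the small-chain lemma -/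

variable (R X) in
/-- The chain homotopy between the identity and the `m`-fold subdivision. -/
noncomputable def sdHPow (m k : ℕ) : (Sing X k →₀ R) →ₗ[R] (Sing X (k + 1) →₀ R) :=
  ∑ j ∈ Finset.range m, sdHR R X k ∘ₗ (sdR R X k ^ j)

theorem bd_sdR_pow (m k : ℕ) (c : Sing X (k + 1) →₀ R) :
    bd R X k ((sdR R X (k + 1) ^ m) c) = (sdR R X k ^ m) (bd R X k c) := by
  induction m with
  | zero => rfl
  | succ m ih => rw [pow_succ', pow_succ', Module.End.mul_apply, Module.End.mul_apply, bd_sdR, ih]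

theorem bd_sdHPow (m k : ℕ) (c : Sing X (k + 1) →₀ R) :
    bd R X (k + 1) (sdHPow R X m (k + 1) c) =
      c - (sdR R X (k + 1) ^ m) c - sdHPow R X m k (bd R X k c) := by
  induction m with
  | zero => simp [sdHPow]
  | succ m ih =>
    simp only [sdHPow, Finset.sum_range_succ, LinearMap.add_apply, map_add, LinearMap.comp_apply]
      at ih ⊢
    rw [ih, bd_sdHR, bd_sdR_pow, pow_succ', Module.End.mul_apply]
    abel

theorem sdR_pow_mem_supp {A : Set X} (m : ℕ) {k : ℕ} {c : Sing X k →₀ R} (h : c ∈ supp R A k) :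
    (sdR R X k ^ m) c ∈ supp R A k := by
  induction m with
  | zero => exact h
  | succ m ih => rw [pow_succ', Module.End.mul_apply]; exact sdR_mem_supp ih

theorem sdHPow_mem_supp {A : Set X} (m : ℕ) {k : ℕ} {c : Sing X k →₀ R} (h : c ∈ supp R A k) :
    sdHPow R X m k c ∈ supp R A (k + 1) := by
  rw [sdHPow, LinearMap.sum_apply]
  exact sum_mem fun j _ => sdHR_mem_supp (sdR_pow_mem_supp j h)

/-- A chain in `A ∪ B` with small boundary is homologous to a small chain. -/
theorem small_chainR {A B : Set X} (hA : IsOpen A) (hB : IsOpen B) (k : ℕ)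
    (c : Sing X (k + 1) →₀ R) (hc : c ∈ supp R (A ∪ B) (k + 1))
    (hd : bd R X k c ∈ supp R A k ⊔ supp R B k) :
    ∃ h ∈ supp R (A ∪ B) (k + 2),
      c - bd R X (k + 1) h ∈ supp R A (k + 1) ⊔ supp R B (k + 1) := by
  obtain ⟨m, hm⟩ := sdR_small_two hA hB hc
  refine ⟨_, sdHPow_mem_supp m hc, ?_⟩
  rw [bd_sdHPow, sub_sub, sub_sub_cancel]
  refine add_mem (hm m le_rfl) ?_
  obtain ⟨a, ha, b, hb, hab⟩ := Submodule.mem_sup.1 hd
  rw [← hab, map_add]
  exact Submodule.add_mem_sup (sdHPow_mem_supp m ha) (sdHPow_mem_supp m hb)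

end Pool.Agent.MP_4f4d9f_gt
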